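import Mathlib

open Polynomial Filter Topology

namespace Pool.Agent.H52.BW

/-- the `k`-th forward difference of a function on the integers -/
noncomputable def dk (k : ℕ) (ψ : ℤ → ℂ) : ℤ → ℂ := (fwdDiff (1:ℤ))^[k] ψ

/-- all forward differences of `ψ` are controlled by the weight `w` -/
def Bd (w : ℤ → ℝ) (C : ℝ) (ψ : ℤ → ℂ) : Prop :=
  ∀ (n : ℤ) (k : ℕ), ‖dk k ψ n‖ * (k.factorial : ℝ) ≤ C * w n

/-- weights on the integers growing faster than every polynomial -/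
structure Wt (w : ℤ → ℝ) : Prop where
  one_le : ∀ n, 1 ≤ w n
  zero : w 0 = 1
  mul : ∀ m n, w (m + n) ≤ w m * w n
  sp : ∀ i : ℕ, ∃ K : ℝ, ∀ n : ℤ, |(n:ℝ)| ^ i ≤ K * w n

variable {w : ℤ → ℝ}

lemma Wt.nonneg (hw : Wt w) (n : ℤ) : 0 ≤ w n := le_trans zero_le_one (hw.one_le n)

lemma dk_eq_sum (k : ℕ) (ψ : ℤ → ℂ) (n : ℤ) :
    dk k ψ n = ∑ j ∈ Finset.range (k + 1), ((-1 : ℤ) ^ (k - j) * k.choose j) • ψ (n + j) := by
  unfold dk
  rw [fwdDiff_iter_eq_sum_shift]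
  simp

lemma dk_add (k : ℕ) (f g : ℤ → ℂ) (n : ℤ) : dk k (f + g) n = dk k f n + dk k g n := by
  unfold dk; rw [fwdDiff_iter_add]; rfl

lemma dk_smul (k : ℕ) (c : ℂ) (f : ℤ → ℂ) (n : ℤ) : dk k (c • f) n = c * dk k f n := by
  unfold dk; rw [fwdDiff_iter_const_smul]; rfl

lemma dk_shift (k : ℕ) (f : ℤ → ℂ) (m n : ℤ) : dk k (fun r => f (r + m)) n = dk k f (n + m) := by
  unfold dk; exact fwdDiff_iter_comp_add (1:ℤ) f m k n

lemma Bd.add {C1 C2 : ℝ} {f g : ℤ → ℂ} (h1 : Bd w C1 f) (h2 : Bd w C2 g) :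
    Bd w (C1 + C2) (f + g) := by
  intro n k
  rw [dk_add]
  have := h1 n k
  have := h2 n k
  have h3 : ‖dk k f n + dk k g n‖ ≤ ‖dk k f n‖ + ‖dk k g n‖ := norm_add_le _ _
  have h4 : (0:ℝ) ≤ (k.factorial : ℝ) := by positivity
  nlinarith [mul_le_mul_of_nonneg_right h3 h4]

lemma Bd.smul {C : ℝ} {f : ℤ → ℂ} (c : ℂ) (h : Bd w C f) : Bd w (‖c‖ * C) (c • f) := by
  intro n k
  rw [dk_smul, norm_mul, mul_assoc, mul_assoc]
  exact mul_le_mul_of_nonneg_left (h n k) (norm_nonneg _)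

lemma Bd.mono (hw : ∀ n, 0 ≤ w n) {C C' : ℝ} (hC : C ≤ C') {f : ℤ → ℂ} (h : Bd w C f) :
    Bd w C' f := fun n k => (h n k).trans (mul_le_mul_of_nonneg_right hC (hw n))

lemma dk_zero_fun (k : ℕ) (n : ℤ) : dk k (0 : ℤ → ℂ) n = 0 := by
  have := dk_smul k 0 (0 : ℤ → ℂ) n
  simpa using this

lemma Bd.zero : Bd w 0 (0 : ℤ → ℂ) := by
  intro n k
  rw [dk_zero_fun]; simp

lemma Bd.sum (hw : ∀ n, 0 ≤ w n) {ι : Type*} (s : Finset ι) (C : ι → ℝ) (f : ι → ℤ → ℂ)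
    (h : ∀ i ∈ s, Bd w (C i) (f i)) : Bd w (∑ i ∈ s, C i) (∑ i ∈ s, f i) := by
  classical
  induction s using Finset.induction_on with
  | empty => simpa using Bd.zero
  | insert a s ha ih =>
    rw [Finset.sum_insert ha, Finset.sum_insert ha]
    exact Bd.add (h a (Finset.mem_insert_self _ _))
      (ih fun i hi => h i (Finset.mem_insert_of_mem hi))

/-- the monomial functions on the integers -/
noncomputable def pw (i : ℕ) : ℤ → ℂ := fun n => (n : ℂ) ^ i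

lemma dk_pw_eq_zero {i k : ℕ} (h : i < k) (n : ℤ) : dk k (pw i) n = 0 := by
  have h1 := congrFun (fwdDiff_iter_pow_eq_zero_of_lt (R := ℂ) h) (n : ℂ)
  rw [fwdDiff_iter_eq_sum_shift] at h1
  rw [dk_eq_sum]
  simpa [pw] using h1

lemma norm_dk_pw_le (i k : ℕ) (n : ℤ) : ‖dk k (pw i) n‖ ≤ 2 ^ k * (|(n:ℝ)| + k) ^ i := by
  rw [dk_eq_sum]
  calc ‖∑ j ∈ Finset.range (k + 1), ((-1 : ℤ) ^ (k - j) * k.choose j) • pw i (n + j)‖
      ≤ ∑ j ∈ Finset.range (k + 1), ‖((-1 : ℤ) ^ (k - j) * k.choose j) • pw i (n + j)‖ :=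
        norm_sum_le _ _
    _ ≤ ∑ j ∈ Finset.range (k + 1), (k.choose j : ℝ) * (|(n:ℝ)| + k) ^ i := by
        apply Finset.sum_le_sum
        intro j hj
        rw [zsmul_eq_mul, norm_mul]
        have h1 : ‖(((-1 : ℤ) ^ (k - j) * k.choose j : ℤ) : ℂ)‖ = (k.choose j : ℝ) := by
          push_cast
          rw [norm_mul, norm_pow]
          simp
        rw [h1]
        apply mul_le_mul_of_nonneg_left _ (by positivity)
        unfold pw
        rw [norm_pow]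
        apply pow_le_pow_left₀ (norm_nonneg _)
        push_cast
        have hj' : (j : ℝ) ≤ k := by
          have := Finset.mem_range.1 hj
          exact_mod_cast Nat.lt_succ_iff.1 this
        calc ‖(n:ℂ) + (j:ℂ)‖ ≤ ‖(n:ℂ)‖ + ‖(j:ℂ)‖ := norm_add_le _ _
          _ = |(n:ℝ)| + j := by
            rw [Complex.norm_intCast, Complex.norm_natCast]
          _ ≤ _ := by linarith
    _ = 2 ^ k * (|(n:ℝ)| + k) ^ i := by
        rw [← Finset.sum_mul]
        congr 1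
        exact_mod_cast Nat.sum_range_choose k

lemma Bd_pw (hw : Wt w) (i : ℕ) : ∃ K : ℝ, 0 ≤ K ∧ Bd w K (pw i) := by
  obtain ⟨K, hK⟩ := hw.sp i
  have hK0 : 0 ≤ K := by
    have h := hK 0
    rw [hw.zero, mul_one] at h
    exact le_trans (by positivity) h
  refine ⟨2 ^ i * (2 ^ i * (K + i ^ i)) * i.factorial, by positivity, ?_⟩
  intro n k
  rcases lt_or_ge i k with h | h
  · rw [dk_pw_eq_zero h]
    simp only [norm_zero, zero_mul]
    have := hw.nonneg n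
    positivity
  · have h1 := norm_dk_pw_le i k n
    have hw1 := hw.one_le n
    have h2 : (2:ℝ) ^ k ≤ 2 ^ i := pow_le_pow_right₀ (by norm_num) h
    have h3 : (|(n:ℝ)| + k) ^ i ≤ 2 ^ i * ((K + i ^ i) * w n) := by
      have hk : (k:ℝ) ≤ i := by exact_mod_cast h
      have e1 : (|(n:ℝ)| + k) ^ i ≤ (|(n:ℝ)| + i) ^ i := by
        apply pow_le_pow_left₀ (by positivity); linarith
      have e2 : (|(n:ℝ)| + i) ^ i ≤ (2 * max |(n:ℝ)| i) ^ i := by
        apply pow_le_pow_left₀ (by positivity)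
        have := le_max_left |(n:ℝ)| (i:ℝ)
        have := le_max_right |(n:ℝ)| (i:ℝ)
        linarith
      have e3 : (max |(n:ℝ)| (i:ℝ)) ^ i ≤ |(n:ℝ)| ^ i + (i:ℝ) ^ i := by
        rcases max_choice |(n:ℝ)| (i:ℝ) with h | h <;> rw [h]
        · have : (0:ℝ) ≤ (i:ℝ) ^ i := by positivity
          linarith
        · have : (0:ℝ) ≤ |(n:ℝ)| ^ i := by positivity
          linarith
      have e4 : |(n:ℝ)| ^ i + (i:ℝ) ^ i ≤ (K + i ^ i) * w n := by
        have := hK n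
        have : (i:ℝ) ^ i * 1 ≤ (i:ℝ) ^ i * w n := mul_le_mul_of_nonneg_left hw1 (by positivity)
        nlinarith
      calc _ ≤ _ := e1
        _ ≤ _ := e2
        _ = 2 ^ i * (max |(n:ℝ)| (i:ℝ)) ^ i := by rw [mul_pow]
        _ ≤ 2 ^ i * (|(n:ℝ)| ^ i + (i:ℝ) ^ i) := by
            apply mul_le_mul_of_nonneg_left e3; positivity
        _ ≤ _ := by apply mul_le_mul_of_nonneg_left e4; positivity
    have h4 : (k.factorial : ℝ) ≤ i.factorial := by exact_mod_cast Nat.factorial_le h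
    have hfin : ‖dk k (pw i) n‖ ≤ 2 ^ i * (2 ^ i * ((K + i ^ i) * w n)) :=
      h1.trans (mul_le_mul h2 h3 (by positivity) (by positivity))
    have h5 : ‖dk k (pw i) n‖ * (k.factorial : ℝ) ≤
        (2 ^ i * (2 ^ i * ((K + i ^ i) * w n))) * i.factorial := by
      apply mul_le_mul hfin h4 (by positivity)
      have := hw.nonneg n
      positivity
    calc _ ≤ _ := h5
      _ = _ := by ring

/-- Key estimate: a polynomial `R` vanishing to order `m` at `a`, evaluated at `a + n / M`. -/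
lemma Bd_eval (hw : Wt w) (K : ℕ → ℝ) (hK0 : ∀ i, 0 ≤ K i) (hK : ∀ i, Bd w (K i) (pw i))
    (R : ℂ[X]) (a : ℂ) (m : ℕ) (hm : ∀ j < m, (taylor a R).coeff j = 0) (M : ℝ) (hM : 1 ≤ M) :
    Bd w ((∑ j ∈ Finset.range (R.natDegree + 1), ‖(taylor a R).coeff j‖ * K j) / M ^ m)
      (fun n => R.eval (a + n / M)) := by
  have hM0 : (0:ℝ) < M := by linarith
  have hfun : (fun n : ℤ => R.eval (a + n / M)) = ∑ j ∈ Finset.range (R.natDegree + 1),
      ((taylor a R).coeff j * ((1 / (M:ℂ)) ^ j)) • pw j := by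
    funext n
    have h1 : R.eval (a + n / M) = (taylor a R).eval ((n:ℂ) / M) := by
      rw [taylor_eval, add_comm]
    rw [h1, eval_eq_sum_range' (n := R.natDegree + 1) (by rw [natDegree_taylor]; omega),
      Finset.sum_apply]
    apply Finset.sum_congr rfl
    intro j _
    simp only [Pi.smul_apply, smul_eq_mul, pw]
    rw [div_pow, one_div, inv_pow]
    ring
  rw [hfun, Finset.sum_div]
  apply Bd.mono hw.nonneg _ (Bd.sum hw.nonneg _ (fun j => ‖(taylor a R).coeff j *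
    ((1 / (M:ℂ)) ^ j)‖ * K j) _ (fun j _ => Bd.smul _ (hK j)))
  apply Finset.sum_le_sum
  intro j _
  rcases lt_or_ge j m with h | h
  · rw [hm j h]; simp
  · rw [norm_mul, mul_assoc, mul_div_assoc]
    apply mul_le_mul_of_nonneg_left _ (norm_nonneg _)
    rw [mul_comm, div_eq_mul_inv (K j)]
    apply mul_le_mul_of_nonneg_left _ (hK0 j)
    rw [norm_pow, norm_div, norm_one, Complex.norm_real, Real.norm_of_nonneg hM0.le, one_div,
      inv_pow]
    apply inv_anti₀ (by positivity)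
    exact pow_le_pow_right₀ hM h


/-- the modified weight -/
noncomputable def wnew (w : ℤ → ℝ) (c M : ℕ) : ℤ → ℝ :=
  fun n => ⨅ a : ℤ, (c:ℝ) ^ a.natAbs * w (n - a * M)

lemma wnew_bdd (hw : Wt w) (c M : ℕ) (n : ℤ) :
    BddBelow (Set.range fun a : ℤ => (c:ℝ) ^ a.natAbs * w (n - a * M)) := by
  refine ⟨0, ?_⟩
  rintro _ ⟨a, rfl⟩
  have := hw.nonneg (n - a * M)
  positivity

lemma wnew_le (hw : Wt w) (c M : ℕ) (n a : ℤ) :
    wnew w c M n ≤ (c:ℝ) ^ a.natAbs * w (n - a * M) := ciInf_le (wnew_bdd hw c M n) a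

lemma le_wnew {c M : ℕ} {n : ℤ} {x : ℝ} (h : ∀ a : ℤ, x ≤ (c:ℝ) ^ a.natAbs * w (n - a * M)) :
    x ≤ wnew w c M n := le_ciInf h

lemma wnew_le_self (hw : Wt w) (c M : ℕ) (n : ℤ) : wnew w c M n ≤ w n := by
  have := wnew_le hw c M n 0
  simpa using this

lemma exists_pow_bound (D : ℕ) : ∃ C : ℝ, 0 ≤ C ∧ ∀ t : ℕ, (t:ℝ) ^ D ≤ C * 2 ^ t := by
  have h := (tendsto_pow_const_div_const_pow_of_one_lt D (r := (2:ℝ)) (by norm_num))
  obtain ⟨C, hC⟩ := h.bddAbove_range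
  refine ⟨C, ?_, fun t => ?_⟩
  · have := hC ⟨0, rfl⟩
    refine le_trans ?_ this
    positivity
  · have := hC ⟨t, rfl⟩
    simp only at this
    rw [div_le_iff₀ (by positivity)] at this
    exact this

lemma Wt.wnew (hw : Wt w) {c : ℕ} (hc : 2 ≤ c) (M : ℕ) : Wt (wnew w c M) := by
  have hc1 : (1:ℝ) ≤ c := by exact_mod_cast (by omega : 1 ≤ c)
  have hc2 : (2:ℝ) ≤ c := by exact_mod_cast hc
  have hone : ∀ n, 1 ≤ BW.wnew w c M n := by
    intro n
    apply le_wnew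
    intro a
    have h1 : (1:ℝ) ≤ (c:ℝ) ^ a.natAbs := one_le_pow₀ hc1
    have h2 := hw.one_le (n - a * M)
    nlinarith
  refine ⟨hone, ?_, ?_, ?_⟩
  · apply le_antisymm _ (hone 0)
    have := wnew_le hw c M 0 0
    simpa [hw.zero] using this
  · intro m n
    have key : ∀ a b : ℤ, BW.wnew w c M (m + n) ≤
        ((c:ℝ) ^ a.natAbs * w (m - a * M)) * ((c:ℝ) ^ b.natAbs * w (n - b * M)) := by
      intro a b
      have h1 := wnew_le hw c M (m + n) (a + b)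
      have h2 : w (m + n - (a + b) * M) ≤ w (m - a * M) * w (n - b * M) := by
        have := hw.mul (m - a * M) (n - b * M)
        rwa [show m - a * M + (n - b * M) = m + n - (a + b) * M by ring] at this
      have h3 : (c:ℝ) ^ (a + b).natAbs ≤ (c:ℝ) ^ a.natAbs * (c:ℝ) ^ b.natAbs := by
        rw [← pow_add]
        exact pow_le_pow_right₀ hc1 (Int.natAbs_add_le a b)
      calc _ ≤ _ := h1
        _ ≤ ((c:ℝ) ^ a.natAbs * (c:ℝ) ^ b.natAbs) * (w (m - a * M) * w (n - b * M)) :=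
            mul_le_mul h3 h2 (hw.nonneg _) (by positivity)
        _ = _ := by ring
    have hpos : ∀ a : ℤ, ∀ n : ℤ, 0 < (c:ℝ) ^ a.natAbs * w (n - a * M) := by
      intro a n
      have h1 : (0:ℝ) < (c:ℝ) ^ a.natAbs := by positivity
      have h2 := hw.one_le (n - a * M)
      positivity
    have key2 : ∀ b : ℤ, BW.wnew w c M (m + n) ≤
        BW.wnew w c M m * ((c:ℝ) ^ b.natAbs * w (n - b * M)) := by
      intro b
      rw [← div_le_iff₀ (hpos b n)]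
      apply le_wnew
      intro a
      rw [div_le_iff₀ (hpos b n)]
      exact key a b
    have hm : 0 < BW.wnew w c M m := lt_of_lt_of_le one_pos (hone m)
    rw [← div_le_iff₀' hm]
    apply le_wnew
    intro b
    rw [div_le_iff₀' hm]
    exact key2 b
  · intro i
    obtain ⟨K, hK⟩ := hw.sp i
    obtain ⟨C, hC0, hC⟩ := exists_pow_bound i
    have hK0 : 0 ≤ K := by
      have h := hK 0
      rw [hw.zero, mul_one] at h
      exact le_trans (by positivity) h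
    refine ⟨2 ^ i * (K + C * M ^ i), fun n => ?_⟩
    have hpos : (0:ℝ) < 2 ^ i * (K + C * M ^ i) + 1 := by positivity
    have hnn : (0:ℝ) ≤ 2 ^ i * (K + C * M ^ i) := by positivity
    -- the bound for every `a`
    have key : ∀ a : ℤ, |(n:ℝ)| ^ i ≤ (2 ^ i * (K + C * M ^ i)) *
        ((c:ℝ) ^ a.natAbs * w (n - a * M)) := by
      intro a
      have hw1 := hw.one_le (n - a * M)
      have hc3 : (1:ℝ) ≤ (c:ℝ) ^ a.natAbs := one_le_pow₀ hc1
      have e0 : |(n:ℝ)| ≤ 2 * max |((n - a * M : ℤ) : ℝ)| (a.natAbs * M : ℝ) := by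
        have h1 : (n:ℝ) = ((n - a * M : ℤ) : ℝ) + (a:ℝ) * M := by push_cast; ring
        have h2 : |(n:ℝ)| ≤ |((n - a * M : ℤ) : ℝ)| + |(a:ℝ) * M| := by
          calc |(n:ℝ)| = |((n - a * M : ℤ) : ℝ) + (a:ℝ) * M| := by rw [← h1]
            _ ≤ _ := abs_add_le _ _
        have h3 : |(a:ℝ) * M| = a.natAbs * M := by
          rw [abs_mul, Nat.abs_cast]
          congr 1
          rw [Nat.cast_natAbs]; simp
        rw [h3] at h2
        have := le_max_left |((n - a * M : ℤ) : ℝ)| (a.natAbs * M : ℝ)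
        have := le_max_right |((n - a * M : ℤ) : ℝ)| (a.natAbs * M : ℝ)
        linarith
      have e1 : |(n:ℝ)| ^ i ≤ 2 ^ i * (max |((n - a * M : ℤ) : ℝ)| (a.natAbs * M : ℝ)) ^ i := by
        rw [← mul_pow]
        exact pow_le_pow_left₀ (abs_nonneg _) e0 i
      have e2 : (max |((n - a * M : ℤ) : ℝ)| (a.natAbs * M : ℝ)) ^ i ≤
          |((n - a * M : ℤ) : ℝ)| ^ i + (a.natAbs * M : ℝ) ^ i := by
        rcases max_choice |((n - a * M : ℤ) : ℝ)| (a.natAbs * M : ℝ) with h | h <;> rw [h]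
        · have : (0:ℝ) ≤ (a.natAbs * M : ℝ) ^ i := by positivity
          linarith
        · have : (0:ℝ) ≤ |((n - a * M : ℤ) : ℝ)| ^ i := by positivity
          linarith
      have e3 : |((n - a * M : ℤ) : ℝ)| ^ i ≤ K * ((c:ℝ) ^ a.natAbs * w (n - a * M)) := by
        have h1 := hK (n - a * M)
        have h2 : w (n - a * M) ≤ (c:ℝ) ^ a.natAbs * w (n - a * M) := by nlinarith
        exact h1.trans (mul_le_mul_of_nonneg_left h2 hK0)
      have e4 : (a.natAbs * M : ℝ) ^ i ≤ C * M ^ i * ((c:ℝ) ^ a.natAbs * w (n - a * M)) := by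
        rw [mul_pow]
        have h1 := hC a.natAbs
        have h2 : (2:ℝ) ^ a.natAbs ≤ (c:ℝ) ^ a.natAbs := pow_le_pow_left₀ (by norm_num) hc2 _
        have h3 : (c:ℝ) ^ a.natAbs ≤ (c:ℝ) ^ a.natAbs * w (n - a * M) := by nlinarith
        calc (a.natAbs:ℝ) ^ i * (M:ℝ) ^ i ≤ (C * 2 ^ a.natAbs) * (M:ℝ) ^ i :=
              mul_le_mul_of_nonneg_right h1 (by positivity)
          _ ≤ (C * ((c:ℝ) ^ a.natAbs * w (n - a * M))) * (M:ℝ) ^ i := by
              apply mul_le_mul_of_nonneg_right _ (by positivity)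
              exact mul_le_mul_of_nonneg_left (h2.trans h3) hC0
          _ = _ := by ring
      calc _ ≤ _ := e1
        _ ≤ 2 ^ i * (|((n - a * M : ℤ) : ℝ)| ^ i + (a.natAbs * M : ℝ) ^ i) :=
            mul_le_mul_of_nonneg_left e2 (by positivity)
        _ ≤ 2 ^ i * (K * ((c:ℝ) ^ a.natAbs * w (n - a * M)) +
              C * M ^ i * ((c:ℝ) ^ a.natAbs * w (n - a * M))) :=
            mul_le_mul_of_nonneg_left (add_le_add e3 e4) (by positivity)
        _ = _ := by ring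
    rcases hnn.eq_or_lt with h0 | h0
    · rw [← h0, zero_mul]
      have := key 0
      rw [← h0, zero_mul] at this
      exact this
    · rw [← div_le_iff₀' h0]
      apply le_wnew
      intro a
      rw [div_le_iff₀' h0]
      exact key a

lemma Bd_wnew {c M : ℕ} {κ : ℝ} (hκ : 0 < κ) {ψ : ℤ → ℂ}
    (h : ∀ a : ℤ, Bd w (κ * (c:ℝ) ^ a.natAbs) (fun n => ψ (n + a * M))) :
    Bd (wnew w c M) κ ψ := by
  intro n k
  rw [← div_le_iff₀' hκ]
  apply le_wnew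
  intro a
  rw [div_le_iff₀' hκ]
  have := h a (n - a * M) k
  rw [dk_shift, sub_add_cancel] at this
  linarith


lemma taylor_coeff_eq_zero_of_dvd {R : ℂ[X]} {a : ℂ} {m : ℕ} (h : (X - C a) ^ m ∣ R) {j : ℕ}
    (hj : j < m) : (taylor a R).coeff j = 0 := by
  obtain ⟨S, rfl⟩ := h
  rw [taylor_mul, taylor_pow, map_sub, taylor_X, taylor_C, add_sub_cancel_right, coeff_X_pow_mul']
  simp [not_le.2 hj]

lemma exists_P (A m : ℕ) : ∃ P : ℂ[X], P.eval 0 = 1 ∧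
    ∀ b : ℤ, b ≠ 0 → b.natAbs ≤ A → (X - C (b:ℂ)) ^ m ∣ P := by
  refine ⟨∏ b ∈ (Finset.Icc (-(A:ℤ)) A).erase 0, (C (-(1/(b:ℂ))) * (X - C (b:ℂ))) ^ m, ?_, ?_⟩
  · rw [eval_prod]
    apply Finset.prod_eq_one
    intro b hb
    have hb0 : (b:ℂ) ≠ 0 := by
      have := (Finset.mem_erase.1 hb).1
      exact_mod_cast this
    simp [hb0]
  · intro b hb hbA
    have hmem : b ∈ (Finset.Icc (-(A:ℤ)) A).erase 0 := by
      rw [Finset.mem_erase, Finset.mem_Icc]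
      refine ⟨hb, ?_, ?_⟩ <;> omega
    refine dvd_trans ?_ (Finset.dvd_prod_of_mem _ hmem)
    rw [mul_pow]
    exact dvd_mul_left _ _

lemma eval_bound (Q : ℂ[X]) (D : ℕ) (h : Q.natDegree ≤ D) :
    ∃ B : ℝ, 0 ≤ B ∧ ∀ a : ℤ, ‖Q.eval (a:ℂ)‖ ≤ B * (1 + a.natAbs : ℝ) ^ D := by
  refine ⟨∑ j ∈ Finset.range (D + 1), ‖Q.coeff j‖, by positivity, fun a => ?_⟩
  rw [eval_eq_sum_range' (n := D + 1) (by omega), Finset.sum_mul]
  refine (norm_sum_le _ _).trans (Finset.sum_le_sum fun j hj => ?_)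
  rw [norm_mul]
  apply mul_le_mul_of_nonneg_left _ (norm_nonneg _)
  rw [norm_pow, Complex.norm_intCast]
  have h1 : |(a:ℝ)| = a.natAbs := by rw [Nat.cast_natAbs]; simp
  rw [h1]
  have hj' : j ≤ D := Nat.lt_succ_iff.1 (Finset.mem_range.1 hj)
  calc (a.natAbs:ℝ) ^ j ≤ (1 + a.natAbs : ℝ) ^ j := by
        apply pow_le_pow_left₀ (by positivity); linarith
    _ ≤ _ := by
        apply pow_le_pow_right₀ _ hj'
        have : (0:ℝ) ≤ a.natAbs := by positivity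
        linarith

lemma growth (N D : ℕ) (B κ : ℝ) (hB : 0 ≤ B) (hκ : 0 < κ) :
    ∀ᶠ c : ℕ in atTop, ∀ t : ℕ, 3 * N + 1 ≤ t →
      ((c:ℝ) ^ 3) ^ N * (B * (1 + t : ℝ) ^ D) ≤ κ * (c:ℝ) ^ t := by
  obtain ⟨C4, hC40, hC4⟩ := exists_pow_bound D
  have h1 : ∀ᶠ c : ℕ in atTop, B * C4 * 2 ^ (3 * N + 2) / κ ≤ (c:ℝ) :=
    tendsto_natCast_atTop_atTop.eventually_ge_atTop _
  filter_upwards [h1, eventually_ge_atTop 2] with c hc hc2 t ht
  have hc2' : (2:ℝ) ≤ c := by exact_mod_cast hc2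
  rw [div_le_iff₀ hκ] at hc
  obtain ⟨s, rfl⟩ : ∃ s, t = 3 * N + 1 + s := ⟨t - (3 * N + 1), by omega⟩
  have e1 : (1 + ((3 * N + 1 + s : ℕ):ℝ)) ^ D ≤ C4 * 2 ^ (3 * N + 2 + s) := by
    have := hC4 (3 * N + 2 + s)
    refine le_trans (le_of_eq ?_) this
    push_cast
    ring
  have e2 : ((c:ℝ) ^ 3) ^ N = (c:ℝ) ^ (3 * N) := by rw [← pow_mul]
  rw [e2]
  have e3 : (c:ℝ) ^ (3 * N + 1 + s) = (c:ℝ) ^ (3 * N) * ((c:ℝ) * (c:ℝ) ^ s) := by ring
  rw [e3]
  have e4 : (2:ℝ) ^ s ≤ (c:ℝ) ^ s := pow_le_pow_left₀ (by norm_num) hc2' s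
  have e5 : B * (1 + ((3 * N + 1 + s : ℕ):ℝ)) ^ D ≤ κ * ((c:ℝ) * (c:ℝ) ^ s) := by
    calc B * (1 + ((3 * N + 1 + s : ℕ):ℝ)) ^ D ≤ B * (C4 * 2 ^ (3 * N + 2 + s)) :=
          mul_le_mul_of_nonneg_left e1 hB
      _ = (B * C4 * 2 ^ (3 * N + 2)) * 2 ^ s := by rw [pow_add]; ring
      _ ≤ ((c:ℝ) * κ) * (c:ℝ) ^ s := by
          apply mul_le_mul hc e4 (by positivity) (by positivity)
      _ = _ := by ring
  calc (c:ℝ) ^ (3 * N) * (B * (1 + ((3 * N + 1 + s : ℕ):ℝ)) ^ D)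
      ≤ (c:ℝ) ^ (3 * N) * (κ * ((c:ℝ) * (c:ℝ) ^ s)) :=
        mul_le_mul_of_nonneg_left e5 (by positivity)
    _ = _ := by ring

/-- expansion of `Φ(x + aM) Q(a + x/M)` along the coefficients of `Φ` -/
lemma expand (Φ Q : ℂ[X]) (M : ℝ) (hM : M ≠ 0) (a : ℤ) :
    (fun n : ℤ => Φ.eval ((n:ℂ) + a * M) * Q.eval ((a:ℂ) + n / M)) =
      ∑ i ∈ Finset.range (Φ.natDegree + 1),
        (Φ.coeff i * (M:ℂ) ^ i) • (fun n : ℤ => (X ^ i * Q).eval ((a:ℂ) + n / M)) := by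
  funext n
  have hM' : (M:ℂ) ≠ 0 := by exact_mod_cast hM
  rw [Finset.sum_apply, eval_eq_sum_range, Finset.sum_mul]
  apply Finset.sum_congr rfl
  intro i _
  simp only [Pi.smul_apply, smul_eq_mul, eval_mul, eval_pow, eval_X]
  have : (n:ℂ) + a * M = M * (a + n / M) := by field_simp; ring
  rw [this, mul_pow]
  ring

lemma step (hw : Wt w) (Φ : ℂ[X]) (κ κ' : ℝ) (hκ : 0 < κ) (hκκ' : κ < κ')
    (hΦ : Bd w κ (fun n => Φ.eval (n:ℂ))) (h1 : 1 / 2 < ‖Φ.eval 1‖) (h0 : Φ.eval 0 = 0)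
    (c0 : ℕ) : ∃ c : ℕ, c0 ≤ c ∧ 2 ≤ c ∧ ∃ Φ' : ℂ[X],
      Bd (wnew w c (c ^ 3)) κ' (fun n => Φ'.eval (n:ℂ)) ∧ 1 / 2 < ‖Φ'.eval 1‖ ∧
        Φ'.eval 0 = 0 := by
  choose K hK0 hK using Bd_pw hw
  set N := Φ.natDegree with hN
  obtain ⟨P, hP0, hP⟩ := exists_P (3 * N) (N + 1)
  -- the sums of Taylor coefficients
  let S : ℂ[X] → ℤ → ℝ := fun R a =>
    ∑ j ∈ Finset.range (R.natDegree + 1), ‖(taylor (a:ℂ) R).coeff j‖ * K j
  have hS0 : ∀ R a, 0 ≤ S R a := fun R a =>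
    Finset.sum_nonneg fun j _ => mul_nonneg (norm_nonneg _) (hK0 j)
  have hBd : ∀ (R : ℂ[X]) (a : ℤ) (m : ℕ) (_ : ∀ j < m, (taylor (a:ℂ) R).coeff j = 0) (M : ℝ)
      (_ : 1 ≤ M), Bd w (S R a / M ^ m) (fun n => R.eval ((a:ℂ) + n / M)) :=
    fun R a m hm M hM => Bd_eval hw K hK0 hK R a m hm M hM
  -- polynomial bound for `S`
  let D := N + P.natDegree
  have hSbound : ∀ R : ℂ[X], R.natDegree ≤ D → ∃ B : ℝ, 0 ≤ B ∧
      ∀ a : ℤ, S R a ≤ B * (1 + a.natAbs : ℝ) ^ D := by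
    intro R hR
    have : ∀ j : ℕ, ∃ B : ℝ, 0 ≤ B ∧ ∀ a : ℤ, ‖(taylor (a:ℂ) R).coeff j‖ ≤
        B * (1 + a.natAbs : ℝ) ^ D := by
      intro j
      obtain ⟨B, hB, hB'⟩ := eval_bound (hasseDeriv j R) D
        ((natDegree_hasseDeriv_le R j).trans (by omega))
      refine ⟨B, hB, fun a => ?_⟩
      rw [taylor_coeff]
      exact hB' a
    choose B hB0 hB using this
    refine ⟨∑ j ∈ Finset.range (R.natDegree + 1), B j * K j,
      Finset.sum_nonneg fun j _ => mul_nonneg (hB0 j) (hK0 j), fun a => ?_⟩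
    rw [Finset.sum_mul]
    apply Finset.sum_le_sum
    intro j _
    have := mul_le_mul_of_nonneg_right (hB j a) (hK0 j)
    calc _ ≤ _ := this
      _ = _ := by ring
  have hdeg : ∀ i ∈ Finset.range (N + 1), ((X : ℂ[X]) ^ i * P).natDegree ≤ D := by
    intro i hi
    have hi' : i ≤ N := Nat.lt_succ_iff.1 (Finset.mem_range.1 hi)
    refine natDegree_mul_le.trans ?_
    have := natDegree_X_pow_le (R := ℂ) i
    omega
  -- constants
  have hB2 : ∃ B2 : ℝ, 0 ≤ B2 ∧ ∀ a : ℤ, ∑ i ∈ Finset.range (N + 1),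
      ‖Φ.coeff i‖ * S (X ^ i * P) a ≤ B2 * (1 + a.natAbs : ℝ) ^ D := by
    have : ∀ i : ℕ, ∃ B : ℝ, 0 ≤ B ∧ (i ∈ Finset.range (N + 1) →
        ∀ a : ℤ, S (X ^ i * P) a ≤ B * (1 + a.natAbs : ℝ) ^ D) := by
      intro i
      by_cases hi : i ∈ Finset.range (N + 1)
      · obtain ⟨B, hB, hB'⟩ := hSbound _ (hdeg i hi)
        exact ⟨B, hB, fun _ => hB'⟩
      · exact ⟨0, le_rfl, fun h => absurd h hi⟩
    choose B hB0 hB using this
    refine ⟨∑ i ∈ Finset.range (N + 1), ‖Φ.coeff i‖ * B i,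
      Finset.sum_nonneg fun j _ => mul_nonneg (norm_nonneg _) (hB0 j), fun a => ?_⟩
    rw [Finset.sum_mul]
    apply Finset.sum_le_sum
    intro i hi
    have := mul_le_mul_of_nonneg_left (hB i hi a) (norm_nonneg (Φ.coeff i))
    calc _ ≤ _ := this
      _ = _ := by ring
  obtain ⟨B2, hB20, hB2⟩ := hB2
  let C1 : ℝ := ∑ a ∈ Finset.Icc (-(3 * N : ℤ)) (3 * N), ∑ i ∈ Finset.range (N + 1),
      ‖Φ.coeff i‖ * S (X ^ i * P) a
  let C3 : ℝ := ∑ i ∈ Finset.range (N + 1), ‖Φ.coeff i‖ * S (X ^ i * (P - 1)) 0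
  have hκ' : 0 < κ' := hκ.trans hκκ'
  -- choice of `c`
  have ev1 : ∀ᶠ c : ℕ in atTop, C1 / κ' ≤ (c:ℝ) :=
    tendsto_natCast_atTop_atTop.eventually_ge_atTop _
  have ev3 : ∀ᶠ c : ℕ in atTop, C3 / (κ' - κ) ≤ (c:ℝ) :=
    tendsto_natCast_atTop_atTop.eventually_ge_atTop _
  have ev2 := growth N D B2 κ' hB20 hκ'
  have ev4 : ∀ᶠ c : ℕ in atTop, 1 / 2 < ‖Φ.eval 1 * P.eval (1 / ((c:ℂ) ^ 3))‖ := by
    have hlim : Tendsto (fun c : ℕ => ‖Φ.eval 1 * P.eval (1 / ((c:ℂ) ^ 3))‖) atTop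
        (𝓝 ‖Φ.eval 1 * P.eval 0‖) := by
      apply Tendsto.norm
      apply Tendsto.const_mul
      have hc : Continuous fun z : ℂ => P.eval z := P.continuous
      have h2 : Tendsto (fun c : ℕ => 1 / ((c:ℂ) ^ 3)) atTop (𝓝 0) := by
        have h3 : Tendsto (fun c : ℕ => (1 / (c:ℂ)) ^ 3) atTop (𝓝 (0 ^ 3)) :=
          (tendsto_one_div_atTop_nhds_zero_nat (𝕜 := ℂ)).pow 3
        simpa [one_div, inv_pow] using h3
      exact (hc.tendsto 0).comp h2
    rw [hP0, mul_one] at hlim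
    exact hlim.eventually (lt_mem_nhds h1)
  obtain ⟨c, hc0, hc2, hcC1, hcC3, hgr, hev⟩ :=
    ((eventually_ge_atTop c0).and ((eventually_ge_atTop 2).and
      (ev1.and (ev3.and (ev2.and ev4))))).exists
  refine ⟨c, hc0, hc2, Φ * P.comp (C (1 / ((c:ℂ) ^ 3)) * X), ?_, ?_, ?_⟩
  swap
  · simpa [eval_comp] using hev
  swap
  · simp [h0]
  have hc1 : (1:ℝ) ≤ c := by exact_mod_cast (by omega : 1 ≤ c)
  have hcpos : (0:ℝ) < c := by linarith
  set M : ℝ := (c:ℝ) ^ 3 with hMdef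
  have hM1 : 1 ≤ M := one_le_pow₀ hc1
  have hM0 : 0 < M := by linarith
  have hMc : (c:ℝ) ≤ M := by
    calc (c:ℝ) = (c:ℝ) ^ 1 := by ring
      _ ≤ (c:ℝ) ^ 3 := pow_le_pow_right₀ hc1 (by norm_num)
  apply Bd_wnew hκ'
  intro a
  have hMcast : ((c ^ 3 : ℕ) : ℤ) = ((c:ℤ) ^ 3) := by push_cast; ring
  have hfun : (fun n : ℤ => (Φ * P.comp (C (1 / ((c:ℂ) ^ 3)) * X)).eval
      ((n + a * ((c ^ 3 : ℕ) : ℤ) : ℤ) : ℂ)) =
      (fun n : ℤ => Φ.eval ((n:ℂ) + a * M) * P.eval ((a:ℂ) + n / M)) := by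
    funext n
    have hc3 : ((c:ℂ) ^ 3) ≠ 0 := by
      have : (c:ℂ) ≠ 0 := by
        have := hcpos.ne'
        exact_mod_cast this
      exact pow_ne_zero _ this
    simp only [eval_mul, eval_comp, eval_C, eval_X]
    congr 2
    · rw [hMdef]; push_cast; ring
    · rw [hMdef]; push_cast
      rw [mul_add, one_div, add_comm]
      congr 1
      · rw [mul_comm, mul_assoc, mul_inv_cancel₀ hc3, mul_one]
      · rw [mul_comm, div_eq_mul_inv]
  rw [hfun]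
  have hc1a : (1:ℝ) ≤ (c:ℝ) ^ a.natAbs := one_le_pow₀ hc1
  have hcoef : ∀ i, ‖Φ.coeff i * (M:ℂ) ^ i‖ = ‖Φ.coeff i‖ * M ^ i := by
    intro i
    rw [norm_mul, norm_pow, Complex.norm_real, Real.norm_of_nonneg hM0.le]
  rcases eq_or_ne a 0 with ha | ha
  · -- a = 0
    subst ha
    have hsplit : (fun n : ℤ => Φ.eval ((n:ℂ) + (0:ℤ) * M) * P.eval (((0:ℤ):ℂ) + n / M)) =
        (fun n : ℤ => Φ.eval (n:ℂ)) +
        (fun n : ℤ => Φ.eval ((n:ℂ) + (0:ℤ) * M) * (P - 1).eval (((0:ℤ):ℂ) + n / M)) := by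
      funext n
      simp [mul_sub]
    rw [hsplit, expand Φ (P - 1) M hM0.ne' 0]
    have hb := Bd.sum hw.nonneg (Finset.range (Φ.natDegree + 1))
      (fun i => ‖Φ.coeff i * (M:ℂ) ^ i‖ * (S (X ^ i * (P - 1)) 0 / M ^ (i + 1)))
      (fun i => (Φ.coeff i * (M:ℂ) ^ i) •
        (fun n : ℤ => (X ^ i * (P - 1)).eval (((0:ℤ):ℂ) + n / M)))
      (fun i _ => Bd.smul _ (hBd _ 0 (i + 1) (by
        intro j hj
        apply taylor_coeff_eq_zero_of_dvd _ hj
        have h2 : (X : ℂ[X]) ∣ P - 1 := by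
          rw [X_dvd_iff, coeff_zero_eq_eval_zero]
          simp [hP0]
        simp only [Int.cast_zero, map_zero, sub_zero]
        rw [pow_succ]
        exact mul_dvd_mul_left _ h2) M hM1))
    apply Bd.mono hw.nonneg _ (Bd.add hΦ hb)
    have hsum : ∑ i ∈ Finset.range (Φ.natDegree + 1),
        ‖Φ.coeff i * (M:ℂ) ^ i‖ * (S (X ^ i * (P - 1)) 0 / M ^ (i + 1)) = C3 / M := by
      rw [Finset.sum_div]
      apply Finset.sum_congr rfl
      intro i _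
      rw [hcoef]
      field_simp
      ring
    rw [hsum]
    have h3 : C3 / M ≤ κ' - κ := by
      rw [div_le_iff₀ hM0]
      rw [div_le_iff₀ (by linarith)] at hcC3
      calc C3 ≤ _ := hcC3
        _ = (κ' - κ) * c := by ring
        _ ≤ (κ' - κ) * M := mul_le_mul_of_nonneg_left hMc (by linarith)
    simp only [Int.natAbs_zero, pow_zero, mul_one]
    linarith
  · rw [expand Φ P M hM0.ne' a]
    rcases le_or_gt a.natAbs (3 * N) with haA | haA
    · -- 0 < |a| ≤ 3N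
      have hb := Bd.sum hw.nonneg (Finset.range (Φ.natDegree + 1))
        (fun i => ‖Φ.coeff i * (M:ℂ) ^ i‖ * (S (X ^ i * P) a / M ^ (N + 1)))
        (fun i => (Φ.coeff i * (M:ℂ) ^ i) •
          (fun n : ℤ => (X ^ i * P).eval ((a:ℂ) + n / M)))
        (fun i _ => Bd.smul _ (hBd _ a (N + 1) (by
          intro j hj
          apply taylor_coeff_eq_zero_of_dvd _ hj
          exact dvd_mul_of_dvd_right (hP a ha haA) _) M hM1))
      apply Bd.mono hw.nonneg _ hb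
      have hle : ∑ i ∈ Finset.range (Φ.natDegree + 1),
          ‖Φ.coeff i * (M:ℂ) ^ i‖ * (S (X ^ i * P) a / M ^ (N + 1)) ≤
          (∑ i ∈ Finset.range (N + 1), ‖Φ.coeff i‖ * S (X ^ i * P) a) / M := by
        rw [Finset.sum_div]
        apply Finset.sum_le_sum
        intro i hi
        have hi' : i ≤ N := Nat.lt_succ_iff.1 (Finset.mem_range.1 hi)
        rw [hcoef, mul_assoc, mul_div_assoc]
        apply mul_le_mul_of_nonneg_left _ (norm_nonneg _)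
        have h5 : M ^ i ≤ M ^ N := pow_le_pow_right₀ hM1 hi'
        calc M ^ i * (S (X ^ i * P) a / M ^ (N + 1)) ≤
              M ^ N * (S (X ^ i * P) a / M ^ (N + 1)) :=
              mul_le_mul_of_nonneg_right h5 (div_nonneg (hS0 _ _) (by positivity))
          _ = _ := by field_simp; ring
      have hC1 : ∑ i ∈ Finset.range (N + 1), ‖Φ.coeff i‖ * S (X ^ i * P) a ≤ C1 := by
        have hmem : a ∈ Finset.Icc (-(3 * N : ℤ)) (3 * N) := by
          rw [Finset.mem_Icc]; constructor <;> omega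
        exact Finset.single_le_sum (f := fun a : ℤ => ∑ i ∈ Finset.range (N + 1),
          ‖Φ.coeff i‖ * S (X ^ i * P) a)
          (fun b _ => Finset.sum_nonneg fun i _ => mul_nonneg (norm_nonneg _) (hS0 _ _)) hmem
      have h6 : C1 / M ≤ κ' := by
        rw [div_le_iff₀ hM0]
        rw [div_le_iff₀ hκ'] at hcC1
        nlinarith
      calc _ ≤ _ := hle
        _ ≤ C1 / M := div_le_div_of_nonneg_right hC1 hM0.le
        _ ≤ κ' := h6
        _ = κ' * 1 := by ring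
        _ ≤ κ' * (c:ℝ) ^ a.natAbs := mul_le_mul_of_nonneg_left hc1a hκ'.le
    · -- |a| > 3N
      have hb := Bd.sum hw.nonneg (Finset.range (Φ.natDegree + 1))
        (fun i => ‖Φ.coeff i * (M:ℂ) ^ i‖ * (S (X ^ i * P) a / M ^ 0))
        (fun i => (Φ.coeff i * (M:ℂ) ^ i) •
          (fun n : ℤ => (X ^ i * P).eval ((a:ℂ) + n / M)))
        (fun i _ => Bd.smul _ (hBd _ a 0 (by intro j hj; omega) M hM1))
      apply Bd.mono hw.nonneg _ hb
      have hle : ∑ i ∈ Finset.range (Φ.natDegree + 1),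
          ‖Φ.coeff i * (M:ℂ) ^ i‖ * (S (X ^ i * P) a / M ^ 0) ≤
          M ^ N * (∑ i ∈ Finset.range (N + 1), ‖Φ.coeff i‖ * S (X ^ i * P) a) := by
        rw [Finset.mul_sum]
        apply Finset.sum_le_sum
        intro i hi
        have hi' : i ≤ N := Nat.lt_succ_iff.1 (Finset.mem_range.1 hi)
        rw [hcoef, pow_zero, div_one]
        have h5 : M ^ i ≤ M ^ N := pow_le_pow_right₀ hM1 hi'
        calc ‖Φ.coeff i‖ * M ^ i * S (X ^ i * P) a = M ^ i * (‖Φ.coeff i‖ * S (X ^ i * P) a) := by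
              ring
          _ ≤ M ^ N * (‖Φ.coeff i‖ * S (X ^ i * P) a) :=
              mul_le_mul_of_nonneg_right h5 (mul_nonneg (norm_nonneg _) (hS0 _ _))
      calc _ ≤ _ := hle
        _ ≤ M ^ N * (B2 * (1 + a.natAbs : ℝ) ^ D) :=
            mul_le_mul_of_nonneg_left (hB2 a) (by positivity)
        _ ≤ _ := hgr a.natAbs haA


/-- the initial weight `2 ^ |n|` -/
lemma wt_init : Wt (fun n : ℤ => (2:ℝ) ^ n.natAbs) := by
  refine ⟨fun n => one_le_pow₀ (by norm_num), by simp, fun m n => ?_, fun i => ?_⟩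
  · rw [← pow_add]
    exact pow_le_pow_right₀ (by norm_num) (Int.natAbs_add_le m n)
  · obtain ⟨C, -, hC⟩ := exists_pow_bound i
    refine ⟨C, fun n => ?_⟩
    have h1 : |(n:ℝ)| = n.natAbs := by rw [Nat.cast_natAbs]; simp
    rw [h1]
    exact hC n.natAbs

/-- the bounds along the construction -/
noncomputable def kap (K : ℝ) (j : ℕ) : ℝ := K + 2 - 1 / ((j:ℝ) + 1)

lemma kap_pos {K : ℝ} (hK : 0 ≤ K) (j : ℕ) : 0 < kap K j := by
  unfold kap
  have : 1 / ((j:ℝ) + 1) ≤ 1 := by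
    rw [div_le_one (by positivity)]
    have : (0:ℝ) ≤ j := by positivity
    linarith
  linarith

lemma kap_lt (K : ℝ) (j : ℕ) : kap K j < kap K (j + 1) := by
  unfold kap
  have : 1 / (((j + 1 : ℕ):ℝ) + 1) < 1 / ((j:ℝ) + 1) := by
    apply one_div_lt_one_div_of_lt (by positivity)
    push_cast; linarith
  linarith

lemma kap_le (K : ℝ) (j : ℕ) : kap K j ≤ K + 2 := by
  unfold kap
  have : 0 ≤ 1 / ((j:ℝ) + 1) := by positivity
  linarith

/-- the properties preserved along the construction -/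
def Good (K : ℝ) (j : ℕ) (p : (ℤ → ℝ) × ℂ[X]) : Prop :=
  Wt p.1 ∧ Bd p.1 (kap K j) (fun n => p.2.eval (n:ℂ)) ∧ 1 / 2 < ‖p.2.eval 1‖ ∧ p.2.eval 0 = 0

lemma good_step {K : ℝ} (hK : 0 ≤ K) (j : ℕ) (p : {p : (ℤ → ℝ) × ℂ[X] // Good K j p}) :
    ∃ q : {q : (ℤ → ℝ) × ℂ[X] // Good K (j + 1) q}, ∃ c : ℕ, j ≤ c ∧ 2 ≤ c ∧
      q.1.1 = wnew p.1.1 c (c ^ 3) := by
  obtain ⟨⟨w, Φ⟩, hw, hB, h1, h0⟩ := p
  obtain ⟨c, hc0, hc2, Φ', hB', h1', h0'⟩ := step hw Φ (kap K j) (kap K (j + 1)) (kap_pos hK j)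
    (kap_lt K j) hB h1 h0 j
  exact ⟨⟨(wnew w c (c ^ 3), Φ'), hw.wnew hc2 _, hB', h1', h0'⟩, c, hc0, hc2, rfl⟩

theorem exists_weight : ∃ (w : ℤ → ℝ) (Ψ : ℤ → ℂ) (κ : ℝ), (∀ n, 1 ≤ w n) ∧ w 0 = 1 ∧
    (∀ m n, w (m + n) ≤ w m * w n) ∧
    (∀ j : ℕ, ∃ M : ℕ, 0 < M ∧ (j:ℝ) * (w M * w (-M)) ≤ M) ∧
    (∀ (n : ℤ) (k : ℕ), ‖dk k Ψ n‖ * (k.factorial : ℝ) ≤ κ * w n) ∧ Ψ 0 = 0 ∧ Ψ 1 ≠ 0 := by
  obtain ⟨K, hK, hKB⟩ := Bd_pw wt_init 1
  have hinit : Good K 0 ((fun n : ℤ => (2:ℝ) ^ n.natAbs), X) := by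
    refine ⟨wt_init, ?_, ?_, ?_⟩
    · have : (fun n : ℤ => (X : ℂ[X]).eval (n:ℂ)) = pw 1 := by
        funext n; simp [pw]
      rw [this]
      apply Bd.mono wt_init.nonneg _ hKB
      unfold kap; norm_num
      linarith
    · norm_num
    · simp
  choose nxt hnxt using fun j p => good_step hK j p
  let s : ∀ j : ℕ, {p : (ℤ → ℝ) × ℂ[X] // Good K j p} :=
    fun j => Nat.rec ⟨_, hinit⟩ (fun j p => nxt j p) j
  have hs : ∀ j, s (j + 1) = nxt j (s j) := fun j => rfl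
  let w : ℕ → ℤ → ℝ := fun j => (s j).1.1
  let Φ : ℕ → ℂ[X] := fun j => (s j).1.2
  have hwt : ∀ j, Wt (w j) := fun j => (s j).2.1
  have hBd : ∀ j, Bd (w j) (K + 2) (fun n => (Φ j).eval (n:ℂ)) := fun j =>
    Bd.mono (hwt j).nonneg (kap_le K j) (s j).2.2.1
  have hΦ1 : ∀ j, 1 / 2 < ‖(Φ j).eval 1‖ := fun j => (s j).2.2.2.1
  have hΦ0 : ∀ j, (Φ j).eval 0 = 0 := fun j => (s j).2.2.2.2
  have hnew : ∀ j, ∃ c : ℕ, j ≤ c ∧ 2 ≤ c ∧ w (j + 1) = wnew (w j) c (c ^ 3) := by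
    intro j
    obtain ⟨c, h1, h2, h3⟩ := hnxt j (s j)
    exact ⟨c, h1, h2, by rw [← h3]⟩
  have hanti : ∀ n, Antitone (fun j => w j n) := by
    intro n
    apply antitone_nat_of_succ_le
    intro j
    obtain ⟨c, -, -, hc⟩ := hnew j
    rw [hc]
    exact wnew_le_self (hwt j) c _ n
  have hbdd : ∀ n, BddBelow (Set.range fun j => w j n) := by
    intro n
    exact ⟨1, by rintro _ ⟨j, rfl⟩; exact (hwt j).one_le n⟩
  -- the limit weight
  let W : ℤ → ℝ := fun n => ⨅ j, w j n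
  have hWlim : ∀ n, Tendsto (fun j => w j n) atTop (𝓝 (W n)) := fun n =>
    tendsto_atTop_ciInf (hanti n) (hbdd n)
  have hWle : ∀ j n, W n ≤ w j n := fun j n => ciInf_le (hbdd n) j
  -- the limit function
  have hlimex : ∀ n : ℤ, ∃ z : ℂ, Tendsto (fun j => (Φ j).eval (n:ℂ)) (hyperfilter ℕ : Filter ℕ)
      (𝓝 z) := by
    intro n
    have hmem : ∀ j, (Φ j).eval (n:ℂ) ∈ Metric.closedBall (0:ℂ) ((K + 2) * w 0 n) := by
      intro j
      rw [mem_closedBall_zero_iff]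
      have h1 := hBd j n 0
      simp only [dk, Function.iterate_zero, id_eq, Nat.factorial_zero, Nat.cast_one,
        mul_one] at h1
      exact h1.trans (mul_le_mul_of_nonneg_left (hanti n (Nat.zero_le j)) (by linarith))
    have hcomp : IsCompact (Metric.closedBall (0:ℂ) ((K + 2) * w 0 n)) :=
      isCompact_closedBall _ _
    obtain ⟨z, -, hz⟩ := hcomp.ultrafilter_le_nhds
      ((hyperfilter ℕ).map (fun j => (Φ j).eval (n:ℂ))) (by
        rw [Ultrafilter.coe_map, le_principal_iff, mem_map]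
        exact Filter.univ_mem' hmem)
    exact ⟨z, hz⟩
  choose Ψ hΨ using hlimex
  refine ⟨W, Ψ, K + 2, ?_, ?_, ?_, ?_, ?_, ?_, ?_⟩
  · intro n
    exact ge_of_tendsto' (hWlim n) fun j => (hwt j).one_le n
  · have : (fun j => w j 0) = fun _ => (1:ℝ) := by funext j; exact (hwt j).zero
    have h := hWlim 0
    rw [this] at h
    exact tendsto_nhds_unique h tendsto_const_nhds
  · intro m n
    exact le_of_tendsto_of_tendsto' (hWlim (m + n)) ((hWlim m).mul (hWlim n))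
      fun j => (hwt j).mul m n
  · intro j
    obtain ⟨c, hjc, hc2, hc⟩ := hnew j
    refine ⟨c ^ 3, by positivity, ?_⟩
    have hc1 : (1:ℝ) ≤ c := by exact_mod_cast (by omega : 1 ≤ c)
    have h1 : W ((c ^ 3 : ℕ) : ℤ) ≤ c := by
      refine (hWle (j + 1) _).trans ?_
      rw [hc]
      have := wnew_le (hwt j) c (c ^ 3) ((c ^ 3 : ℕ) : ℤ) 1
      simpa [(hwt j).zero] using this
    have h2 : W (-((c ^ 3 : ℕ) : ℤ)) ≤ c := by
      refine (hWle (j + 1) _).trans ?_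
      rw [hc]
      have := wnew_le (hwt j) c (c ^ 3) (-((c ^ 3 : ℕ) : ℤ)) (-1)
      simpa [(hwt j).zero] using this
    have h3 : 0 ≤ W (-((c ^ 3 : ℕ) : ℤ)) :=
      le_trans zero_le_one (ge_of_tendsto' (hWlim _) fun j => (hwt j).one_le _)
    have hj : (j:ℝ) ≤ c := by exact_mod_cast hjc
    calc (j:ℝ) * (W ((c ^ 3 : ℕ) : ℤ) * W (-((c ^ 3 : ℕ) : ℤ))) ≤ c * (c * c) := by
          apply mul_le_mul hj (mul_le_mul h1 h2 h3 (by positivity)) _ (by positivity)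
          have h4 : 0 ≤ W ((c ^ 3 : ℕ) : ℤ) :=
            le_trans zero_le_one (ge_of_tendsto' (hWlim _) fun j => (hwt j).one_le _)
          positivity
      _ = ((c ^ 3 : ℕ) : ℝ) := by push_cast; ring
  · intro n k
    have h1 : Tendsto (fun j => dk k (fun n : ℤ => (Φ j).eval (n:ℂ)) n)
        (hyperfilter ℕ : Filter ℕ) (𝓝 (dk k Ψ n)) := by
      simp only [dk_eq_sum]
      apply tendsto_finsetSum
      intro i _
      simp only [zsmul_eq_mul]
      exact (hΨ (n + i)).const_mul _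
    have h2 : Tendsto (fun j => w j n) (hyperfilter ℕ : Filter ℕ) (𝓝 (W n)) := by
      have h3 : (hyperfilter ℕ : Filter ℕ) ≤ atTop := by
        rw [← Nat.cofinite_eq_atTop]
        exact hyperfilter_le_cofinite
      exact (hWlim n).mono_left h3
    exact le_of_tendsto_of_tendsto' (h1.norm.mul_const _) (h2.const_mul _) fun j => hBd j n k
  · have h1 := hΨ 0
    have h2 : (fun j => (Φ j).eval (((0:ℤ)):ℂ)) = fun _ => (0:ℂ) := by
      funext j
      simpa using hΦ0 j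
    rw [h2] at h1
    exact tendsto_nhds_unique h1 tendsto_const_nhds
  · intro h
    have h1 := (hΨ 1).norm
    rw [h, norm_zero] at h1
    have h2 : (1:ℝ) / 2 ≤ 0 := ge_of_tendsto' h1 fun j => by
      have := hΦ1 j
      simpa using this.le
    norm_num at h2

end Pool.Agent.H52.BW
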