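import Mathlib

open Filter Topology UniformSpace

namespace Pool.Agent.H52.NA

/-- A monoid of generators of an algebra together with a submultiplicative size function. -/
structure Dat (R : Type) [CommRing R] [Algebra ℂ R] (Γ : Type) [CommMonoid Γ] where
  ι : Γ →* R
  N : Γ → ℝ
  pos : ∀ g, 0 < N g
  one : N 1 = 1
  mul : ∀ g h, N (g * h) ≤ N g * N h
  span : Submodule.span ℂ (Set.range ι) = ⊤

variable {R : Type} [CommRing R] [Algebra ℂ R] {Γ : Type} [CommMonoid Γ] (D : Dat R Γ)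

namespace Dat

/-- the functionals bounded by the size function on the generators -/
def Y : Set (R →ₗ[ℂ] ℂ) := {ψ | ∀ g, ‖ψ (D.ι g)‖ ≤ D.N g}

lemma bdd (f : R) : ∃ C : ℝ, ∀ ψ ∈ D.Y, ‖ψ f‖ ≤ C := by
  have hf : f ∈ Submodule.span ℂ (Set.range D.ι) := D.span ▸ Submodule.mem_top
  induction hf using Submodule.span_induction with
  | mem x hx =>
    obtain ⟨g, rfl⟩ := hx
    exact ⟨D.N g, fun ψ hψ => hψ g⟩
  | zero => exact ⟨0, fun ψ _ => by simp⟩
  | add x y _ _ hx hy =>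
    obtain ⟨C1, h1⟩ := hx
    obtain ⟨C2, h2⟩ := hy
    refine ⟨C1 + C2, fun ψ hψ => ?_⟩
    rw [map_add]
    exact (norm_add_le _ _).trans (add_le_add (h1 ψ hψ) (h2 ψ hψ))
  | smul c x _ hx =>
    obtain ⟨C, h⟩ := hx
    refine ⟨‖c‖ * C, fun ψ hψ => ?_⟩
    rw [map_smul, norm_smul]
    exact mul_le_mul_of_nonneg_left (h ψ hψ) (norm_nonneg _)

lemma zero_mem : (0 : R →ₗ[ℂ] ℂ) ∈ D.Y := fun g => by simpa using (D.pos g).le

instance : Nonempty D.Y := ⟨⟨0, D.zero_mem⟩⟩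

/-- the largest seminorm bounded by the size function on the generators -/
noncomputable def nrm (f : R) : ℝ := ⨆ ψ : D.Y, ‖(ψ : R →ₗ[ℂ] ℂ) f‖

lemma le_nrm {ψ : R →ₗ[ℂ] ℂ} (hψ : ψ ∈ D.Y) (f : R) : ‖ψ f‖ ≤ D.nrm f := by
  obtain ⟨C, hC⟩ := D.bdd f
  exact le_ciSup (f := fun ψ : D.Y => ‖(ψ : R →ₗ[ℂ] ℂ) f‖)
    ⟨C, by rintro _ ⟨ψ, rfl⟩; exact hC ψ.1 ψ.2⟩ ⟨ψ, hψ⟩

lemma nrm_le {f : R} {C : ℝ} (h : ∀ ψ ∈ D.Y, ‖ψ f‖ ≤ C) : D.nrm f ≤ C :=
  ciSup_le fun ψ => h ψ.1 ψ.2

lemma nrm_nonneg (f : R) : 0 ≤ D.nrm f := (norm_nonneg _).trans (D.le_nrm D.zero_mem f)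

lemma nrm_gen_le (g : Γ) : D.nrm (D.ι g) ≤ D.N g := D.nrm_le fun _ hψ => hψ g

lemma nrm_zero : D.nrm 0 = 0 := le_antisymm (D.nrm_le fun ψ _ => by simp) (D.nrm_nonneg 0)

lemma nrm_add (f g : R) : D.nrm (f + g) ≤ D.nrm f + D.nrm g := by
  apply D.nrm_le
  intro ψ hψ
  rw [map_add]
  exact (norm_add_le _ _).trans (add_le_add (D.le_nrm hψ f) (D.le_nrm hψ g))

lemma nrm_neg (f : R) : D.nrm (-f) = D.nrm f := by
  unfold nrm
  simp

lemma nrm_smul_le (c : ℂ) (f : R) : D.nrm (c • f) ≤ ‖c‖ * D.nrm f := by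
  apply D.nrm_le
  intro ψ hψ
  rw [map_smul, norm_smul]
  exact mul_le_mul_of_nonneg_left (D.le_nrm hψ f) (norm_nonneg _)

lemma scale_pos {ψ : R →ₗ[ℂ] ℂ} {C : ℝ} (hC : 0 < C) (h : ∀ g, ‖ψ (D.ι g)‖ ≤ C * D.N g)
    (f : R) : ‖ψ f‖ ≤ C * D.nrm f := by
  have hmem : ((C:ℂ)⁻¹ • ψ) ∈ D.Y := by
    intro g
    rw [LinearMap.smul_apply, norm_smul, norm_inv, Complex.norm_real, Real.norm_of_nonneg hC.le,
      inv_mul_le_iff₀ hC]
    exact h g
  have := D.le_nrm hmem f
  rwa [LinearMap.smul_apply, norm_smul, norm_inv, Complex.norm_real, Real.norm_of_nonneg hC.le,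
      inv_mul_le_iff₀ hC] at this

lemma scale {ψ : R →ₗ[ℂ] ℂ} {C : ℝ} (hC : 0 ≤ C) (h : ∀ g, ‖ψ (D.ι g)‖ ≤ C * D.N g)
    (f : R) : ‖ψ f‖ ≤ C * D.nrm f := by
  apply le_of_forall_pos_le_add
  intro δ hδ
  have hn := D.nrm_nonneg f
  have hε : 0 < δ / (D.nrm f + 1) := by positivity
  have h1 := D.scale_pos (ψ := ψ) (C := C + δ / (D.nrm f + 1)) (by positivity) (fun g => by
    refine (h g).trans ?_
    apply mul_le_mul_of_nonneg_right _ (D.pos g).le
    linarith) f
  refine h1.trans ?_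
  have h2 : δ / (D.nrm f + 1) * D.nrm f ≤ δ := by
    rw [div_mul_eq_mul_div, div_le_iff₀ (by positivity)]
    nlinarith
  linarith

lemma nrm_mul (f g : R) : D.nrm (f * g) ≤ D.nrm f * D.nrm g := by
  apply D.nrm_le
  intro ψ hψ
  -- first multiply by a generator
  have step1 : ∀ γ : Γ, ‖ψ (f * D.ι γ)‖ ≤ D.nrm f * D.N γ := by
    intro γ
    have := D.scale (ψ := ψ.comp (LinearMap.mulRight ℂ (D.ι γ))) (D.pos γ).le (fun γ' => by
      rw [LinearMap.comp_apply, LinearMap.mulRight_apply, ← map_mul]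
      refine (hψ _).trans ((D.mul γ' γ).trans (le_of_eq (mul_comm _ _)))) f
    rw [LinearMap.comp_apply, LinearMap.mulRight_apply] at this
    rwa [mul_comm (D.nrm f)]
  have := D.scale (ψ := ψ.comp (LinearMap.mulLeft ℂ f)) (D.nrm_nonneg f) (fun γ => by
    rw [LinearMap.comp_apply, LinearMap.mulLeft_apply]
    exact step1 γ) g
  rwa [LinearMap.comp_apply, LinearMap.mulLeft_apply] at this

/-- the ring seminorm -/
noncomputable def rs : RingSeminorm R where
  toFun := D.nrm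
  map_zero' := D.nrm_zero
  add_le' := D.nrm_add
  neg' := D.nrm_neg
  mul_le' := D.nrm_mul

/-- the algebra with its seminorm -/
@[nolint unusedArguments]
def Alg (_ : Dat R Γ) : Type := R

noncomputable instance : SeminormedCommRing D.Alg :=
  { (D.rs.toSeminormedRing : SeminormedRing R) with
    mul_comm := fun a b => mul_comm (G := R) a b }

noncomputable instance : NormedAlgebra ℂ D.Alg :=
  { (‹Algebra ℂ R› : Algebra ℂ R) with
    norm_smul_le := fun c f => by exact D.nrm_smul_le c f }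

lemma norm_def (f : R) : ‖(show D.Alg from f)‖ = D.nrm f := rfl

/-- the associated commutative Banach algebra -/
abbrev Comp : Type := Completion D.Alg



/-- the identity map into the seminormed algebra -/
noncomputable def toAlg : R →ₐ[ℂ] D.Alg :=
  { toFun := fun f => f
    map_one' := rfl
    map_mul' := fun _ _ => rfl
    map_zero' := rfl
    map_add' := fun _ _ => rfl
    commutes' := fun _ => rfl }

lemma norm_toAlg (f : R) : ‖D.toAlg f‖ = D.nrm f := rfl

lemma toAlg_surj (a : D.Alg) : ∃ f : R, D.toAlg f = a := ⟨a, rfl⟩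

/-- the canonical map into the Banach algebra -/
noncomputable def inc : R →ₐ[ℂ] D.Comp :=
  { (Completion.coeRingHom (α := D.Alg)).comp D.toAlg.toRingHom with
    commutes' := fun c => by
      rw [Completion.algebraMap_def]
      rfl }

lemma inc_apply (f : R) : D.inc f = ((D.toAlg f : D.Alg) : D.Comp) := rfl

lemma norm_inc (f : R) : ‖D.inc f‖ = D.nrm f := by
  rw [inc_apply, Completion.norm_coe, norm_toAlg]

lemma denseRange_inc : DenseRange D.inc := by
  have h : DenseRange ((↑) : D.Alg → D.Comp) := Completion.denseRange_coe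
  intro x
  refine closure_mono ?_ (h x)
  rintro _ ⟨a, rfl⟩
  obtain ⟨f, rfl⟩ := D.toAlg_surj a
  exact ⟨f, rfl⟩

lemma exists_close (a : D.Comp) {ε : ℝ} (hε : 0 < ε) : ∃ f : R, ‖a - D.inc f‖ < ε := by
  obtain ⟨f, hf⟩ := D.denseRange_inc.exists_dist_lt a hε
  exact ⟨f, by rwa [← dist_eq_norm]⟩

section lift

variable {E : Type} [NormedCommRing E] [NormedAlgebra ℂ E] [CompleteSpace E]
  (F : R →ₐ[ℂ] E) (C : ℝ) (hF : ∀ f, ‖F f‖ ≤ C * D.nrm f)

/-- a homomorphism, seen on the seminormed algebra -/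
noncomputable def castHom : D.Alg →ₐ[ℂ] E :=
  { toFun := fun f => F f
    map_one' := F.map_one
    map_mul' := fun f g => F.map_mul f g
    map_zero' := F.map_zero
    map_add' := fun f g => F.map_add f g
    commutes' := fun c => F.commutes c }

omit [CompleteSpace E] in
lemma castHom_toAlg (f : R) : D.castHom F (D.toAlg f) = F f := rfl

omit [CompleteSpace E] in
include hF in
lemma lift_cont : Continuous (D.castHom F : D.Alg →+* E) :=
  AddMonoidHomClass.continuous_of_bound (D.castHom F) C hF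

/-- extension of bounded algebra homomorphisms to the Banach algebra -/
noncomputable def lift : D.Comp →ₐ[ℂ] E :=
  { Completion.extensionHom (D.castHom F : D.Alg →+* E) (D.lift_cont F C hF) with
    commutes' := fun c => by
      rw [Completion.algebraMap_def]
      refine (Completion.extensionHom_coe _ _ _).trans ?_
      exact F.commutes c }

lemma lift_inc (f : R) : D.lift F C hF (D.inc f) = F f :=
  Completion.extensionHom_coe (D.castHom F : D.Alg →+* E) (D.lift_cont F C hF) (D.toAlg f)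

lemma continuous_lift : Continuous (D.lift F C hF) := Completion.continuous_extension

end lift

/-- extension of functionals -/
lemma exists_ext (ψ : R →ₗ[ℂ] ℂ) (C : ℝ) (hψ : ∀ f, ‖ψ f‖ ≤ C * D.nrm f) :
    ∃ Ψ : D.Comp →L[ℂ] ℂ, (∀ f, Ψ (D.inc f) = ψ f) ∧ ∀ a, ‖Ψ a‖ ≤ C * ‖a‖ := by
  let ψ' : D.Alg →L[ℂ] ℂ := LinearMap.mkContinuous (show D.Alg →ₗ[ℂ] ℂ from ψ) C hψ
  let Ψ : D.Comp →L[ℂ] ℂ := ψ'.extend (Completion.toComplL (𝕜 := ℂ) (E := D.Alg))
  have hΨ : ∀ f, Ψ (D.inc f) = ψ f := fun f =>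
    ContinuousLinearMap.extend_eq (f := ψ') (e := Completion.toComplL (𝕜 := ℂ) (E := D.Alg))
      (by rw [Completion.coe_toComplL]; exact Completion.denseRange_coe)
      (by rw [Completion.coe_toComplL]; exact Completion.isUniformInducing_coe _) (D.toAlg f)
  refine ⟨Ψ, hΨ, fun a => ?_⟩
  have hcl : IsClosed {a : D.Comp | ‖Ψ a‖ ≤ C * ‖a‖} :=
    isClosed_le (Ψ.continuous.norm) (continuous_const.mul continuous_norm)
  refine D.denseRange_inc.induction_on a hcl (fun f => ?_)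
  rw [hΨ, norm_inc]
  exact hψ f

end Dat

end Pool.Agent.H52.NA
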