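import Mathlib
import Pool.Agent.H52.BeurlingWeight
import Pool.Agent.H52.NormAlg

open Filter Topology UniformSpace

namespace Pool.Agent.H52.Conc

open Pool.Agent.H52

/-- the algebra of Laurent polynomials -/
abbrev R := AddMonoidAlgebra ℂ ℤ

/-- the basis elements -/
noncomputable def e (n : ℤ) : R := AddMonoidAlgebra.single n 1

lemma e_add (m n : ℤ) : e (m + n) = e m * e n := by
  unfold e
  rw [AddMonoidAlgebra.single_mul_single, one_mul]

lemma e_zero : e 0 = 1 := rfl

lemma e_eq_of (g : Multiplicative ℤ) : AddMonoidAlgebra.of ℂ ℤ g = e g.toAdd := rfl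

lemma R_induction {motive : R → Prop} (f : R) (he : ∀ n, motive (e n))
    (hadd : ∀ x y : R, motive x → motive y → motive (x + y))
    (hsmul : ∀ (c : ℂ) (x : R), motive x → motive (c • x)) : motive f :=
  AddMonoidAlgebra.induction_on f (fun n => he n) hadd hsmul

/-- the functional with prescribed values on the basis -/
noncomputable def evF (ψ : ℤ → ℂ) : R →ₗ[ℂ] ℂ :=
  (Finsupp.linearCombination ℂ ψ) ∘ₗ (AddMonoidAlgebra.coeffLinearEquiv ℂ).toLinearMap

lemma evF_e (ψ : ℤ → ℂ) (n : ℤ) : evF ψ (e n) = ψ n := by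
  have h : evF ψ (e n) = Finsupp.linearCombination ℂ ψ (Finsupp.single n 1) := rfl
  rw [h, Finsupp.linearCombination_single, one_smul]

lemma evF_eq_sum (ψ : ℤ → ℂ) (f : R) : evF ψ f = ∑ n ∈ f.coeff.support, f.coeff n * ψ n := by
  simp [evF, Finsupp.linearCombination_apply, Finsupp.sum]

lemma evF_diff (ψ : ℤ → ℂ) (k : ℕ) : ∀ n : ℤ, evF ψ (e n * (e 1 - 1) ^ k) = BW.dk k ψ n := by
  induction k with
  | zero => intro n; simp [BW.dk, evF_e]
  | succ k ih =>
    intro n
    have h1 : e n * (e 1 - 1) ^ (k + 1) = e (n + 1) * (e 1 - 1) ^ k - e n * (e 1 - 1) ^ k := by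
      rw [e_add, pow_succ]; ring
    rw [h1, map_sub, ih, ih]
    unfold BW.dk
    rw [Function.iterate_succ_apply']
    rfl

/-- weights on the integers -/
structure Wg where
  w : ℤ → ℝ
  one_le : ∀ n, 1 ≤ w n
  zero : w 0 = 1
  mul : ∀ m n, w (m + n) ≤ w m * w n

lemma span_of : Submodule.span ℂ (Set.range (AddMonoidAlgebra.of ℂ ℤ)) = ⊤ := by
  rw [eq_top_iff]
  intro f _
  refine R_induction f (fun n => ?_) (fun x y hx hy => ?_) (fun c x hx => ?_)
  · exact Submodule.subset_span ⟨Multiplicative.ofAdd n, rfl⟩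
  · exact Submodule.add_mem _ hx hy
  · exact Submodule.smul_mem _ c hx

/-- the data for the Beurling algebra -/
noncomputable def datA (W : Wg) : NA.Dat R (Multiplicative ℤ) where
  ι := AddMonoidAlgebra.of ℂ ℤ
  N := fun g => W.w g.toAdd
  pos := fun _ => lt_of_lt_of_le one_pos (W.one_le _)
  one := W.zero
  mul := fun _ _ => W.mul _ _
  span := span_of

/-- the data for the local quotient -/
noncomputable def datB (W : Wg) : NA.Dat R (Multiplicative ℤ × Multiplicative ℕ) where
  ι := (AddMonoidAlgebra.of ℂ ℤ).coprod (powersHom R (e 1 - 1))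
  N := fun g => W.w g.1.toAdd / (g.2.toAdd.factorial : ℝ)
  pos := fun g => div_pos (lt_of_lt_of_le one_pos (W.one_le _)) (by positivity)
  one := by simp [W.zero]
  mul := fun g h => by
    simp only [Prod.fst_mul, toAdd_mul, Prod.snd_mul]
    rw [div_mul_div_comm]
    have h1 := W.mul g.1.toAdd h.1.toAdd
    have h2 : ((g.2.toAdd.factorial : ℝ) * (h.2.toAdd.factorial : ℝ)) ≤
        ((g.2.toAdd + h.2.toAdd).factorial : ℝ) := by
      exact_mod_cast Nat.le_of_dvd (Nat.factorial_pos _)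
        (Nat.factorial_mul_factorial_dvd_factorial_add _ _)
    have h3 : 0 ≤ W.w g.1.toAdd * W.w h.1.toAdd :=
      mul_nonneg (le_trans zero_le_one (W.one_le _)) (le_trans zero_le_one (W.one_le _))
    exact div_le_div₀ h3 h1 (by positivity) h2
  span := by
    rw [eq_top_iff, ← span_of]
    apply Submodule.span_mono
    rintro _ ⟨g, rfl⟩
    exact ⟨(g, 1), by simp⟩

lemma datB_ι (W : Wg) (n : ℤ) (k : ℕ) :
    (datB W).ι (Multiplicative.ofAdd n, Multiplicative.ofAdd k) = e n * (e 1 - 1) ^ k := by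
  simp only [datB, MonoidHom.coprod_apply, powersHom_apply, toAdd_ofAdd, e_eq_of]

lemma nrmA_e (W : Wg) (n : ℤ) : (datA W).nrm (e n) ≤ W.w n :=
  (datA W).nrm_gen_le (Multiplicative.ofAdd n)

lemma nrmB_le (W : Wg) (n : ℤ) (k : ℕ) :
    (datB W).nrm (e n * (e 1 - 1) ^ k) ≤ W.w n / k.factorial := by
  rw [← datB_ι W]
  exact (datB W).nrm_gen_le _

lemma nrmB_X (W : Wg) (k : ℕ) : (datB W).nrm ((e 1 - 1) ^ k) ≤ 1 / k.factorial := by
  have := nrmB_le W 0 k
  rwa [e_zero, one_mul, W.zero] at this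

lemma nrmB_le_nrmA (W : Wg) (f : R) : (datB W).nrm f ≤ (datA W).nrm f := by
  apply (datB W).nrm_le
  intro ψ hψ
  apply (datA W).le_nrm
  intro g
  have := hψ (g, 1)
  simpa [datB, datA] using this

lemma evF_mem_Y_A (W : Wg) {ψ : ℤ → ℂ} (h : ∀ n, ‖ψ n‖ ≤ W.w n) : evF ψ ∈ (datA W).Y := by
  intro g
  have : (datA W).ι g = e g.toAdd := rfl
  rw [this, evF_e]
  exact h _

/-- every functional on Laurent polynomials is given by its values on the basis -/
lemma eq_evF (ψ : R →ₗ[ℂ] ℂ) : ψ = evF (fun n => ψ (e n)) := by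
  apply LinearMap.ext
  intro f
  refine R_induction (motive := fun f => ψ f = evF (fun n => ψ (e n)) f) f (fun n => ?_)
    (fun x y hx hy => ?_) (fun c x hx => ?_)
  · rw [evF_e]
  · rw [map_add, map_add, hx, hy]
  · rw [map_smul, map_smul, hx]

/-- characters of the Laurent polynomials -/
noncomputable def chr (z : ℂˣ) : R →ₐ[ℂ] ℂ :=
  AddMonoidAlgebra.lift ℂ ℂ ℤ ((Units.coeHom ℂ).comp (zpowersHom ℂˣ z))

lemma chr_e (z : ℂˣ) (n : ℤ) : chr z (e n) = ((z ^ n : ℂˣ) : ℂ) := by
  rw [chr, e, AddMonoidAlgebra.lift_single, one_smul]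
  rfl


lemma chr_eq_evF (z : ℂˣ) (f : R) : chr z f = evF (fun n => ((z ^ n : ℂˣ) : ℂ)) f := by
  have := congrArg (fun ψ : R →ₗ[ℂ] ℂ => ψ f) (eq_evF (chr z).toLinearMap)
  simp only [AlgHom.toLinearMap_apply, chr_e] at this
  exact this

lemma int_exp (m : ℤ) : ∫ θ in (0:ℝ)..(2 * Real.pi), Complex.exp ((m:ℂ) * Complex.I * θ) =
    if m = 0 then ((2 * Real.pi : ℝ) : ℂ) else 0 := by
  split_ifs with h
  · subst h; simp
  · have hc : (m:ℂ) * Complex.I ≠ 0 := mul_ne_zero (by exact_mod_cast h) Complex.I_ne_zero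
    rw [integral_exp_mul_complex hc]
    have h1 : (m:ℂ) * Complex.I * ((2 * Real.pi : ℝ) : ℂ) = (m:ℂ) * (2 * Real.pi * Complex.I) := by
      push_cast; ring
    rw [h1, Complex.exp_int_mul_two_pi_mul_I]
    simp

/-- the unit complex numbers as units -/
noncomputable def zt (θ : ℝ) : ℂˣ := Units.mk0 (Complex.exp (θ * Complex.I)) (Complex.exp_ne_zero _)

lemma norm_zt (θ : ℝ) : ‖((zt θ : ℂˣ) : ℂ)‖ = 1 := by
  simp [zt, Complex.norm_exp_ofReal_mul_I]

lemma zt_zpow (θ : ℝ) (n : ℤ) : ((zt θ ^ n : ℂˣ) : ℂ) = Complex.exp ((n:ℂ) * Complex.I * θ) := by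
  rw [Units.val_zpow_eq_zpow_val]
  simp only [zt, Units.val_mk0]
  rw [← Complex.exp_int_mul]
  congr 1
  ring

lemma coeff_bound (f : R) (C : ℝ) (h : ∀ z : ℂˣ, ‖(z:ℂ)‖ = 1 → ‖chr z f‖ ≤ C) (n : ℤ) :
    ‖f.coeff n‖ ≤ C := by
  have hpi : 0 < 2 * Real.pi := by positivity
  have key : ∫ θ in (0:ℝ)..(2 * Real.pi), Complex.exp (((-n : ℤ):ℂ) * Complex.I * θ) * chr (zt θ) f
      = ((2 * Real.pi : ℝ) : ℂ) * f.coeff n := by
    have h1 : ∀ θ : ℝ, Complex.exp (((-n : ℤ):ℂ) * Complex.I * θ) * chr (zt θ) f =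
        ∑ k ∈ f.coeff.support, f.coeff k * Complex.exp (((k - n : ℤ):ℂ) * Complex.I * θ) := by
      intro θ
      rw [chr_eq_evF, evF_eq_sum, Finset.mul_sum]
      apply Finset.sum_congr rfl
      intro k _
      rw [zt_zpow, mul_left_comm, ← Complex.exp_add]
      congr 2
      push_cast; ring
    simp only [h1]
    rw [intervalIntegral.integral_finsetSum]
    · simp only [intervalIntegral.integral_const_mul, int_exp]
      have h2 : ∀ k ∈ f.coeff.support,
          f.coeff k * (if k - n = 0 then ((2 * Real.pi : ℝ) : ℂ) else 0) =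
          if k = n then f.coeff k * ((2 * Real.pi : ℝ) : ℂ) else 0 := by
        intro k _
        by_cases hk : k = n
        · simp [hk]
        · have : k - n ≠ 0 := sub_ne_zero.2 hk
          simp [hk, this]
      rw [Finset.sum_congr rfl h2, Finset.sum_ite_eq']
      split_ifs with h3
      · ring
      · rw [Finsupp.notMem_support_iff.1 h3]; simp
    · intro k _
      apply Continuous.intervalIntegrable
      fun_prop
  have h2 : ‖∫ θ in (0:ℝ)..(2 * Real.pi), Complex.exp (((-n : ℤ):ℂ) * Complex.I * θ) *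
      chr (zt θ) f‖ ≤ C * |2 * Real.pi - 0| := by
    apply intervalIntegral.norm_integral_le_of_norm_le_const
    intro θ _
    rw [norm_mul]
    have h3 : ‖Complex.exp (((-n : ℤ):ℂ) * Complex.I * θ)‖ = 1 := by
      rw [← zt_zpow, Units.val_zpow_eq_zpow_val, norm_zpow, norm_zt, one_zpow]
    rw [h3, one_mul]
    exact h _ (norm_zt θ)
  rw [key, norm_mul, Complex.norm_real, sub_zero, Real.norm_of_nonneg hpi.le,
    abs_of_pos hpi, mul_comm C] at h2
  exact le_of_mul_le_mul_left h2 hpi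

lemma chr_bound (W : Wg) (z : ℂˣ) (hz : ‖(z:ℂ)‖ = 1) (f : R) :
    ‖chr z f‖ ≤ 1 * (datA W).nrm f := by
  rw [one_mul, chr_eq_evF]
  apply (datA W).le_nrm
  apply evF_mem_Y_A
  intro n
  rw [Units.val_zpow_eq_zpow_val, norm_zpow, hz, one_zpow]
  exact W.one_le n

/-- the characters of the Beurling algebra at the points of the unit circle -/
noncomputable def chrA (W : Wg) (z : ℂˣ) (hz : ‖(z:ℂ)‖ = 1) : (datA W).Comp →ₐ[ℂ] ℂ :=
  (datA W).lift (chr z) 1 (chr_bound W z hz)

lemma chrA_inc (W : Wg) (z : ℂˣ) (hz : ‖(z:ℂ)‖ = 1) (f : R) :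
    chrA W z hz ((datA W).inc f) = chr z f := (datA W).lift_inc _ _ _ f

lemma chrA_norm (W : Wg) (z : ℂˣ) (hz : ‖(z:ℂ)‖ = 1) (a : (datA W).Comp) :
    ‖chrA W z hz a‖ ≤ ‖a‖ := by
  have hcl : IsClosed {a : (datA W).Comp | ‖chrA W z hz a‖ ≤ ‖a‖} :=
    isClosed_le ((datA W).continuous_lift _ _ _).norm continuous_norm
  refine (datA W).denseRange_inc.induction_on a hcl (fun f => ?_)
  rw [chrA_inc, NA.Dat.norm_inc]
  have := chr_bound W z hz f
  rwa [one_mul] at this

/-- coefficient functionals are bounded by the norm -/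
lemma coeff_le (W : Wg) (f : R) (n : ℤ) : ‖f.coeff n‖ ≤ (datA W).nrm f := by
  apply coeff_bound
  intro z hz
  have := chr_bound W z hz f
  rwa [one_mul] at this

/-- The characters on the circle separate points of the Beurling algebra. -/
lemma eq_zero_of_chrA (W : Wg) (a : (datA W).Comp)
    (h : ∀ (z : ℂˣ) (hz : ‖(z:ℂ)‖ = 1), chrA W z hz a = 0) : a = 0 := by
  rw [← norm_le_zero_iff]
  apply le_of_forall_pos_le_add
  intro ε hε
  rw [zero_add]
  obtain ⟨f, hf⟩ := (datA W).exists_close a (half_pos hε)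
  -- small characters for elements close to `a`
  have hsmall : ∀ (g : R) (δ : ℝ), ‖a - (datA W).inc g‖ ≤ δ → ∀ n, ‖g.coeff n‖ ≤ δ := by
    intro g δ hg n
    apply coeff_bound
    intro z hz
    have h1 := chrA_norm W z hz (a - (datA W).inc g)
    rw [map_sub, h z hz, chrA_inc, zero_sub, norm_neg] at h1
    exact h1.trans hg
  have hnf : ‖(datA W).inc f‖ ≤ ε / 2 := by
    rw [NA.Dat.norm_inc]
    apply (datA W).nrm_le
    intro ψ hψ
    rw [eq_evF ψ]
    set φ : ℤ → ℂ := fun n => ψ (e n) with hφ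
    have hφb : ∀ n, ‖φ n‖ ≤ W.w n := fun n => hψ (Multiplicative.ofAdd n)
    -- truncate
    let F := f.coeff.support
    let φ' : ℤ → ℂ := fun n => if n ∈ F then φ n else 0
    have hφ'b : ∀ n, ‖φ' n‖ ≤ W.w n := by
      intro n
      simp only [φ']
      split_ifs
      · exact hφb n
      · simpa using le_trans zero_le_one (W.one_le n)
    have hff : evF φ f = evF φ' f := by
      rw [evF_eq_sum, evF_eq_sum]
      apply Finset.sum_congr rfl
      intro n hn
      simp only [φ', F, hn, if_true]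
    rw [hff]
    apply le_of_forall_pos_le_add
    intro δ hδ
    let S : ℝ := ∑ n ∈ F, W.w n
    have hS : 0 ≤ S := Finset.sum_nonneg fun n _ => le_trans zero_le_one (W.one_le n)
    have hδ' : 0 < δ / (S + 1) / 2 := by positivity
    have hmin : 0 < min (δ / (S + 1) / 2) (min (δ / 2) (ε / 2 - ‖a - (datA W).inc f‖)) := by
      refine lt_min hδ' (lt_min (half_pos hδ) (by linarith))
    obtain ⟨g, hg⟩ := (datA W).exists_close a hmin
    have hg1 : ‖a - (datA W).inc g‖ ≤ δ / (S + 1) / 2 := (hg.le).trans (min_le_left _ _)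
    have hg2 : ‖a - (datA W).inc g‖ ≤ ε / 2 - ‖a - (datA W).inc f‖ :=
      (hg.le).trans ((min_le_right _ _).trans (min_le_right _ _))
    have e1 : ‖evF φ' g‖ ≤ δ := by
      have e2 : evF φ' g = ∑ n ∈ F, g.coeff n * φ n := by
        have e3 : evF φ' g = ∑ n ∈ F ∪ g.coeff.support, g.coeff n * φ' n := by
          rw [evF_eq_sum]
          apply Finset.sum_subset Finset.subset_union_right
          intro n _ hn
          rw [Finsupp.notMem_support_iff.1 hn, zero_mul]
        rw [e3]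
        symm
        apply Finset.sum_subset_zero_on_sdiff Finset.subset_union_left
        · intro n hn
          have : n ∉ F := (Finset.mem_sdiff.1 hn).2
          simp only [φ', this, if_false, mul_zero]
        · intro n hn
          simp only [φ', hn, if_true]
      rw [e2]
      calc ‖∑ n ∈ F, g.coeff n * φ n‖ ≤ ∑ n ∈ F, ‖g.coeff n * φ n‖ := norm_sum_le _ _
        _ ≤ ∑ n ∈ F, (δ / (S + 1) / 2) * W.w n := by
            apply Finset.sum_le_sum
            intro n _
            rw [norm_mul]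
            exact mul_le_mul (hsmall g _ hg1 n) (hφb n) (norm_nonneg _) hδ'.le
        _ = (δ / (S + 1) / 2) * S := by rw [← Finset.mul_sum]
        _ ≤ δ := by
            have : δ / (S + 1) / 2 * S = δ * (S / (S + 1)) / 2 := by ring
            rw [this]
            have h5 : S / (S + 1) ≤ 1 := by rw [div_le_one (by positivity)]; linarith
            nlinarith
    have e4 : ‖evF φ' (f - g)‖ ≤ ε / 2 := by
      have h6 := (datA W).le_nrm (evF_mem_Y_A W hφ'b) (f - g)
      rw [← NA.Dat.norm_inc, map_sub (datA W).inc] at h6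
      refine h6.trans ?_
      have h7 : (datA W).inc f - (datA W).inc g = (a - (datA W).inc g) - (a - (datA W).inc f) := by
        abel
      rw [h7]
      refine (norm_sub_le _ _).trans ?_
      linarith
    have h8 : evF φ' f = evF φ' (f - g) + evF φ' g := by rw [map_sub]; ring
    rw [h8]
    exact (norm_add_le _ _).trans (add_le_add e4 e1)
  calc ‖a‖ = ‖(a - (datA W).inc f) + (datA W).inc f‖ := by rw [sub_add_cancel]
    _ ≤ ‖a - (datA W).inc f‖ + ‖(datA W).inc f‖ := norm_add_le _ _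
    _ ≤ ε := by linarith

theorem jacobsonA (W : Wg) : Ring.jacobson (datA W).Comp = ⊥ := by
  rw [eq_bot_iff]
  intro a ha
  rw [← Ideal.jacobson_bot, Ideal.mem_jacobson_bot] at ha
  rw [Ideal.mem_bot]
  apply eq_zero_of_chrA
  intro z hz
  by_contra hne
  have h1 := ha (algebraMap ℂ _ (-(chrA W z hz a)⁻¹))
  have h2 := h1.map (chrA W z hz)
  rw [map_add, map_mul, map_one, AlgHom.commutes] at h2
  have h3 : chrA W z hz a * (algebraMap ℂ ℂ) (-(chrA W z hz a)⁻¹) + 1 = 0 := by
    simp [hne]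
  rw [h3] at h2
  exact not_isUnit_zero h2


/-! ### Weak amenability -/

section WA

variable (W : Wg)

/-- the images of the basis elements in the Beurling algebra -/
noncomputable def eA (n : ℤ) : (datA W).Comp := (datA W).inc (e n)

lemma eA_add (m n : ℤ) : eA W (m + n) = eA W m * eA W n := by
  unfold eA; rw [e_add, map_mul]

lemma eA_zero : eA W 0 = 1 := by
  unfold eA; rw [e_zero, map_one]

lemma eA_norm (n : ℤ) : ‖eA W n‖ ≤ W.w n := by
  unfold eA; rw [NA.Dat.norm_inc]; exact nrmA_e W n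

theorem wa_aux (hW : ∀ j : ℕ, ∃ M : ℕ, 0 < M ∧ (j:ℝ) * (W.w M * W.w (-M)) ≤ M)
    (D : (datA W).Comp →L[ℂ] ((datA W).Comp →L[ℂ] ℂ))
    (hD : ∀ a b x : (datA W).Comp, D (a * b) x = D b (x * a) + D a (b * x)) : D = 0 := by
  -- the logarithmic derivative
  let L : ℤ → (datA W).Comp → ℂ := fun n x => D (eA W n) (eA W (-n) * x)
  have hL : ∀ m n x, L (m + n) x = L m x + L n x := by
    intro m n x
    simp only [L]
    rw [eA_add, hD]
    have h1 : eA W (-(m + n)) * x * eA W m = eA W (-n) * x := by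
      have : eA W (-(m + n)) * eA W m = eA W (-n) := by rw [← eA_add]; congr 1; ring
      rw [mul_right_comm, this]
    have h2 : eA W n * (eA W (-(m + n)) * x) = eA W (-m) * x := by
      rw [← mul_assoc, ← eA_add]; congr 2; ring
    rw [h1, h2, add_comm]
  have hLnat : ∀ (n : ℕ) x, L n x = n * L 1 x := by
    intro n x
    induction n with
    | zero =>
      have := hL 0 0 x
      simp only [add_zero] at this
      have h0 : L 0 x = 0 := by
        have h := this
        rwa [left_eq_add] at h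
      simpa using h0
    | succ n ih =>
      have := hL n 1 x
      rw [Nat.cast_succ, this, ih]
      push_cast; ring
  have hLb : ∀ (n : ℤ) x, ‖L n x‖ ≤ (‖D‖ * ‖x‖) * (W.w n * W.w (-n)) := by
    intro n x
    simp only [L]
    calc ‖D (eA W n) (eA W (-n) * x)‖ ≤ ‖D (eA W n)‖ * ‖eA W (-n) * x‖ :=
          ContinuousLinearMap.le_opNorm _ _
      _ ≤ (‖D‖ * ‖eA W n‖) * (‖eA W (-n)‖ * ‖x‖) := by
          apply mul_le_mul (ContinuousLinearMap.le_opNorm _ _) (norm_mul_le _ _)
            (norm_nonneg _) (by positivity)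
      _ ≤ (‖D‖ * W.w n) * (W.w (-n) * ‖x‖) := by
          have h1 := eA_norm W n
          have h2 := eA_norm W (-n)
          have h3 : 0 ≤ W.w n := le_trans zero_le_one (W.one_le n)
          have h4 : 0 ≤ W.w (-n) := le_trans zero_le_one (W.one_le (-n))
          gcongr
      _ = _ := by ring
  have hL1 : ∀ x, L 1 x = 0 := by
    intro x
    rw [← norm_le_zero_iff]
    apply le_of_forall_pos_le_add
    intro δ hδ
    rw [zero_add]
    obtain ⟨j, hj⟩ := exists_nat_gt ((‖D‖ * ‖x‖) / δ)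
    obtain ⟨M, hM0, hM⟩ := hW (j + 1)
    have h1 := hLb M x
    rw [hLnat, norm_mul, Complex.norm_natCast] at h1
    have hM0' : (0:ℝ) < M := by exact_mod_cast hM0
    have hj1 : (0:ℝ) < ((j + 1 : ℕ):ℝ) := by positivity
    have h2 : W.w M * W.w (-M) ≤ M / ((j + 1 : ℕ):ℝ) := by
      rw [le_div_iff₀ hj1, mul_comm]; exact hM
    have h3 : (M:ℝ) * ‖L 1 x‖ ≤ M * ((‖D‖ * ‖x‖) / ((j + 1 : ℕ):ℝ)) := by
      refine h1.trans ?_
      calc (‖D‖ * ‖x‖) * (W.w M * W.w (-M)) ≤ (‖D‖ * ‖x‖) * (M / ((j + 1 : ℕ):ℝ)) := by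
            gcongr
        _ = _ := by ring
    have h4 := le_of_mul_le_mul_left h3 hM0'
    refine h4.trans ?_
    rw [div_le_iff₀ hj1]
    rw [div_lt_iff₀ hδ] at hj
    push_cast
    nlinarith
  have hLall : ∀ (n : ℤ) x, L n x = 0 := by
    intro n x
    rcases Int.eq_nat_or_neg n with ⟨k, rfl | rfl⟩
    · rw [hLnat, hL1, mul_zero]
    · have h := hL k (-k) x
      rw [add_neg_cancel, hLnat, hL1, mul_zero, zero_add] at h
      have h0 := hLnat 0 x
      simp only [Nat.cast_zero, zero_mul] at h0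
      rw [← h, h0]
  have hDe : ∀ n, D (eA W n) = 0 := by
    intro n
    ext x
    have h := hLall n (eA W n * x)
    simp only [L] at h
    rw [← mul_assoc, ← eA_add, neg_add_cancel, eA_zero, one_mul] at h
    simpa using h
  have hDf : ∀ f : R, D ((datA W).inc f) = 0 := by
    intro f
    refine R_induction (motive := fun f => D ((datA W).inc f) = 0) f hDe (fun x y hx hy => ?_)
      (fun c x hx => ?_)
    · rw [map_add, map_add, hx, hy, add_zero]
    · ext y
      have hxy : D ((datA W).inc x) y = 0 := by rw [hx]; rfl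
      rw [map_smul, map_smul, _root_.smul_apply, hxy, smul_zero]
      rfl
  apply ContinuousLinearMap.ext
  intro a
  have hcl : IsClosed {a : (datA W).Comp | D a = (0 : (datA W).Comp →L[ℂ] ((datA W).Comp →L[ℂ] ℂ)) a} :=
    isClosed_eq D.continuous (ContinuousLinearMap.continuous _)
  exact (datA W).denseRange_inc.induction_on a hcl (fun f => by rw [hDf]; simp)

end WA

/-! ### The two homomorphisms -/

section homs

variable (W : Wg)

/-- the canonical map from the Beurling algebra to the local algebra -/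
noncomputable def phi : (datA W).Comp →ₐ[ℂ] (datB W).Comp :=
  (datA W).lift ((datB W).inc) 1 (fun f => by
    rw [NA.Dat.norm_inc, one_mul]; exact nrmB_le_nrmA W f)

lemma phi_inc (f : R) : phi W ((datA W).inc f) = (datB W).inc f := (datA W).lift_inc _ _ _ f

lemma continuous_phi : Continuous (phi W) := (datA W).continuous_lift _ _ _

/-- the map through the augmentation character -/
noncomputable def psi : (datA W).Comp →ₐ[ℂ] (datB W).Comp :=
  (Algebra.ofId ℂ (datB W).Comp).comp (chrA W 1 (by simp))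

lemma psi_inc (f : R) : psi W ((datA W).inc f) = algebraMap ℂ _ (chr 1 f) := by
  unfold psi
  rw [AlgHom.comp_apply, chrA_inc]
  rfl

lemma continuous_psi : Continuous (psi W) := by
  have h1 : Continuous (chrA W 1 (by simp)) := (datA W).continuous_lift _ _ _
  have h2 : Continuous (algebraMap ℂ (datB W).Comp) := continuous_algebraMap ℂ _
  exact h2.comp h1

lemma mem_jac_of_quasinilpotent {B : Type} [NormedCommRing B] [CompleteSpace B] (X : B)
    (hX : ∀ k : ℕ, ‖X ^ k‖ ≤ 1 / k.factorial) : X ∈ Ring.jacobson B := by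
  rw [← Ideal.jacobson_bot, Ideal.mem_jacobson_bot]
  intro y
  have hlim := FloorSemiring.tendsto_pow_div_factorial_atTop (‖y‖)
  have hev : ∀ᶠ k : ℕ in atTop, ‖y‖ ^ k / k.factorial < 1 := hlim.eventually_lt_const one_pos
  obtain ⟨k, hk, hk1⟩ := (hev.and (eventually_ge_atTop 1)).exists
  have h1 : ‖(-(X * y)) ^ k‖ < 1 := by
    have h2 : ‖(-(X * y)) ^ k‖ = ‖X ^ k * y ^ k‖ := by
      rw [← neg_one_mul, mul_pow, mul_pow]
      rcases neg_one_pow_eq_or B k with h | h <;> rw [h] <;> simp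
    rw [h2]
    calc ‖X ^ k * y ^ k‖ ≤ ‖X ^ k‖ * ‖y ^ k‖ := norm_mul_le _ _
      _ ≤ (1 / k.factorial) * ‖y‖ ^ k := by
          apply mul_le_mul (hX k) (norm_pow_le' y (by omega)) (norm_nonneg _) (by positivity)
      _ = ‖y‖ ^ k / k.factorial := by ring
      _ < 1 := hk
  have h3 : IsUnit (1 - (-(X * y)) ^ k) := isUnit_one_sub_of_norm_lt_one h1
  have h4 : (1 - (-(X * y))) ∣ 1 - (-(X * y)) ^ k := by
    have := sub_dvd_pow_sub_pow (1:B) (-(X * y)) k
    rwa [one_pow] at this
  have h5 := isUnit_of_dvd_unit h4 h3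
  rwa [sub_neg_eq_add, add_comm] at h5

lemma jac_closed {B : Type} [NormedCommRing B] [CompleteSpace B] :
    IsClosed (Ring.jacobson B : Set B) := by
  rw [Ring.jacobson_eq_sInf_isMaximal, Submodule.coe_sInf]
  apply isClosed_biInter
  intro I hI
  have hI' : Ideal.IsMaximal I := hI
  exact @Ideal.IsMaximal.isClosed B _ _ I hI'

/-- the generator of the radical -/
noncomputable def XB : (datB W).Comp := (datB W).inc (e 1 - 1)

lemma XB_mem : XB W ∈ Ring.jacobson (datB W).Comp := by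
  apply mem_jac_of_quasinilpotent
  intro k
  unfold XB
  rw [← map_pow, NA.Dat.norm_inc]
  exact nrmB_X W k

lemma XB_dvd_nat (n : ℕ) : XB W ∣ (datB W).inc (e n) - 1 := by
  have h1 : (datB W).inc (e n) = (XB W + 1) ^ n := by
    unfold XB
    rw [map_sub, map_one, sub_add_cancel, ← map_pow]
    congr 1
    induction n with
    | zero => simp [e_zero]
    | succ n ih => rw [pow_succ, ← ih, Nat.cast_succ, e_add]
  rw [h1]
  have h2 := sub_dvd_pow_sub_pow (XB W + 1) 1 n
  rwa [one_pow, add_sub_cancel_right] at h2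

lemma XB_dvd (n : ℤ) : XB W ∣ (datB W).inc (e n) - 1 := by
  rcases Int.eq_nat_or_neg n with ⟨k, rfl | rfl⟩
  · exact XB_dvd_nat W k
  · have h1 := XB_dvd_nat W k
    have h2 : (datB W).inc (e (-(k:ℤ))) - 1 =
        -((datB W).inc (e (-(k:ℤ))) * ((datB W).inc (e k) - 1)) := by
      rw [mul_sub, ← map_mul, ← e_add, neg_add_cancel, e_zero, map_one]
      ring
    rw [h2]
    exact (dvd_mul_of_dvd_right h1 _).neg_right

lemma diff_mem (a : (datA W).Comp) : phi W a - psi W a ∈ Ring.jacobson (datB W).Comp := by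
  have hcl : IsClosed {a : (datA W).Comp | phi W a - psi W a ∈ Ring.jacobson (datB W).Comp} :=
    jac_closed.preimage ((continuous_phi W).sub (continuous_psi W))
  refine (datA W).denseRange_inc.induction_on a hcl (fun f => ?_)
  refine R_induction (motive := fun f => phi W ((datA W).inc f) - psi W ((datA W).inc f) ∈
    Ring.jacobson (datB W).Comp) f (fun n => ?_) (fun x y hx hy => ?_) (fun c x hx => ?_)
  · rw [phi_inc, psi_inc, chr_e]
    have h1 : (((1:ℂˣ) ^ n : ℂˣ) : ℂ) = 1 := by simp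
    rw [h1, map_one]
    exact Ideal.mem_of_dvd _ (XB_dvd W n) (XB_mem W)
  · rw [map_add, map_add, map_add, add_sub_add_comm]
    exact Ideal.add_mem _ hx hy
  · rw [map_smul, map_smul, map_smul, ← smul_sub, Algebra.smul_def]
    exact Ideal.mul_mem_left _ _ hx

lemma phi_ne_psi {Ψ : ℤ → ℂ} {κ : ℝ}
    (hΨ : ∀ (n : ℤ) (k : ℕ), ‖BW.dk k Ψ n‖ * (k.factorial : ℝ) ≤ κ * W.w n) (h0 : Ψ 0 = 0)
    (h1 : Ψ 1 ≠ 0) : phi W ≠ psi W := by
  intro h
  have h2 := congrArg (fun F : (datA W).Comp →ₐ[ℂ] (datB W).Comp => F ((datA W).inc (e 1))) h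
  simp only [phi_inc, psi_inc, chr_e] at h2
  have h3 : (((1:ℂˣ) ^ (1:ℤ) : ℂˣ) : ℂ) = 1 := by simp
  rw [h3, map_one, ← map_one (datB W).inc, ← sub_eq_zero, ← map_sub] at h2
  have h4 : (datB W).nrm (e 1 - 1) = 0 := by
    rw [← NA.Dat.norm_inc, h2, norm_zero]
  have hκ : 0 ≤ κ := by
    have h5 := hΨ 0 0
    rw [W.zero, mul_one] at h5
    exact le_trans (by positivity) h5
  have h5 := (datB W).scale (ψ := evF Ψ) hκ (fun g => by
    obtain ⟨n, k⟩ := g
    have h6 := hΨ n.toAdd k.toAdd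
    rw [← evF_diff, ← datB_ι W] at h6
    have h7 : (0:ℝ) < (k.toAdd.factorial : ℝ) := by positivity
    rw [← le_div_iff₀ h7, mul_div_assoc] at h6
    exact h6) (e 1 - 1)
  rw [h4, mul_zero, norm_le_zero_iff, map_sub, ← e_zero, evF_e, evF_e, h0, sub_zero] at h5
  exact h1 h5

end homs

lemma norm_oneA (W : Wg) : ‖(1 : (datA W).Comp)‖ = 1 := by
  apply le_antisymm
  · rw [← eA_zero]
    have := eA_norm W 0
    rwa [W.zero] at this
  · have h := chrA_norm W 1 (by simp) 1
    rwa [map_one, norm_one] at h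

lemma norm_oneB (W : Wg) : ‖(1 : (datB W).Comp)‖ = 1 := by
  have h1 : ‖(1 : (datB W).Comp)‖ = (datB W).nrm 1 := by
    rw [← map_one (datB W).inc, NA.Dat.norm_inc]
  rw [h1]
  apply le_antisymm
  · have := nrmB_X W 0
    simpa using this
  · have hmem : (chr 1).toLinearMap ∈ (datB W).Y := by
      rintro ⟨n, k⟩
      have h2 : (datB W).ι (n, k) = e n.toAdd * (e 1 - 1) ^ k.toAdd := datB_ι W _ _
      have h3 : (datB W).N (n, k) = W.w n.toAdd / (k.toAdd.factorial : ℝ) := rfl
      rw [h2, h3, AlgHom.toLinearMap_apply, map_mul, map_pow, map_sub, map_one, chr_e, chr_e]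
      rcases Nat.eq_zero_or_pos k.toAdd with hk | hk
      · rw [hk]
        simpa using W.one_le n.toAdd
      · have h4 : (((1:ℂˣ) ^ (1:ℤ) : ℂˣ) : ℂ) - 1 = 0 := by simp
        rw [h4, zero_pow (by omega), mul_zero, norm_zero]
        have := le_trans zero_le_one (W.one_le n.toAdd)
        positivity
    have := (datB W).le_nrm hmem 1
    simpa using this

end Pool.Agent.H52.Conc
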