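import Mathlib

open MeasureTheory Measure Set Filter Topology
open scoped ENNReal NNReal

namespace Pool.Agent.H52.SL

/-- the point of the Cantor set with digit sequence `a` -/
noncomputable def p {N : ℕ} (ρ : ℝ) (a : ℕ → Fin N) : ℝ := ∑' k, ((a k : ℕ) : ℝ) * ρ ^ k

/-- the shift on digit sequences -/
def sh {N : ℕ} (a : ℕ → Fin N) : ℕ → Fin N := fun k => a (k + 1)

/-- the standing assumptions on the parameters -/
structure Par (N : ℕ) (ρ d : ℝ) : Prop where
  hN : 2 ≤ N
  pos : 0 < ρ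
  lt : ((N:ℝ) + 2) * ρ < 1
  hd : 0 < d
  hd1 : d < 1
  eq : ρ ^ d = (N:ℝ)⁻¹

variable {N : ℕ} {ρ d : ℝ}

/-- the length of the convex hull of the Cantor set -/
noncomputable def len (N : ℕ) (ρ : ℝ) : ℝ := ((N:ℝ) - 1) / (1 - ρ)

namespace Par

variable (h : Par N ρ d)
include h

lemma N_pos : (0:ℝ) < N := by have := h.hN; positivity
lemma N_ge : (2:ℝ) ≤ N := by exact_mod_cast h.hN

lemma lt_one : ρ < 1 := by
  have := h.N_ge
  have := h.pos
  have := h.lt
  nlinarith

lemma len_pos : 0 < len N ρ := by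
  unfold len
  have := h.N_ge
  have := h.lt_one
  apply div_pos <;> linarith

lemma rho_len : ρ * len N ρ < 1 := by
  unfold len
  have h1 := h.N_ge
  have h2 := h.lt_one
  have h3 := h.lt
  have h4 := h.pos
  rw [← mul_div_assoc, div_lt_one (by linarith)]
  nlinarith

lemma summable_p (a : ℕ → Fin N) : Summable fun k => ((a k : ℕ) : ℝ) * ρ ^ k := by
  refine Summable.of_nonneg_of_le (fun k => ?_) (fun k => ?_)
    ((summable_geometric_of_lt_one h.pos.le h.lt_one).mul_left (N:ℝ))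
  · have := h.pos; positivity
  · apply mul_le_mul_of_nonneg_right
    · exact_mod_cast (a k).2.le
    · have := h.pos; positivity

lemma p_succ (a : ℕ → Fin N) : p ρ a = ((a 0 : ℕ) : ℝ) + ρ * p ρ (sh a) := by
  unfold p
  rw [(h.summable_p a).tsum_eq_zero_add, ← tsum_mul_left]
  congr 1
  · simp
  · congr 1
    funext k
    unfold sh
    rw [pow_succ]; ring

lemma p_nonneg (a : ℕ → Fin N) : 0 ≤ p ρ a := by
  have := h.pos
  exact tsum_nonneg fun k => by positivity

lemma p_le (a : ℕ → Fin N) : p ρ a ≤ len N ρ := by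
  have hs := (summable_geometric_of_lt_one h.pos.le h.lt_one).mul_left ((N:ℝ) - 1)
  calc p ρ a ≤ ∑' k, ((N:ℝ) - 1) * ρ ^ k := by
        apply Summable.tsum_le_tsum (fun k => ?_) (h.summable_p a) hs
        apply mul_le_mul_of_nonneg_right
        · have : ((a k : ℕ) : ℝ) + 1 ≤ N := by exact_mod_cast (a k).2
          linarith
        · have := h.pos; positivity
    _ = len N ρ := by
        rw [tsum_mul_left, tsum_geometric_of_lt_one h.pos.le h.lt_one]
        unfold len
        rw [div_eq_mul_inv]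

lemma abs_sub_le (a b : ℕ → Fin N) : |p ρ a - p ρ b| ≤ len N ρ := by
  rw [abs_le]
  have := h.p_nonneg a
  have := h.p_nonneg b
  have := h.p_le a
  have := h.p_le b
  constructor <;> linarith

lemma abs_sub_le_of_prefix (n : ℕ) : ∀ a b : ℕ → Fin N, (∀ i < n, a i = b i) →
    |p ρ a - p ρ b| ≤ ρ ^ n * len N ρ := by
  induction n with
  | zero => intro a b _; simpa using h.abs_sub_le a b
  | succ n ih =>
    intro a b hab
    rw [h.p_succ a, h.p_succ b, hab 0 (Nat.succ_pos n), add_sub_add_left_eq_sub, ← mul_sub,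
      abs_mul, abs_of_pos h.pos, pow_succ', mul_assoc]
    exact mul_le_mul_of_nonneg_left (ih _ _ fun i hi => hab (i + 1) (by omega)) h.pos.le

lemma sep (n : ℕ) : ∀ a b : ℕ → Fin N, (∀ i < n, a i = b i) → a n ≠ b n →
    ρ ^ n * (1 - ρ * len N ρ) ≤ |p ρ a - p ρ b| := by
  induction n with
  | zero =>
    intro a b _ hne
    rw [h.p_succ a, h.p_succ b, pow_zero, one_mul]
    have h1 := h.abs_sub_le (sh a) (sh b)
    have h2 : (1:ℝ) ≤ |((a 0 : ℕ):ℝ) - ((b 0 : ℕ):ℝ)| := by
      have h3 : ((a 0 : ℕ) : ℤ) - ((b 0 : ℕ) : ℤ) ≠ 0 := by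
        intro h4
        apply hne
        apply Fin.ext
        omega
      have h5 := Int.one_le_abs h3
      have h6 : ((1:ℤ):ℝ) ≤ ((|((a 0 : ℕ) : ℤ) - ((b 0 : ℕ) : ℤ)| : ℤ) : ℝ) := by
        exact_mod_cast h5
      push_cast at h6
      exact h6
    have h3 : ((a 0 : ℕ):ℝ) + ρ * p ρ (sh a) - (((b 0 : ℕ):ℝ) + ρ * p ρ (sh b)) =
        (((a 0 : ℕ):ℝ) - ((b 0 : ℕ):ℝ)) - (-(ρ * (p ρ (sh a) - p ρ (sh b)))) := by ring
    rw [h3]
    have h4 := abs_sub_abs_le_abs_sub (((a 0 : ℕ):ℝ) - ((b 0 : ℕ):ℝ))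
      (-(ρ * (p ρ (sh a) - p ρ (sh b))))
    rw [abs_neg, abs_mul, abs_of_pos h.pos] at h4
    have h5 : ρ * |p ρ (sh a) - p ρ (sh b)| ≤ ρ * len N ρ :=
      mul_le_mul_of_nonneg_left h1 h.pos.le
    linarith
  | succ n ih =>
    intro a b hab hne
    rw [h.p_succ a, h.p_succ b, hab 0 (Nat.succ_pos n), add_sub_add_left_eq_sub, ← mul_sub,
      abs_mul, abs_of_pos h.pos, pow_succ', mul_assoc]
    exact mul_le_mul_of_nonneg_left (ih _ _ (fun i hi => hab (i + 1) (by omega)) hne) h.pos.le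

/-- the Hölder constant -/
lemma holder_aux (a b : ℕ → Fin N) :
    |Real.ofDigits a - Real.ofDigits b| ≤ ((1 - ρ * len N ρ) ^ d)⁻¹ * |p ρ a - p ρ b| ^ d := by
  classical
  have hpos : 0 < 1 - ρ * len N ρ := by have := h.rho_len; linarith
  by_cases hab : a = b
  · rw [hab]; simp only [sub_self, abs_zero]
    have := h.hd
    positivity
  · have hex : ∃ n, a n ≠ b n := by
      by_contra hc
      push Not at hc
      exact hab (funext hc)
    let n := Nat.find hex
    have hn : a n ≠ b n := Nat.find_spec hex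
    have hlt : ∀ i < n, a i = b i := fun i hi => by
      have := Nat.find_min hex hi
      push Not at this
      exact this
    have h1 := Real.abs_ofDigits_sub_ofDigits_le hlt
    have h2 := h.sep n a b hlt hn
    have h3 : ((N:ℝ) ^ n)⁻¹ = (ρ ^ n) ^ d := by
      rw [← inv_pow, ← h.eq, ← Real.rpow_natCast, ← Real.rpow_natCast, ← Real.rpow_mul h.pos.le,
        ← Real.rpow_mul h.pos.le, mul_comm]
    have hρn : 0 < ρ ^ n := pow_pos h.pos n
    rw [h3] at h1
    refine h1.trans ?_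
    rw [← Real.inv_rpow hpos.le, ← Real.mul_rpow (by positivity) (abs_nonneg _)]
    apply Real.rpow_le_rpow hρn.le _ h.hd.le
    rw [← div_eq_inv_mul, le_div_iff₀ hpos]
    exact h2

lemma p_inj (a b : ℕ → Fin N) (hab : p ρ a = p ρ b) : a = b := by
  classical
  by_contra hne
  have hex : ∃ n, a n ≠ b n := by
    by_contra hc
    push Not at hc
    exact hne (funext hc)
  have hn : a (Nat.find hex) ≠ b (Nat.find hex) := Nat.find_spec hex
  have hlt : ∀ i < Nat.find hex, a i = b i := fun i hi => by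
    have := Nat.find_min hex hi
    push Not at this
    exact this
  have h2 := h.sep _ a b hlt hn
  rw [hab, sub_self, abs_zero] at h2
  have hpos : 0 < 1 - ρ * len N ρ := by have := h.rho_len; linarith
  have : 0 < ρ ^ (Nat.find hex) := pow_pos h.pos _
  nlinarith [mul_pos this hpos]

omit h in
/-- the address map -/
noncomputable def addr (N : ℕ) (ρ : ℝ) (y : ℝ) : ℝ := by
  classical
  exact if hy : ∃ a : ℕ → Fin N, p ρ a = y then Real.ofDigits (Classical.choose hy) else 0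

lemma addr_p (a : ℕ → Fin N) : addr N ρ (p ρ a) = Real.ofDigits a := by
  unfold addr
  have hy : ∃ b : ℕ → Fin N, p ρ b = p ρ a := ⟨a, rfl⟩
  rw [dif_pos hy]
  rw [h.p_inj _ _ (Classical.choose_spec hy)]

lemma holder : ∃ K : ℝ≥0, HolderOnWith K d.toNNReal (addr N ρ)
    (range (p ρ : (ℕ → Fin N) → ℝ)) := by
  have hpos : 0 < 1 - ρ * len N ρ := by have := h.rho_len; linarith
  refine ⟨(((1 - ρ * len N ρ) ^ d)⁻¹).toNNReal, ?_⟩
  rintro _ ⟨a, rfl⟩ _ ⟨b, rfl⟩
  rw [h.addr_p, h.addr_p, edist_dist, edist_dist, Real.dist_eq, Real.dist_eq]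
  have h1 := h.holder_aux a b
  have h2 : (((((1 - ρ * len N ρ) ^ d)⁻¹).toNNReal : ℝ≥0) : ℝ≥0∞) =
      ENNReal.ofReal (((1 - ρ * len N ρ) ^ d)⁻¹) := rfl
  rw [h2, Real.coe_toNNReal d h.hd.le, ENNReal.ofReal_rpow_of_nonneg (abs_nonneg _) h.hd.le,
    ← ENNReal.ofReal_mul (by positivity)]
  exact ENNReal.ofReal_le_ofReal h1

/-- null sets in the Cantor set have null images under the address map -/
lemma null_of_null (T : Set (ℕ → Fin N)) (hT : μH[d] (p ρ '' T) = 0) :
    volume (Real.ofDigits '' T) = 0 := by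
  obtain ⟨K, hK⟩ := h.holder
  have h1 : (addr N ρ) '' (p ρ '' T) = Real.ofDigits '' T := by
    rw [image_image]
    apply image_congr
    intro a _
    exact h.addr_p a
  have h2 := (hK.mono (image_subset_range (p ρ) T)).hausdorffMeasure_image_le
    (Real.toNNReal_pos.2 h.hd) (d := 1) zero_le_one
  rw [h1, hausdorffMeasure_real, Real.coe_toNNReal d h.hd.le, mul_one, hT, mul_zero] at h2
  exact le_antisymm h2 (zero_le)

/-- the Cantor set has finite Hausdorff measure -/
lemma finite : μH[d] (range (p ρ : (ℕ → Fin N) → ℝ)) < ∞ := by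
  have hl := h.len_pos
  have hρ := h.pos
  have hbound : μH[d] (range (p ρ : (ℕ → Fin N) → ℝ)) ≤ ENNReal.ofReal (len N ρ ^ d) := by
    let ι : ℕ → Type := fun n => (Fin n → Fin N)
    let t : ∀ n, ι n → Set ℝ := fun n u =>
      {y | ∃ a : ℕ → Fin N, (∀ i : Fin n, a i = u i) ∧ p ρ a = y}
    have hdiam : ∀ n (u : ι n), Metric.ediam (t n u) ≤ ENNReal.ofReal (ρ ^ n * len N ρ) := by
      intro n u
      apply Metric.ediam_le
      rintro _ ⟨a, ha, rfl⟩ _ ⟨b, hb, rfl⟩
      rw [edist_dist, Real.dist_eq]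
      apply ENNReal.ofReal_le_ofReal
      apply h.abs_sub_le_of_prefix n
      intro i hi
      rw [ha ⟨i, hi⟩, hb ⟨i, hi⟩]
    have hr : Tendsto (fun n : ℕ => ENNReal.ofReal (ρ ^ n * len N ρ)) atTop (𝓝 0) := by
      rw [← ENNReal.ofReal_zero]
      apply ENNReal.tendsto_ofReal
      have := (tendsto_pow_atTop_nhds_zero_of_lt_one h.pos.le h.lt_one).mul_const (len N ρ)
      rwa [zero_mul] at this
    have h1 := hausdorffMeasure_le_liminf_sum d (range (p ρ : (ℕ → Fin N) → ℝ))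
      (fun n : ℕ => ENNReal.ofReal (ρ ^ n * len N ρ)) hr t (Eventually.of_forall hdiam)
      (Eventually.of_forall (fun n => by
        rintro _ ⟨a, rfl⟩
        exact mem_iUnion.2 ⟨fun i => a i, a, fun i => rfl, rfl⟩))
    refine h1.trans ?_
    have h2 : ∀ n : ℕ, ∑ u : ι n, Metric.ediam (t n u) ^ d ≤ ENNReal.ofReal (len N ρ ^ d) := by
      intro n
      calc ∑ u : ι n, Metric.ediam (t n u) ^ d ≤
            ∑ _u : ι n, ENNReal.ofReal (ρ ^ n * len N ρ) ^ d :=
            Finset.sum_le_sum fun u _ => ENNReal.rpow_le_rpow (hdiam n u) h.hd.le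
        _ = (N:ℝ≥0∞) ^ n * ENNReal.ofReal ((ρ ^ n * len N ρ) ^ d) := by
            rw [Finset.sum_const, Finset.card_univ, Fintype.card_fun, Fintype.card_fin,
              Fintype.card_fin, nsmul_eq_mul, ENNReal.ofReal_rpow_of_nonneg (by positivity)
              h.hd.le]
            push_cast
            rfl
        _ = ENNReal.ofReal (len N ρ ^ d) := by
            rw [Real.mul_rpow (by positivity) hl.le]
            have h3 : (ρ ^ n) ^ d = ((N:ℝ) ^ n)⁻¹ := by
              rw [← inv_pow, ← h.eq, ← Real.rpow_natCast, ← Real.rpow_natCast,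
                ← Real.rpow_mul h.pos.le, ← Real.rpow_mul h.pos.le, mul_comm]
            rw [h3]
            have h4 : (N:ℝ≥0∞) ^ n = ENNReal.ofReal ((N:ℝ) ^ n) := by
              rw [ENNReal.ofReal_pow h.N_pos.le, ENNReal.ofReal_natCast]
            rw [h4, ← ENNReal.ofReal_mul (by have := h.N_pos; positivity)]
            congr 1
            have := h.N_pos
            field_simp
    calc liminf (fun n => ∑ u : ι n, Metric.ediam (t n u) ^ d) atTop
        ≤ liminf (fun _ : ℕ => ENNReal.ofReal (len N ρ ^ d)) atTop :=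
          liminf_le_liminf (Eventually.of_forall h2)
      _ = _ := liminf_const _
  exact hbound.trans_lt ENNReal.ofReal_lt_top

omit h in
/-- the intersection of the Cantor set with a translate of the rescaled Cantor set -/
def F (N : ℕ) (ρ x : ℝ) : Set ℝ :=
  {y | (∃ a : ℕ → Fin N, p ρ a = y) ∧ ∃ b : ℕ → Fin N, p ρ b = N * (y - x)}

omit h in
/-- the admissible first digits -/
noncomputable def Adm (N : ℕ) (ρ x : ℝ) : Finset (Fin N × Fin N) := by
  classical
  exact Finset.univ.filter fun ab =>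
    N * (x - ((ab.1 : ℕ) : ℝ)) + ((ab.2 : ℕ) : ℝ) ∈ Icc (-(ρ * len N ρ)) (N * (ρ * len N ρ))

lemma F_subset (x : ℝ) : F N ρ x ⊆ ⋃ ab ∈ Adm N ρ x, (fun y => ((ab.1 : ℕ) : ℝ) + ρ * y) ''
    F N ρ ((x - ((ab.1 : ℕ) : ℝ) + ((ab.2 : ℕ) : ℝ) / N) / ρ) := by
  rintro y ⟨⟨a, rfl⟩, b, hb⟩
  have hN := h.N_pos
  have hρ := h.pos
  rw [h.p_succ a, h.p_succ b] at hb
  have h1 : p ρ (sh b) = N * (p ρ (sh a) - (x - ((a 0 : ℕ) : ℝ) + ((b 0 : ℕ) : ℝ) / N) / ρ) := by
    field_simp
    linarith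
  simp only [mem_iUnion]
  refine ⟨(a 0, b 0), ?_, p ρ (sh a), ⟨⟨sh a, rfl⟩, sh b, h1⟩, (h.p_succ a).symm⟩
  simp only [Adm, Finset.mem_filter, Finset.mem_univ, true_and, mem_Icc]
  have ha1 := h.p_nonneg (sh a)
  have ha2 := h.p_le (sh a)
  have hb1 := h.p_nonneg (sh b)
  have hb2 := h.p_le (sh b)
  have e1 : N * (x - ((a 0 : ℕ) : ℝ)) + ((b 0 : ℕ) : ℝ) = N * (ρ * p ρ (sh a)) - ρ * p ρ (sh b) := by
    linarith
  rw [e1]
  constructor
  · have : 0 ≤ N * (ρ * p ρ (sh a)) := by positivity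
    have : ρ * p ρ (sh b) ≤ ρ * len N ρ := mul_le_mul_of_nonneg_left hb2 hρ.le
    linarith
  · have : 0 ≤ ρ * p ρ (sh b) := by positivity
    have : N * (ρ * p ρ (sh a)) ≤ N * (ρ * len N ρ) :=
      mul_le_mul_of_nonneg_left (mul_le_mul_of_nonneg_left ha2 hρ.le) hN.le
    linarith

lemma card_Adm (x : ℝ) : (Adm N ρ x).card + 1 ≤ N := by
  classical
  have hN := h.N_pos
  have hρ := h.pos
  have hl := h.len_pos
  let f : Fin N × Fin N → ℤ := fun ab => N * ((ab.1 : ℕ) : ℤ) - ((ab.2 : ℕ) : ℤ)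
  have hinj : Set.InjOn f (Adm N ρ x : Set (Fin N × Fin N)) := by
    rintro ⟨a, b⟩ _ ⟨a', b'⟩ _ hab
    simp only [f] at hab
    have hb := b.2
    have hb' := b'.2
    have h1 : ((a:ℕ):ℤ) = ((a':ℕ):ℤ) := by
      by_contra hne
      have h2 : (N:ℤ) * (((a:ℕ):ℤ) - ((a':ℕ):ℤ)) = ((b:ℕ):ℤ) - ((b':ℕ):ℤ) := by linarith
      rcases lt_or_gt_of_ne hne with h3 | h3
      · have h4 : ((a:ℕ):ℤ) - ((a':ℕ):ℤ) ≤ -1 := by omega
        have h5 : (N:ℤ) * (((a:ℕ):ℤ) - ((a':ℕ):ℤ)) ≤ N * (-1) :=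
          mul_le_mul_of_nonneg_left h4 (by positivity)
        omega
      · have h4 : 1 ≤ ((a:ℕ):ℤ) - ((a':ℕ):ℤ) := by omega
        have h5 : (N:ℤ) * 1 ≤ N * (((a:ℕ):ℤ) - ((a':ℕ):ℤ)) :=
          mul_le_mul_of_nonneg_left h4 (by positivity)
        omega
    have h6 : ((b:ℕ):ℤ) = ((b':ℕ):ℤ) := by rw [h1] at hab; linarith
    have h7 : a = a' := Fin.ext (by exact_mod_cast h1)
    have h8 : b = b' := Fin.ext (by exact_mod_cast h6)
    rw [h7, h8]
  rw [← Finset.card_image_of_injOn hinj]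
  have hsub : (Adm N ρ x).image f ⊆
      Finset.Icc ⌈N * x - N * (ρ * len N ρ)⌉ ⌊N * x + ρ * len N ρ⌋ := by
    intro m hm
    obtain ⟨⟨a, b⟩, hab, rfl⟩ := Finset.mem_image.1 hm
    simp only [Adm, Finset.mem_filter, Finset.mem_univ, true_and, mem_Icc] at hab
    rw [Finset.mem_Icc, Int.ceil_le, Int.le_floor]
    simp only [f]
    push_cast
    constructor <;> linarith [hab.1, hab.2]
  have hcard := Finset.card_le_card hsub
  rw [Int.card_Icc] at hcard
  have h1 : ((⌊N * x + ρ * len N ρ⌋ + 1 - ⌈N * x - N * (ρ * len N ρ)⌉ : ℤ) : ℝ) < N := by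
    push_cast
    have h2 := Int.floor_le (N * x + ρ * len N ρ)
    have h3 := Int.le_ceil (N * x - N * (ρ * len N ρ))
    have h4 : (N + 1) * (ρ * len N ρ) + 1 < (N:ℝ) := by
      unfold len
      have h5 := h.lt_one
      have h6 := h.lt
      have h7 := h.N_ge
      rw [← mul_div_assoc, ← mul_div_assoc, ← lt_sub_iff_add_lt, div_lt_iff₀ (by linarith)]
      nlinarith
    linarith
  have h2 : ⌊N * x + ρ * len N ρ⌋ + 1 - ⌈N * x - N * (ρ * len N ρ)⌉ < (N:ℤ) := by exact_mod_cast h1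
  have h3 := h.hN
  omega

/-- the intersections are null -/
lemma F_null (x : ℝ) : μH[d] (F N ρ x) = 0 := by
  classical
  have hN := h.N_pos
  have hρ := h.pos
  let M : ℝ≥0∞ := ⨆ x, μH[d] (F N ρ x)
  have hM : M < ∞ := by
    refine lt_of_le_of_lt (iSup_le fun x => measure_mono ?_) h.finite
    rintro y ⟨⟨a, ha⟩, -⟩
    exact ⟨a, ha⟩
  have key : ∀ x, μH[d] (F N ρ x) ≤ ENNReal.ofReal (((N:ℝ) - 1) / N) * M := by
    intro x
    calc μH[d] (F N ρ x) ≤ μH[d] (⋃ ab ∈ Adm N ρ x, (fun y => ((ab.1 : ℕ) : ℝ) + ρ * y) ''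
          F N ρ ((x - ((ab.1 : ℕ) : ℝ) + ((ab.2 : ℕ) : ℝ) / N) / ρ)) :=
          measure_mono (h.F_subset x)
      _ ≤ ∑ ab ∈ Adm N ρ x, μH[d] ((fun y => ((ab.1 : ℕ) : ℝ) + ρ * y) ''
          F N ρ ((x - ((ab.1 : ℕ) : ℝ) + ((ab.2 : ℕ) : ℝ) / N) / ρ)) :=
          measure_biUnion_finset_le _ _
      _ ≤ ∑ _ab ∈ Adm N ρ x, ENNReal.ofReal ((N:ℝ)⁻¹) * M := by
          apply Finset.sum_le_sum
          intro ab _
          have hL : LipschitzWith ρ.toNNReal (fun y => ((ab.1 : ℕ) : ℝ) + ρ * y) := by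
            apply LipschitzWith.of_dist_le_mul
            intro y z
            rw [Real.coe_toNNReal ρ hρ.le, Real.dist_eq, Real.dist_eq, add_sub_add_left_eq_sub,
              ← mul_sub, abs_mul, abs_of_pos hρ]
          refine (hL.hausdorffMeasure_image_le h.hd.le _).trans ?_
          apply mul_le_mul' _ (le_iSup (fun x => μH[d] (F N ρ x)) _)
          have : ((ρ.toNNReal : ℝ≥0) : ℝ≥0∞) = ENNReal.ofReal ρ := rfl
          rw [this, ENNReal.ofReal_rpow_of_nonneg hρ.le h.hd.le, h.eq]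
      _ = (Adm N ρ x).card * (ENNReal.ofReal ((N:ℝ)⁻¹) * M) := by
          rw [Finset.sum_const, nsmul_eq_mul]
      _ ≤ ENNReal.ofReal (((N:ℝ) - 1) / N) * M := by
          rw [← mul_assoc]
          apply mul_le_mul' _ le_rfl
          rw [← ENNReal.ofReal_natCast, ← ENNReal.ofReal_mul (by positivity)]
          apply ENNReal.ofReal_le_ofReal
          rw [div_eq_mul_inv]
          apply mul_le_mul_of_nonneg_right _ (by positivity)
          have := h.card_Adm x
          have h2 : (((Adm N ρ x).card + 1 : ℕ) : ℝ) ≤ N := by exact_mod_cast this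
          push_cast at h2
          linarith
  have hMle : M ≤ ENNReal.ofReal (((N:ℝ) - 1) / N) * M := iSup_le key
  have hM0 : M = 0 := by
    by_contra hne
    have h1 : ENNReal.ofReal (((N:ℝ) - 1) / N) < 1 := by
      rw [← ENNReal.ofReal_one]
      apply (ENNReal.ofReal_lt_ofReal_iff one_pos).2
      rw [div_lt_one hN]
      linarith
    have h2 : ENNReal.ofReal (((N:ℝ) - 1) / N) * M < 1 * M :=
      (ENNReal.mul_lt_mul_iff_left hne hM.ne).2 h1
    rw [one_mul] at h2
    exact absurd hMle (not_le.2 h2)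
  have := le_iSup (fun x => μH[d] (F N ρ x)) x
  exact le_antisymm (this.trans (le_of_eq hM0)) (zero_le)

lemma continuous_p : Continuous (p ρ : (ℕ → Fin N) → ℝ) := by
  have hρ := h.pos
  refine continuous_tsum (u := fun k => (N:ℝ) * ρ ^ k) (fun k => ?_)
    ((summable_geometric_of_lt_one h.pos.le h.lt_one).mul_left (N:ℝ)) (fun k a => ?_)
  · have h1 : Continuous (fun c : Fin N => ((c : ℕ) : ℝ)) := continuous_of_discreteTopology
    exact (h1.comp (continuous_apply k)).mul continuous_const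
  · rw [Real.norm_of_nonneg (by positivity)]
    apply mul_le_mul_of_nonneg_right _ (by positivity)
    exact_mod_cast (a k).2.le

end Par

/-- existence of suitable parameters -/
lemma exists_par {d : ℝ} (hd : 0 < d) (hd1 : d < 1) : ∃ (N : ℕ) (ρ : ℝ), Par N ρ d := by
  have h1d : 1 < 1 / d := by rw [lt_div_iff₀ hd]; linarith
  -- `(N + 2) * N ^ (-1/d) → 0`
  have hlim : Tendsto (fun N : ℕ => ((N:ℝ) + 2) * ((N:ℝ) ^ (1 / d))⁻¹) atTop (𝓝 0) := by
    have h1 : Tendsto (fun x : ℝ => x ^ (-(1 / d - 1))) atTop (𝓝 0) :=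
      tendsto_rpow_neg_atTop (by linarith)
    have h2 : Tendsto (fun x : ℝ => x ^ (-(1 / d))) atTop (𝓝 0) :=
      tendsto_rpow_neg_atTop (by linarith)
    have h3 : Tendsto (fun x : ℝ => x ^ (-(1 / d - 1)) + 2 * x ^ (-(1 / d))) atTop (𝓝 (0 + 2 * 0)) :=
      h1.add (h2.const_mul 2)
    have h4 := h3.comp tendsto_natCast_atTop_atTop
    rw [mul_zero, add_zero] at h4
    refine h4.congr' ?_
    filter_upwards [eventually_ge_atTop 1] with N hN
    have hN0 : (0:ℝ) < N := by exact_mod_cast hN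
    simp only [Function.comp_apply]
    rw [Real.rpow_neg hN0.le, Real.rpow_neg hN0.le, Real.rpow_sub hN0, Real.rpow_one, inv_div]
    ring
  have hev : ∀ᶠ N : ℕ in atTop, ((N:ℝ) + 2) * ((N:ℝ) ^ (1 / d))⁻¹ < 1 :=
    hlim.eventually_lt_const one_pos
  obtain ⟨N, hN, hN2⟩ := (hev.and (eventually_ge_atTop 2)).exists
  have hN0 : (0:ℝ) < N := by positivity
  refine ⟨N, ((N:ℝ) ^ (1 / d))⁻¹, hN2, by positivity, hN, hd, hd1, ?_⟩
  rw [Real.inv_rpow (by positivity), ← Real.rpow_mul hN0.le, one_div, inv_mul_cancel₀ hd.ne',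
    Real.rpow_one]

namespace Par

variable (h : Par N ρ d)

omit h in
/-- the scaling factor -/
noncomputable def lam (N : ℕ) (ρ : ℝ) : ℝ := (2 * len N ρ)⁻¹

omit h in
/-- the scaling map into `[0,1]` -/
noncomputable def emb (N : ℕ) (ρ : ℝ) (y : ℝ) : Icc (0:ℝ) 1 :=
  projIcc 0 1 zero_le_one (lam N ρ * y)

include h

lemma lam_pos : 0 < lam N ρ := by
  unfold lam
  have := h.len_pos
  positivity

lemma emb_lip (c : ℝ) : LipschitzWith (lam N ρ).toNNReal (fun y => emb N ρ (y + c)) := by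
  apply LipschitzWith.of_dist_le_mul
  intro y z
  have h1 := (LipschitzWith.projIcc (zero_le_one (α := ℝ))).dist_le_mul (lam N ρ * (y + c))
    (lam N ρ * (z + c))
  rw [NNReal.coe_one, one_mul] at h1
  refine h1.trans ?_
  rw [Real.coe_toNNReal _ h.lam_pos.le, Real.dist_eq, Real.dist_eq, ← mul_sub, abs_mul,
    abs_of_pos h.lam_pos]
  have : y + c - (z + c) = y - z := by ring
  rw [this]

lemma emb_val {y : ℝ} (h0 : 0 ≤ y) (h1 : y ≤ 2 * len N ρ) : (emb N ρ y : ℝ) = lam N ρ * y := by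
  unfold emb
  have hl := h.len_pos
  rw [projIcc_of_mem]
  constructor
  · have := h.lam_pos; positivity
  · unfold lam
    rw [inv_mul_le_iff₀ (by positivity), mul_one]
    exact h1

omit h in
/-- the grid points -/
noncomputable def g (ρ : ℝ) (a b : ℕ → Fin N) : Icc (0:ℝ) 1 := emb N ρ (p ρ a + p ρ b / N)

lemma g_bounds (a b : ℕ → Fin N) : 0 ≤ p ρ a + p ρ b / N ∧ p ρ a + p ρ b / N ≤ 2 * len N ρ := by
  have hN := h.N_pos
  have hN2 := h.N_ge
  have h1 := h.p_nonneg a
  have h2 := h.p_nonneg b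
  have h3 := h.p_le a
  have h4 := h.p_le b
  constructor
  · positivity
  · have : p ρ b / N ≤ p ρ b := div_le_self h2 (by linarith)
    linarith

lemma g_val (a b : ℕ → Fin N) : (g ρ a b : ℝ) = lam N ρ * (p ρ a + p ρ b / N) :=
  h.emb_val (h.g_bounds a b).1 (h.g_bounds a b).2

omit h in
/-- vertical slices -/
def V (ρ : ℝ) (b : ℕ → Fin N) : Set (Icc (0:ℝ) 1) := range fun a => g ρ a b

omit h in
/-- horizontal slices -/
def H (ρ : ℝ) (a : ℕ → Fin N) : Set (Icc (0:ℝ) 1) := range fun b => g ρ a b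

lemma continuous_g_left (b : ℕ → Fin N) : Continuous fun a : ℕ → Fin N => g ρ a b := by
  have h1 := h.continuous_p
  unfold g emb
  exact continuous_projIcc.comp (continuous_const.mul (h1.add continuous_const))

lemma continuous_g_right (a : ℕ → Fin N) : Continuous fun b : ℕ → Fin N => g ρ a b := by
  have h1 := h.continuous_p
  unfold g emb
  exact continuous_projIcc.comp (continuous_const.mul (continuous_const.add (h1.div_const _)))

lemma V_meas (b : ℕ → Fin N) : MeasurableSet (V ρ b) :=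
  (isCompact_range (h.continuous_g_left b)).isClosed.measurableSet

lemma H_meas (a : ℕ → Fin N) : MeasurableSet (H ρ a) :=
  (isCompact_range (h.continuous_g_right a)).isClosed.measurableSet

/-- Lipschitz images of finite sets have finite measure -/
lemma finite_image {X : Type} [MetricSpace X] [MeasurableSpace X] [BorelSpace X] {K : ℝ≥0}
    {f : ℝ → X} (hf : LipschitzWith K f) :
    μH[d] (f '' range (p ρ : (ℕ → Fin N) → ℝ)) < ∞ := by
  refine (hf.hausdorffMeasure_image_le h.hd.le _).trans_lt ?_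
  exact ENNReal.mul_lt_top (ENNReal.rpow_lt_top_of_nonneg h.hd.le ENNReal.coe_ne_top) h.finite

lemma V_finite (b : ℕ → Fin N) : μH[d] (V ρ b) < ∞ := by
  have h1 : V ρ b = (fun y => emb N ρ (y + p ρ b / N)) '' range (p ρ : (ℕ → Fin N) → ℝ) := by
    unfold V g
    rw [← range_comp]
    rfl
  rw [h1]
  exact h.finite_image (h.emb_lip _)

lemma H_finite (a : ℕ → Fin N) : μH[d] (H ρ a) < ∞ := by
  have hN := h.N_pos
  have hdiv : LipschitzWith ((N:ℝ)⁻¹).toNNReal (fun y : ℝ => y / N) := by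
    apply LipschitzWith.of_dist_le_mul
    intro y z
    rw [Real.coe_toNNReal _ (by positivity), Real.dist_eq, Real.dist_eq, ← sub_div, abs_div,
      abs_of_pos hN, div_eq_inv_mul]
  have h1 : H ρ a = ((fun y => emb N ρ (y + p ρ a)) ∘ (fun y : ℝ => y / N)) ''
      range (p ρ : (ℕ → Fin N) → ℝ) := by
    unfold H g
    rw [← range_comp]
    congr 1
    funext b
    simp only [Function.comp_apply]
    rw [add_comm]
  rw [h1]
  exact h.finite_image ((h.emb_lip _).comp hdiv)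

lemma VH_null (a b : ℕ → Fin N) : μH[d] (V ρ b ∩ H ρ a) = 0 := by
  have hN := h.N_pos
  have hlam := h.lam_pos
  have hsub : V ρ b ∩ H ρ a ⊆ (fun y => emb N ρ (y + p ρ b / N)) '' F N ρ (p ρ a - p ρ b / N) := by
    rintro x ⟨⟨a', rfl⟩, ⟨b', hb'⟩⟩
    refine ⟨p ρ a', ⟨⟨a', rfl⟩, b', ?_⟩, rfl⟩
    have h1 := congrArg (Subtype.val) hb'
    simp only at h1
    rw [h.g_val, h.g_val] at h1
    have h2 := mul_left_cancel₀ hlam.ne' h1
    field_simp at h2 ⊢
    linarith
  apply measure_mono_null hsub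
  have h2 := (h.emb_lip (p ρ b / N)).hausdorffMeasure_image_le h.hd.le (F N ρ (p ρ a - p ρ b / N))
  rw [h.F_null, mul_zero] at h2
  exact le_antisymm h2 (zero_le)

lemma null_left (T : Set (ℕ → Fin N)) (b : ℕ → Fin N)
    (hT : μH[d] ((fun a => g ρ a b) '' T) = 0) : volume (Real.ofDigits '' T) = 0 := by
  apply h.null_of_null
  have hlam := h.lam_pos
  have hL : LipschitzWith ((lam N ρ)⁻¹).toNNReal
      (fun x : Icc (0:ℝ) 1 => (x:ℝ) / lam N ρ - p ρ b / N) := by
    apply LipschitzWith.of_dist_le_mul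
    intro y z
    rw [Real.coe_toNNReal _ (by positivity), Real.dist_eq, sub_sub_sub_cancel_right, ← sub_div,
      abs_div, abs_of_pos hlam, div_eq_inv_mul]
    rfl
  have himg : p ρ '' T = (fun x : Icc (0:ℝ) 1 => (x:ℝ) / lam N ρ - p ρ b / N) ''
      ((fun a => g ρ a b) '' T) := by
    rw [image_image]
    apply image_congr
    intro a _
    rw [h.g_val, mul_div_cancel_left₀ _ hlam.ne']
    ring
  have h2 := hL.hausdorffMeasure_image_le h.hd.le ((fun a => g ρ a b) '' T)
  rw [← himg, hT, mul_zero] at h2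
  exact le_antisymm h2 (zero_le)

lemma null_right (T : Set (ℕ → Fin N)) (a : ℕ → Fin N)
    (hT : μH[d] ((fun b => g ρ a b) '' T) = 0) : volume (Real.ofDigits '' T) = 0 := by
  apply h.null_of_null
  have hlam := h.lam_pos
  have hN := h.N_pos
  have hL : LipschitzWith ((N:ℝ) * (lam N ρ)⁻¹).toNNReal
      (fun x : Icc (0:ℝ) 1 => (N:ℝ) * ((x:ℝ) / lam N ρ - p ρ a)) := by
    apply LipschitzWith.of_dist_le_mul
    intro y z
    rw [Real.coe_toNNReal _ (by positivity), Real.dist_eq, ← mul_sub, sub_sub_sub_cancel_right,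
      ← sub_div, abs_mul, abs_div, abs_of_pos hlam, abs_of_pos hN, div_eq_inv_mul, ← mul_assoc]
    rfl
  have himg : p ρ '' T = (fun x : Icc (0:ℝ) 1 => (N:ℝ) * ((x:ℝ) / lam N ρ - p ρ a)) ''
      ((fun b => g ρ a b) '' T) := by
    rw [image_image]
    apply image_congr
    intro b _
    rw [h.g_val, mul_div_cancel_left₀ _ hlam.ne']
    field_simp
    ring
  have h2 := hL.hausdorffMeasure_image_le h.hd.le ((fun b => g ρ a b) '' T)
  rw [← himg, hT, mul_zero] at h2
  exact le_antisymm h2 (zero_le)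

end Par

end Pool.Agent.H52.SL
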