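import Mathlib

set_option autoImplicit false

namespace Pool.Agent.H52.SR

open Finset

/-- Greedy colouring for a symmetric relation with bounded conflict number. -/
theorem greedy {V : Type} [Fintype V] [DecidableEq V] (Cf : V → V → Prop) [DecidableRel Cf]
    (hs : ∀ v w, Cf v w → Cf w v) (K : ℕ) (hK : ∀ v, (univ.filter (Cf v)).card < K) :
    ∃ c : V → Fin K, ∀ v w, v ≠ w → Cf v w → c v ≠ c w := by
  have key : ∀ s : Finset V, ∃ c : V → Fin K, ∀ v ∈ s, ∀ w ∈ s, v ≠ w → Cf v w → c v ≠ c w := by
    intro s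
    induction s using Finset.induction_on with
    | empty =>
      exact ⟨fun v => ⟨0, lt_of_le_of_lt (Nat.zero_le _) (hK v)⟩, by simp⟩
    | insert a s ha ih =>
      obtain ⟨c, hc⟩ := ih
      have h1 : ((univ.filter (Cf a)).image c).card < (univ : Finset (Fin K)).card := by
        rw [Finset.card_univ, Fintype.card_fin]
        exact lt_of_le_of_lt Finset.card_image_le (hK a)
      obtain ⟨x, -, hx⟩ := Finset.exists_mem_notMem_of_card_lt_card h1
      have hx' : ∀ w, Cf a w → c w ≠ x := by
        intro w hw h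
        exact hx (Finset.mem_image.mpr ⟨w, by simp [hw], h⟩)
      refine ⟨Function.update c a x, ?_⟩
      intro v hv w hw hvw hcf
      by_cases h1 : v = a
      · subst h1
        have h2 : w ≠ v := fun h => hvw h.symm
        rw [Function.update_self, Function.update_of_ne h2]
        exact (hx' w hcf).symm
      · by_cases h2 : w = a
        · subst h2
          rw [Function.update_self, Function.update_of_ne h1]
          exact hx' v (hs _ _ hcf)
        · rw [Function.update_of_ne h1, Function.update_of_ne h2]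
          exact hc v (Finset.mem_of_mem_insert_of_ne hv h1) w
            (Finset.mem_of_mem_insert_of_ne hw h2) hvw hcf
  obtain ⟨c, hc⟩ := key univ
  exact ⟨c, fun v w => hc v (mem_univ _) w (mem_univ _)⟩

/-- Even distribution of a finite set over at least `M` labels. -/
theorem equitable {Q Λ : Type} [DecidableEq Q] [DecidableEq Λ] (Z : Finset Q) (A : Finset Λ)
    (M : ℕ) (hM : 0 < M) (hA : M ≤ A.card) :
    ∃ h : Q → Λ, (∀ q ∈ Z, h q ∈ A) ∧
      ∀ x, (Z.filter (fun q => h q = x)).card * M ≤ Z.card + M := by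
  obtain ⟨A', hA', hcard⟩ := Finset.exists_subset_card_eq hA
  let e := A'.equivFinOfCardEq hcard
  let idx : Q → ℕ := fun q => if hq : q ∈ Z then (Z.equivFin ⟨q, hq⟩ : ℕ) else 0
  have hidx : ∀ q ∈ Z, idx q < Z.card := by
    intro q hq
    simp only [idx, hq, dif_pos]
    exact (Z.equivFin ⟨q, hq⟩).2
  have hidxinj : ∀ q ∈ Z, ∀ q' ∈ Z, idx q = idx q' → q = q' := by
    intro q hq q' hq' h
    simp only [idx, hq, hq', dif_pos] at h
    have := Z.equivFin.injective (Fin.ext h)
    exact congrArg Subtype.val this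
  refine ⟨fun q => (e.symm ⟨idx q % M, Nat.mod_lt _ hM⟩ : Λ), ?_, ?_⟩
  · intro q _
    exact hA' (e.symm _).2
  · intro x
    have h1 : (Z.filter (fun q => (e.symm ⟨idx q % M, Nat.mod_lt _ hM⟩ : Λ) = x)).card
        ≤ (Finset.range (Z.card / M + 1)).card := by
      apply Finset.card_le_card_of_injOn (fun q => idx q / M)
      · intro q hq
        simp only [Finset.coe_filter, Set.mem_ofPred_eq] at hq
        simp only [Finset.coe_range, Set.mem_Iio]
        have := hidx q hq.1
        exact Nat.lt_succ_of_le (Nat.div_le_div_right this.le)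
      · intro q hq q' hq' h
        simp only [Finset.coe_filter, Set.mem_ofPred_eq] at hq hq'
        have h3 : (e.symm ⟨idx q % M, Nat.mod_lt _ hM⟩ : Λ) = e.symm ⟨idx q' % M, Nat.mod_lt _ hM⟩ := by
          rw [hq.2, hq'.2]
        have h4 := e.symm.injective (Subtype.ext h3)
        have h5 : idx q % M = idx q' % M := by
          simpa using congrArg Fin.val h4
        have h6 : idx q / M = idx q' / M := h
        apply hidxinj q hq.1 q' hq'.1
        rw [← Nat.div_add_mod (idx q) M, ← Nat.div_add_mod (idx q') M, h5, h6]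
    rw [Finset.card_range] at h1
    calc _ ≤ (Z.card / M + 1) * M := Nat.mul_le_mul_right _ h1
      _ = Z.card / M * M + M := by ring
      _ ≤ Z.card + M := by
        have := Nat.div_mul_le_self Z.card M
        omega

/-- One stage of the labelling. -/
theorem stage {V Q S : Type} [Fintype V] [DecidableEq V] [Fintype Q] [DecidableEq Q]
    [Fintype S] [DecidableEq S] (o : V → Q) (st : V → S) (M D : ℕ) (hM : 0 < M)
    (al : S → Finset (Fin (2 * M)))
    (hal : ∀ v, (al (st v))ᶜ.card * D < M)
    (hfib : ∀ q, (univ.filter (fun v => o v = q)).card ≤ D)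
    (hinj : ∀ v w, o v = o w → st v = st w → v = w) :
    ∃ ℓ : V → Fin (2 * M), (∀ v w, o v = o w → ℓ v = ℓ w) ∧ (∀ v, ℓ v ∈ al (st v)) ∧
      ∀ s x, (univ.filter (fun v => st v = s ∧ ℓ v = x)).card * M ≤
        (univ.filter (fun v => st v = s)).card + 2 ^ (Fintype.card S) * M := by
  classical
  -- profile of a class
  let P : Q → Finset S := fun q => (univ.filter (fun v => o v = q)).image st
  -- allowed labels of a profile
  let A : Finset S → Finset (Fin (2 * M)) := fun p => univ.filter (fun x => ∀ s ∈ p, x ∈ al s)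
  let Z : Finset S → Finset Q := fun p => univ.filter (fun q => P q = p ∧ ∃ v, o v = q)
  have hAcard : ∀ v, M ≤ (A (P (o v))).card := by
    intro v
    have h1 : (A (P (o v)))ᶜ ⊆ (P (o v)).biUnion (fun s => (al s)ᶜ) := by
      intro x hx
      simp only [A, Finset.mem_compl, Finset.mem_filter, Finset.mem_univ, true_and] at hx
      push Not at hx
      obtain ⟨s, hs, hxs⟩ := hx
      exact Finset.mem_biUnion.mpr ⟨s, hs, by simpa using hxs⟩
    have h2 : ((A (P (o v)))ᶜ).card ≤ ∑ s ∈ P (o v), ((al s)ᶜ).card :=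
      (Finset.card_le_card h1).trans Finset.card_biUnion_le
    have h3 : ∀ s ∈ P (o v), ((al s)ᶜ).card * D ≤ M - 1 := by
      intro s hs
      simp only [P, Finset.mem_image, Finset.mem_filter, Finset.mem_univ, true_and] at hs
      obtain ⟨w, _, rfl⟩ := hs
      have := hal w
      omega
    have h4 : (P (o v)).card ≤ D := (Finset.card_image_le).trans (hfib _)
    have h5 : (∑ s ∈ P (o v), ((al s)ᶜ).card) * D ≤ D * (M - 1) := by
      rw [Finset.sum_mul]
      calc _ ≤ ∑ s ∈ P (o v), (M - 1) := Finset.sum_le_sum h3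
        _ = (P (o v)).card * (M - 1) := by simp
        _ ≤ D * (M - 1) := Nat.mul_le_mul_right _ h4
    have hDpos : 0 < D := by
      have : 0 < (univ.filter (fun w => o w = o v)).card :=
        Finset.card_pos.mpr ⟨v, by simp⟩
      exact lt_of_lt_of_le this (hfib _)
    have h6 : ((A (P (o v)))ᶜ).card ≤ M - 1 := by
      apply Nat.le_of_mul_le_mul_right _ hDpos
      calc _ ≤ (∑ s ∈ P (o v), ((al s)ᶜ).card) * D := Nat.mul_le_mul_right _ h2
        _ ≤ D * (M - 1) := h5
        _ = (M - 1) * D := by ring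
    have h7 := Finset.card_compl_add_card (A (P (o v)))
    rw [Fintype.card_fin] at h7
    omega
  have hex : ∀ p : Finset S, ∃ h : Q → Fin (2 * M), (∀ q ∈ Z p, h q ∈ A p) ∧
      ∀ x, ((Z p).filter (fun q => h q = x)).card * M ≤ (Z p).card + M := by
    intro p
    by_cases hp : (Z p).Nonempty
    · obtain ⟨q, hq⟩ := hp
      simp only [Z, Finset.mem_filter, Finset.mem_univ, true_and] at hq
      obtain ⟨h1, v, rfl⟩ := hq
      apply equitable (Z p) (A p) M hM
      rw [← h1]
      exact hAcard v
    · rw [Finset.not_nonempty_iff_eq_empty] at hp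
      refine ⟨fun _ => ⟨0, by omega⟩, ?_, ?_⟩
      · intro q hq
        rw [hp] at hq
        simp at hq
      · intro x
        rw [hp]
        simp
  choose h hh1 hh2 using hex
  refine ⟨fun v => h (P (o v)) (o v), ?_, ?_, ?_⟩
  · intro v w hvw
    simp only [hvw]
  · intro v
    have h1 : h (P (o v)) (o v) ∈ A (P (o v)) := by
      apply hh1
      simp only [Z, Finset.mem_filter, Finset.mem_univ, true_and]
      exact ⟨v, rfl⟩
    simp only [A, Finset.mem_filter, Finset.mem_univ, true_and] at h1
    apply h1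
    simp only [P, Finset.mem_image, Finset.mem_filter, Finset.mem_univ, true_and]
    exact ⟨v, rfl, rfl⟩
  · intro s x
    -- classes containing a vertex of state s with label x
    have h1 : (univ.filter (fun v => st v = s ∧ h (P (o v)) (o v) = x)).card ≤
        ((univ.filter (fun p : Finset S => s ∈ p)).biUnion
          (fun p => (Z p).filter (fun q => h p q = x))).card := by
      apply Finset.card_le_card_of_injOn o
      · intro v hv
        simp only [Finset.coe_filter, Finset.mem_univ, true_and, Set.mem_ofPred_eq] at hv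
        simp only [Finset.coe_biUnion, Finset.coe_filter, Set.mem_iUnion, Finset.mem_univ,
          true_and, Set.mem_ofPred_eq]
        refine ⟨P (o v), ?_, ?_, hv.2⟩
        · simp only [P, Finset.mem_image, Finset.mem_filter, Finset.mem_univ, true_and]
          exact ⟨v, rfl, hv.1⟩
        · simp only [Z, Finset.mem_filter, Finset.mem_univ, true_and]
          exact ⟨v, rfl⟩
      · intro v hv w hw hvw
        simp only [Finset.coe_filter, Finset.mem_univ, true_and, Set.mem_ofPred_eq] at hv hw
        exact hinj v w hvw (hv.1.trans hw.1.symm)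
    have h2 : ((univ.filter (fun p : Finset S => s ∈ p)).biUnion
          (fun p => (Z p).filter (fun q => h p q = x))).card ≤
        ∑ p ∈ univ.filter (fun p : Finset S => s ∈ p), ((Z p).filter (fun q => h p q = x)).card :=
      Finset.card_biUnion_le
    have h3 : (∑ p ∈ univ.filter (fun p : Finset S => s ∈ p),
        ((Z p).filter (fun q => h p q = x)).card) * M ≤
        ∑ p ∈ univ.filter (fun p : Finset S => s ∈ p), ((Z p).card + M) := by
      rw [Finset.sum_mul]
      exact Finset.sum_le_sum (fun p _ => hh2 p x)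
    have h4 : ∑ p ∈ univ.filter (fun p : Finset S => s ∈ p), (Z p).card ≤
        (univ.filter (fun v => st v = s)).card := by
      rw [← Finset.card_biUnion]
      · have hsub : (univ.filter (fun p : Finset S => s ∈ p)).biUnion Z ⊆
            (univ.filter (fun v => st v = s)).image o := by
          intro q hq
          simp only [Finset.mem_biUnion, Finset.mem_filter, Finset.mem_univ, true_and, Z] at hq
          obtain ⟨p, hsp, hPq, _⟩ := hq
          rw [← hPq] at hsp
          simp only [P, Finset.mem_image, Finset.mem_filter, Finset.mem_univ, true_and] at hsp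
          obtain ⟨v, hv1, hv2⟩ := hsp
          exact Finset.mem_image.mpr ⟨v, by simp [hv2], hv1⟩
        exact (Finset.card_le_card hsub).trans Finset.card_image_le
      · intro p _ p' _ hpp'
        rw [Function.onFun, Finset.disjoint_left]
        intro q hq hq'
        simp only [Z, Finset.mem_filter, Finset.mem_univ, true_and] at hq hq'
        exact hpp' (hq.1.symm.trans hq'.1)
    have h5 : ∑ p ∈ univ.filter (fun p : Finset S => s ∈ p), M ≤ 2 ^ (Fintype.card S) * M := by
      rw [Finset.sum_const, smul_eq_mul]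
      apply Nat.mul_le_mul_right
      calc _ ≤ (univ : Finset (Finset S)).card := Finset.card_le_card (Finset.filter_subset _ _)
        _ = 2 ^ (Fintype.card S) := by simp
    calc _ ≤ (∑ p ∈ univ.filter (fun p : Finset S => s ∈ p),
        ((Z p).filter (fun q => h p q = x)).card) * M := Nat.mul_le_mul_right _ (h1.trans h2)
      _ ≤ ∑ p ∈ univ.filter (fun p : Finset S => s ∈ p), ((Z p).card + M) := h3
      _ = ∑ p ∈ univ.filter (fun p : Finset S => s ∈ p), (Z p).card +
          ∑ p ∈ univ.filter (fun p : Finset S => s ∈ p), M := Finset.sum_add_distrib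
      _ ≤ _ := Nat.add_le_add h4 h5


open Classical in
/-- Number of bad completions of the first `i` coordinates of `σ`. -/
noncomputable def bc {K L : ℕ} (Bad : (Fin K → Fin L) → Prop) (i : ℕ) (σ : Fin K → Fin L) : ℕ :=
  (univ.filter (fun τ : Fin K → Fin L => Bad τ ∧ ∀ j : Fin K, (j : ℕ) < i → τ j = σ j)).card

theorem bc_pos {K L : ℕ} (Bad : (Fin K → Fin L) → Prop) (i : ℕ) (σ : Fin K → Fin L)
    (h : Bad σ) : 0 < bc Bad i σ := by
  unfold bc
  exact Finset.card_pos.mpr ⟨σ, by simp [h]⟩

theorem bc_sum {K L : ℕ} (Bad : (Fin K → Fin L) → Prop) (i : Fin K) (σ : Fin K → Fin L) :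
    ∑ x, bc Bad (i + 1) (Function.update σ i x) = bc Bad i σ := by
  classical
  unfold bc
  rw [Finset.card_eq_sum_card_fiberwise (f := fun τ : Fin K → Fin L => τ i) (t := univ)
    (fun _ _ => Finset.mem_coe.mpr (mem_univ _))]
  apply Finset.sum_congr rfl
  intro x _
  congr 1
  ext τ
  simp only [Finset.mem_filter, Finset.mem_univ, true_and]
  constructor
  · rintro ⟨h1, h2⟩
    refine ⟨⟨h1, ?_⟩, ?_⟩
    · intro j hj
      have hne : j ≠ i := by
        rintro rfl
        exact lt_irrefl _ hj
      rw [h2 j (by omega), Function.update_of_ne hne]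
    · rw [h2 i (by omega), Function.update_self]
  · rintro ⟨⟨h1, h2⟩, h3⟩
    refine ⟨h1, ?_⟩
    intro j hj
    by_cases hji : j = i
    · subst hji
      rw [Function.update_self, h3]
    · rw [Function.update_of_ne hji]
      apply h2
      have : (j : ℕ) ≠ i := fun h => hji (Fin.ext h)
      omega

theorem markov {K L T : ℕ} (Bad : (Fin K → Fin L) → Prop) (i : Fin K) (σ : Fin K → Fin L)
    (h : bc Bad i σ * T ^ (K - i) < L ^ (K - i)) :
    (univ.filter (fun x => ¬ (bc Bad (i + 1) (Function.update σ i x) * T ^ (K - (i + 1)) <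
      L ^ (K - (i + 1))))).card * T < L := by
  have hi := i.2
  obtain ⟨E, hE⟩ : ∃ E, K - (i + 1) = E := ⟨_, rfl⟩
  have hE' : K - (i : ℕ) = E + 1 := by omega
  rw [hE'] at h
  rw [hE]
  set X := univ.filter (fun x => ¬ (bc Bad (i + 1) (Function.update σ i x) * T ^ E < L ^ E)) with hX
  have h1 : X.card * L ^ E ≤ bc Bad i σ * T ^ E := by
    rw [← bc_sum, Finset.sum_mul]
    calc X.card * L ^ E = ∑ x ∈ X, L ^ E := by simp
      _ ≤ ∑ x ∈ X, bc Bad (i + 1) (Function.update σ i x) * T ^ E := by
        apply Finset.sum_le_sum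
        intro x hx
        simp only [hX, Finset.mem_filter, Finset.mem_univ, true_and, not_lt] at hx
        exact hx
      _ ≤ ∑ x, bc Bad (i + 1) (Function.update σ i x) * T ^ E :=
        Finset.sum_le_sum_of_subset (Finset.subset_univ _)
  have h2 : X.card * T * L ^ E < L * L ^ E := by
    calc X.card * T * L ^ E = (X.card * L ^ E) * T := by ring
      _ ≤ (bc Bad i σ * T ^ E) * T := Nat.mul_le_mul_right _ h1
      _ = bc Bad i σ * T ^ (E + 1) := by ring
      _ < L ^ (E + 1) := h
      _ = L * L ^ E := by ring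
  exact lt_of_mul_lt_mul_right h2 (Nat.zero_le _)

/-- All stages of the labelling. -/
theorem iterate {V : Type} [Fintype V] [DecidableEq V] (K M D : ℕ) (hM : 2 ≤ M)
    (c : V → Fin K) {Q : Type} [Fintype Q] [DecidableEq Q] (o : Fin K → V → Q)
    (hfib : ∀ i q, (univ.filter (fun v => o i v = q)).card ≤ D)
    (hinj : ∀ i v w, o i v = o i w → c v = c w → v = w)
    (Bad : Fin K → (Fin K → Fin (2 * M)) → Prop)
    (hBad : ∀ k, bc (Bad k) 0 (fun _ => ⟨0, by omega⟩) * (2 * D) ^ K < (2 * M) ^ K) :
    ∀ i ≤ K, ∃ f : V → Fin K → Fin (2 * M),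
      (∀ j : Fin K, (j : ℕ) < i → ∀ v w, o j v = o j w → f v j = f w j) ∧
      (∀ v (j : Fin K), i ≤ (j : ℕ) → f v j = ⟨0, by omega⟩) ∧
      (∀ v, bc (Bad (c v)) i (f v) * (2 * D) ^ (K - i) < (2 * M) ^ (K - i)) ∧
      ∀ k σ, ((univ.filter (fun v => c v = k ∧ f v = σ)).card : ℝ) ≤
        Fintype.card V / (M : ℝ) ^ i + 2 * 2 ^ (K * (2 * M) ^ K) := by
  intro i
  induction i with
  | zero =>
    intro _
    refine ⟨fun _ _ => ⟨0, by omega⟩, ?_, ?_, ?_, ?_⟩
    · intro j hj
      omega
    · intro v j _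
      rfl
    · intro v
      simpa using hBad (c v)
    · intro k σ
      have : ((univ.filter (fun v => c v = k ∧ (fun _ => ⟨0, by omega⟩ : Fin K → Fin (2 * M)) = σ)).card : ℝ)
          ≤ Fintype.card V := by
        exact_mod_cast Finset.card_le_univ _
      have h2 : (0 : ℝ) ≤ 2 * 2 ^ (K * (2 * M) ^ K) := by positivity
      simp only [pow_zero, div_one]
      linarith
  | succ i ih =>
    intro hi
    obtain ⟨f, h1, h2, h3, h4⟩ := ih (by omega)
    let ι : Fin K := ⟨i, by omega⟩
    let al : Fin K × (Fin K → Fin (2 * M)) → Finset (Fin (2 * M)) := fun s =>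
      univ.filter (fun x => bc (Bad s.1) (i + 1) (Function.update s.2 ι x) * (2 * D) ^ (K - (i + 1)) <
        (2 * M) ^ (K - (i + 1)))
    have hal : ∀ v, (al (c v, f v))ᶜ.card * D < M := by
      intro v
      have := markov (T := 2 * D) (Bad (c v)) ι (f v) (h3 v)
      have heq : (al (c v, f v))ᶜ = univ.filter (fun x => ¬ (bc (Bad (c v)) ((ι : ℕ) + 1)
          (Function.update (f v) ι x) * (2 * D) ^ (K - ((ι : ℕ) + 1)) <
            (2 * M) ^ (K - ((ι : ℕ) + 1)))) := by
        ext x
        simp [al, ι]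
      rw [heq]
      nlinarith
    obtain ⟨ℓ, g1, g2, g3⟩ := stage (o ι) (fun v => (c v, f v)) M D (by omega) al hal (hfib ι)
      (fun v w hvw hst => hinj ι v w hvw (congrArg Prod.fst hst))
    refine ⟨fun v => Function.update (f v) ι (ℓ v), ?_, ?_, ?_, ?_⟩
    · intro j hj v w hvw
      by_cases hji : j = ι
      · subst hji
        simp only [Function.update_self]
        exact g1 v w hvw
      · show Function.update (f v) ι (ℓ v) j = Function.update (f w) ι (ℓ w) j
        rw [Function.update_of_ne hji, Function.update_of_ne hji]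
        apply h1 j _ v w hvw
        have : (j : ℕ) ≠ i := fun h => hji (Fin.ext h)
        omega
    · intro v j hj
      have hji : j ≠ ι := by
        rintro rfl
        simp only [ι] at hj
        omega
      show Function.update (f v) ι (ℓ v) j = _
      rw [Function.update_of_ne hji]
      exact h2 v j (by omega)
    · intro v
      have := g2 v
      simp only [al, Finset.mem_filter, Finset.mem_univ, true_and] at this
      exact this
    · intro k σ
      have e1 : (univ.filter (fun v => c v = k ∧ Function.update (f v) ι (ℓ v) = σ)).card ≤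
          (univ.filter (fun v => (c v, f v) = (k, Function.update σ ι ⟨0, by omega⟩) ∧
            ℓ v = σ ι)).card := by
        apply Finset.card_le_card
        intro v hv
        simp only [Finset.mem_filter, Finset.mem_univ, true_and] at hv ⊢
        obtain ⟨hv1, hv2⟩ := hv
        constructor
        · rw [← hv2, Function.update_idem, hv1]
          congr 1
          rw [eq_comm, Function.update_eq_self_iff]
          exact (h2 v ι (le_refl _)).symm
        · rw [← hv2, Function.update_self]
      have e2 := g3 (k, Function.update σ ι ⟨0, by omega⟩) (σ ι)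
      have e3 := h4 k (Function.update σ ι ⟨0, by omega⟩)
      have e4 : Fintype.card (Fin K × (Fin K → Fin (2 * M))) = K * (2 * M) ^ K := by simp
      rw [e4] at e2
      have hMr : (2 : ℝ) ≤ M := by exact_mod_cast hM
      have hMpos : (0 : ℝ) < M := by linarith
      have e5 : (((univ.filter (fun v => c v = k ∧ Function.update (f v) ι (ℓ v) = σ)).card : ℕ) : ℝ) * M ≤
          Fintype.card V / (M : ℝ) ^ i + 2 * 2 ^ (K * (2 * M) ^ K) + 2 ^ (K * (2 * M) ^ K) * M := by
        have e6 : (((univ.filter (fun v => c v = k ∧ Function.update (f v) ι (ℓ v) = σ)).card : ℕ) : ℝ) * M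
            ≤ ((univ.filter (fun v => (c v, f v) = (k, Function.update σ ι ⟨0, by omega⟩) ∧
            ℓ v = σ ι)).card : ℝ) * M := by
          apply mul_le_mul_of_nonneg_right _ hMpos.le
          exact_mod_cast e1
        have e7 : ((univ.filter (fun v => (c v, f v) = (k, Function.update σ ι ⟨0, by omega⟩) ∧
            ℓ v = σ ι)).card : ℝ) * M ≤ ((univ.filter (fun v => (c v, f v) =
              (k, Function.update σ ι ⟨0, by omega⟩))).card : ℝ) + 2 ^ (K * (2 * M) ^ K) * M := by
          exact_mod_cast e2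
        have e8 : ((univ.filter (fun v => (c v, f v) =
              (k, Function.update σ ι ⟨0, by omega⟩))).card : ℝ) =
              ((univ.filter (fun v => c v = k ∧ f v = Function.update σ ι ⟨0, by omega⟩)).card : ℝ) := by
          congr 2
          ext v
          simp
        rw [e8] at e7
        linarith
      have hC : (0 : ℝ) ≤ 2 ^ (K * (2 * M) ^ K) := by positivity
      rw [← div_le_div_iff_of_pos_right hMpos] at e5
      rw [mul_div_assoc, div_self hMpos.ne', mul_one] at e5
      refine e5.trans ?_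
      rw [add_div, add_div, mul_div_assoc, mul_div_assoc, div_self hMpos.ne', mul_one, div_div,
        ← pow_succ]
      have : 2 * ((2 : ℝ) ^ (K * (2 * M) ^ K) / M) ≤ 2 ^ (K * (2 * M) ^ K) := by
        rw [← mul_div_assoc, div_le_iff₀ hMpos]
        nlinarith
      linarith


/-- A distance-two colouring together with the carriers of the labels. -/
theorem carriers {V : Type} [Fintype V] [DecidableEq V] (G : SimpleGraph V) (D : ℕ)
    (hD : ∀ v, {w | w = v ∨ G.Adj v w}.ncard ≤ D) :
    ∃ (c : V → Fin (D ^ 2 + 1)) (o : Fin (D ^ 2 + 1) → V → V ⊕ V),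
      (∀ i q, (univ.filter (fun v => o i v = q)).card ≤ D) ∧
      (∀ i v w, o i v = o i w → c v = c w → v = w) ∧
      (∀ v w, G.Adj v w → c v ≠ c w ∧ o (c v) v = o (c v) w) := by
  classical
  let Nb : V → V → Prop := fun v w => w = v ∨ G.Adj v w
  have hNbs : ∀ v w, Nb v w → Nb w v := by
    rintro v w (h | h)
    · exact Or.inl h.symm
    · exact Or.inr h.symm
  have hcard : ∀ v, (univ.filter (Nb v)).card ≤ D := by
    intro v
    have := hD v
    rwa [Set.ncard_eq_toFinset_card', show ({w | w = v ∨ G.Adj v w} : Set V).toFinset =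
      univ.filter (Nb v) by ext; simp [Nb]] at this
  let Cf : V → V → Prop := fun v w => ∃ u, Nb u v ∧ Nb u w
  obtain ⟨c, hc⟩ := greedy Cf (fun v w ⟨u, h1, h2⟩ => ⟨u, h2, h1⟩) (D ^ 2 + 1) (by
    intro v
    have h1 : univ.filter (Cf v) ⊆ (univ.filter (Nb v)).biUnion (fun u => univ.filter (Nb u)) := by
      intro w hw
      simp only [Cf, Finset.mem_filter, Finset.mem_univ, true_and] at hw
      obtain ⟨u, h1, h2⟩ := hw
      simp only [Finset.mem_biUnion, Finset.mem_filter, Finset.mem_univ, true_and]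
      exact ⟨u, hNbs _ _ h1, h2⟩
    calc (univ.filter (Cf v)).card ≤ _ := Finset.card_le_card h1
      _ ≤ ∑ u ∈ univ.filter (Nb v), (univ.filter (Nb u)).card := Finset.card_biUnion_le
      _ ≤ ∑ u ∈ univ.filter (Nb v), D := Finset.sum_le_sum (fun u _ => hcard u)
      _ = (univ.filter (Nb v)).card * D := by simp
      _ ≤ D * D := Nat.mul_le_mul_right _ (hcard v)
      _ < D ^ 2 + 1 := by rw [sq]; omega)
  let o : Fin (D ^ 2 + 1) → V → V ⊕ V := fun i v =>
    if h : ∃ u, Nb v u ∧ c u = i then Sum.inl h.choose else Sum.inr v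
  have ho1 : ∀ i v u, o i v = Sum.inl u → Nb v u ∧ c u = i := by
    intro i v u h
    by_cases hex : ∃ u, Nb v u ∧ c u = i
    · simp only [o, dif_pos hex, Sum.inl.injEq] at h
      rw [← h]
      exact hex.choose_spec
    · simp only [o, dif_neg hex] at h
      exact absurd h (by simp)
  have ho2 : ∀ i v u, o i v = Sum.inr u → v = u := by
    intro i v u h
    by_cases hex : ∃ u, Nb v u ∧ c u = i
    · simp only [o, dif_pos hex] at h
      exact absurd h (by simp)
    · simp only [o, dif_neg hex, Sum.inr.injEq] at h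
      exact h
  have ho3 : ∀ v u, Nb v u → o (c u) v = Sum.inl u := by
    intro v u h
    have hex : ∃ u', Nb v u' ∧ c u' = c u := ⟨u, h, rfl⟩
    have h1 := hex.choose_spec
    simp only [o, dif_pos hex]
    congr 1
    by_contra hne
    exact hc _ _ hne ⟨v, h1.1, h⟩ h1.2
  refine ⟨c, o, ?_, ?_, ?_⟩
  · intro i q
    rcases q with u | u
    · refine (Finset.card_le_card ?_).trans (hcard u)
      intro v hv
      simp only [Finset.mem_filter, Finset.mem_univ, true_and] at hv ⊢
      exact hNbs _ _ (ho1 i v u hv).1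
    · have h1 : 1 ≤ D := by
        refine le_trans ?_ (hcard u)
        exact Finset.card_pos.mpr ⟨u, by simp [Nb]⟩
      refine le_trans ?_ h1
      refine (Finset.card_le_card (t := {u}) ?_).trans (by simp)
      intro v hv
      simp only [Finset.mem_filter, Finset.mem_univ, true_and] at hv
      simpa using ho2 i v u hv
  · intro i v w hvw hcvw
    by_contra hne
    rcases hq : o i v with u | u
    · have h1 := ho1 i v u hq
      have h2 := ho1 i w u (hvw ▸ hq)
      exact hc v w hne ⟨u, hNbs _ _ h1.1, hNbs _ _ h2.1⟩ hcvw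
    · have h1 := ho2 i v u hq
      have h2 := ho2 i w u (hvw ▸ hq)
      exact hne (h1.trans h2.symm)
  · intro v w hvw
    constructor
    · exact hc v w hvw.ne ⟨v, Or.inl rfl, Or.inr hvw⟩
    · rw [ho3 v v (Or.inl rfl), ho3 w v (Or.inr hvw.symm)]

/-- The small host: adjacency of labels. -/
def HAdj {K L : ℕ} (x y : Fin K × (Fin K → Fin L)) : Prop :=
  x.1 ≠ y.1 ∧ x.2 x.1 = y.2 x.1 ∧ x.2 y.1 = y.2 y.1

theorem HAdj.symm {K L : ℕ} {x y : Fin K × (Fin K → Fin L)} (h : HAdj x y) : HAdj y x :=
  ⟨h.1.symm, h.2.2.symm, h.2.1.symm⟩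

theorem exists_inj {V W : Type} [DecidableEq V] [DecidableEq W] [Nonempty W] (A : Finset V)
    (B : Finset W) (h : A.card ≤ B.card) :
    ∃ g : V → W, (∀ v ∈ A, g v ∈ B) ∧ ∀ v ∈ A, ∀ w ∈ A, g v = g w → v = w := by
  have h1 : Fintype.card A ≤ Fintype.card B := by simpa using h
  obtain ⟨e⟩ := Function.Embedding.nonempty_of_card_le h1
  refine ⟨fun v => if hv : v ∈ A then (e ⟨v, hv⟩ : W) else Classical.arbitrary W, ?_, ?_⟩
  · intro v hv
    simp only [hv, dif_pos]
    exact (e ⟨v, hv⟩).2
  · intro v hv w hw hvw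
    simp only [hv, hw, dif_pos] at hvw
    exact congrArg Subtype.val (e.injective (Subtype.ext hvw))

/-- The embedding theorem: a blown-up label graph with few deleted vertices still contains `G`. -/
theorem embed {V : Type} [Fintype V] [DecidableEq V] (G : SimpleGraph V) (D M s m : ℕ)
    (hD : ∀ v, {w | w = v ∨ G.Adj v w}.ncard ≤ D) (hD0 : 0 < D) (hM : 2 ≤ M) (hs : 0 < s)
    (hs2 : (Fintype.card V : ℝ) / (M : ℝ) ^ (D ^ 2 + 1) +
      2 * 2 ^ ((D ^ 2 + 1) * (2 * M) ^ (D ^ 2 + 1)) ≤ s)
    (hm : 2 * m * (2 * D) ^ (D ^ 2 + 1) ≤ s * (2 * M) ^ (D ^ 2 + 1))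
    (B : Finset ((Fin (D ^ 2 + 1) × (Fin (D ^ 2 + 1) → Fin (2 * M))) × Fin (2 * s)))
    (hB : B.card < 2 * m) :
    ∃ φ : V → (Fin (D ^ 2 + 1) × (Fin (D ^ 2 + 1) → Fin (2 * M))) × Fin (2 * s),
      Function.Injective φ ∧ (∀ v, φ v ∉ B) ∧ ∀ v w, G.Adj v w → HAdj (φ v).1 (φ w).1 := by
  classical
  obtain ⟨c, o, hfib, hinj, hadj⟩ := carriers G D hD
  let del : (Fin (D ^ 2 + 1) × (Fin (D ^ 2 + 1) → Fin (2 * M))) → Finset (Fin (2 * s)) :=
    fun x => univ.filter (fun j => (x, j) ∈ B)
  let Bad : Fin (D ^ 2 + 1) → (Fin (D ^ 2 + 1) → Fin (2 * M)) → Prop :=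
    fun k τ => s ≤ (del (k, τ)).card
  have hBadcard : ∀ k, (univ.filter (fun τ => Bad k τ)).card * s ≤ B.card := by
    intro k
    let B' := B.filter (fun b => b.1.1 = k ∧ Bad k b.1.2)
    have h1 : (univ.filter (fun τ => Bad k τ)).card * s ≤ B'.card := by
      have h2 : ∑ τ ∈ univ.filter (fun τ => Bad k τ), s ≤
          ∑ τ ∈ univ.filter (fun τ => Bad k τ), (B'.filter (fun b => b.1.2 = τ)).card := by
        apply Finset.sum_le_sum
        intro τ hτ
        simp only [Finset.mem_filter, Finset.mem_univ, true_and] at hτ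
        refine le_trans hτ ?_
        apply Finset.card_le_card_of_injOn (fun j => ((k, τ), j))
        · intro j hj
          simp only [del, Finset.coe_filter, Finset.mem_univ, true_and, Set.mem_ofPred_eq] at hj
          simp only [B', Finset.coe_filter, Finset.mem_filter, Set.mem_ofPred_eq]
          refine ⟨⟨hj, ?_, hτ⟩, ?_⟩ <;> trivial
        · intro j _ j' _ h
          exact congrArg Prod.snd h
      rw [← Finset.card_eq_sum_card_fiberwise] at h2
      · simpa using h2
      · intro b hb
        simp only [B', Finset.coe_filter, Set.mem_ofPred_eq] at hb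
        simp only [Finset.coe_filter, Finset.mem_univ, true_and, Set.mem_ofPred_eq]
        exact hb.2.2
    exact h1.trans (Finset.card_le_card (Finset.filter_subset _ _))
  have hBad : ∀ k, bc (Bad k) 0 (fun _ => ⟨0, by omega⟩) * (2 * D) ^ (D ^ 2 + 1) <
      (2 * M) ^ (D ^ 2 + 1) := by
    intro k
    have h1 : bc (Bad k) 0 (fun _ => ⟨0, by omega⟩) = (univ.filter (fun τ => Bad k τ)).card := by
      unfold bc
      congr 1
      ext τ
      simp
    rw [h1]
    have h2 := hBadcard k
    have hDpos : 0 < (2 * D) ^ (D ^ 2 + 1) := by positivity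
    have h3 : (univ.filter (fun τ => Bad k τ)).card * s * (2 * D) ^ (D ^ 2 + 1) <
        s * (2 * M) ^ (D ^ 2 + 1) := by
      calc _ ≤ B.card * (2 * D) ^ (D ^ 2 + 1) := Nat.mul_le_mul_right _ h2
        _ < 2 * m * (2 * D) ^ (D ^ 2 + 1) := Nat.mul_lt_mul_of_pos_right hB hDpos
        _ ≤ _ := hm
    have h4 : s * ((univ.filter (fun τ => Bad k τ)).card * (2 * D) ^ (D ^ 2 + 1)) <
        s * (2 * M) ^ (D ^ 2 + 1) := by
      calc _ = (univ.filter (fun τ => Bad k τ)).card * s * (2 * D) ^ (D ^ 2 + 1) := by ring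
        _ < _ := h3
    exact lt_of_mul_lt_mul_left h4 (Nat.zero_le _)
  obtain ⟨f, hf1, -, hf3, hf4⟩ := iterate (D ^ 2 + 1) M D hM c o hfib hinj Bad hBad (D ^ 2 + 1)
    (le_refl _)
  have hgood : ∀ v, ¬ Bad (c v) (f v) := by
    intro v hb
    have h1 := hf3 v
    simp only [Nat.sub_self, pow_zero, mul_one, Nat.lt_one_iff] at h1
    exact absurd h1 (bc_pos _ _ _ hb).ne'
  have hg : ∀ x : Fin (D ^ 2 + 1) × (Fin (D ^ 2 + 1) → Fin (2 * M)), ∃ g : V → Fin (2 * s),
      (∀ v ∈ univ.filter (fun v => c v = x.1 ∧ f v = x.2), g v ∈ (del x)ᶜ) ∧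
      ∀ v ∈ univ.filter (fun v => c v = x.1 ∧ f v = x.2),
      ∀ w ∈ univ.filter (fun v => c v = x.1 ∧ f v = x.2), g v = g w → v = w := by
    intro x
    have : Nonempty (Fin (2 * s)) := ⟨⟨0, by omega⟩⟩
    by_cases hx : Bad x.1 x.2
    · refine ⟨fun _ => ⟨0, by omega⟩, ?_, ?_⟩
      · intro v hv
        simp only [Finset.mem_filter, Finset.mem_univ, true_and] at hv
        exact absurd (by rw [hv.1, hv.2]; exact hx) (hgood v)
      · intro v hv
        simp only [Finset.mem_filter, Finset.mem_univ, true_and] at hv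
        exact absurd (by rw [hv.1, hv.2]; exact hx) (hgood v)
    · apply exists_inj
      have h1 : (del x).card < s := not_le.mp hx
      have h2 := Finset.card_compl_add_card (del x)
      rw [Fintype.card_fin] at h2
      have h3 : (univ.filter (fun v => c v = x.1 ∧ f v = x.2)).card ≤ s := by
        exact_mod_cast (hf4 x.1 x.2).trans hs2
      omega
  choose g hg1 hg2 using hg
  refine ⟨fun v => ((c v, f v), g (c v, f v) v), ?_, ?_, ?_⟩
  · intro v w h
    simp only [Prod.mk.injEq] at h
    obtain ⟨⟨h1, h2⟩, h3⟩ := h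
    rw [← h1, ← h2] at h3
    exact hg2 (c v, f v) v (by simp) w (by simp [h1, h2]) h3
  · intro v
    have := hg1 (c v, f v) v (by simp)
    simp only [del, Finset.mem_compl, Finset.mem_filter, Finset.mem_univ, true_and] at this
    exact this
  · intro v w hvw
    refine ⟨(hadj v w hvw).1, ?_, ?_⟩
    · exact hf1 (c v) (c v).2 v w (hadj v w hvw).2
    · exact hf1 (c w) (c w).2 v w (hadj w v hvw.symm).2.symm


theorem pairs_card {K L : ℕ} (c : Fin K) :
    (univ.filter (fun p : (Fin K → Fin L) × (Fin K → Fin L) => p.1 c = p.2 c)).card * L ≤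
      L ^ K * L ^ K := by
  have h1 : ((univ.filter (fun p : (Fin K → Fin L) × (Fin K → Fin L) => p.1 c = p.2 c)) ×ˢ
      (univ : Finset (Fin L))).card ≤
      (univ : Finset ((Fin K → Fin L) × (Fin K → Fin L))).card := by
    apply Finset.card_le_card_of_injOn
      (fun p => (p.1.1, Function.update p.1.2 c p.2))
    · intro _ _
      simp
    · rintro ⟨⟨σ, σ'⟩, x⟩ hp ⟨⟨τ, τ'⟩, y⟩ hq h
      simp only [Finset.coe_product, Finset.coe_filter, Finset.mem_univ, true_and,
        Finset.coe_univ, Set.mem_prod, Set.mem_ofPred_eq, Set.mem_univ, and_true] at hp hq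
      simp only [Prod.mk.injEq] at h
      obtain ⟨h1, h2⟩ := h
      subst h1
      have h3 : x = y := by
        have := congrFun h2 c
        simpa using this
      subst h3
      have h4 : σ' = τ' := by
        funext j
        by_cases hj : j = c
        · subst hj
          rw [← hp, ← hq]
        · have := congrFun h2 j
          rwa [Function.update_of_ne hj, Function.update_of_ne hj] at this
      rw [h4]
  rw [Finset.card_product] at h1
  simpa using h1

/-- The host graph: `q` disjoint copies of the blow-up of the label graph. -/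
def Host (q K L r : ℕ) : SimpleGraph (Fin q × ((Fin K × (Fin K → Fin L)) × Fin r)) where
  Adj x y := x.1 = y.1 ∧ HAdj x.2.1 y.2.1
  symm := ⟨fun _ _ h => ⟨h.1.symm, h.2.symm⟩⟩
  loopless := ⟨fun _ h => h.2.1 rfl⟩

theorem host_card (q K L r : ℕ) :
    {p : (Fin q × ((Fin K × (Fin K → Fin L)) × Fin r)) ×
      (Fin q × ((Fin K × (Fin K → Fin L)) × Fin r)) | (Host q K L r).Adj p.1 p.2}.ncard * L ≤
      (L ^ K * L ^ K) * (q * r * r * K * K) := by
  classical
  rw [Set.ncard_eq_toFinset_card']
  set A := ({p : (Fin q × ((Fin K × (Fin K → Fin L)) × Fin r)) ×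
      (Fin q × ((Fin K × (Fin K → Fin L)) × Fin r)) | (Host q K L r).Adj p.1 p.2}).toFinset with hA
  have hAmem : ∀ p, p ∈ A ↔ (Host q K L r).Adj p.1 p.2 := by
    intro p
    simp [hA]
  let F : (Fin q × ((Fin K × (Fin K → Fin L)) × Fin r)) ×
      (Fin q × ((Fin K × (Fin K → Fin L)) × Fin r)) → Fin q × Fin r × Fin r × Fin K × Fin K :=
    fun p => (p.1.1, p.1.2.2, p.2.2.2, p.1.2.1.1, p.2.2.1.1)
  have h1 : A.card = ∑ b : Fin q × Fin r × Fin r × Fin K × Fin K, (A.filter (fun a => F a = b)).card :=
    Finset.card_eq_sum_card_fiberwise (fun _ _ => Finset.mem_coe.mpr (mem_univ _))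
  have h2 : ∀ b : Fin q × Fin r × Fin r × Fin K × Fin K,
      (A.filter (fun a => F a = b)).card * L ≤ L ^ K * L ^ K := by
    intro b
    refine le_trans (Nat.mul_le_mul_right _ ?_) (pairs_card b.2.2.2.1)
    apply Finset.card_le_card_of_injOn (fun p => (p.1.2.1.2, p.2.2.1.2))
    · rintro ⟨⟨a, ⟨k, σ⟩, i⟩, ⟨a', ⟨k', σ'⟩, i'⟩⟩ hp
      simp only [Finset.coe_filter, hAmem, Set.mem_ofPred_eq, Host, HAdj, F] at hp
      simp only [Finset.coe_filter, Finset.mem_univ, true_and, Set.mem_ofPred_eq]
      obtain ⟨⟨-, -, h3, -⟩, h4⟩ := hp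
      rw [← h4]
      exact h3
    · rintro ⟨⟨a, ⟨k, σ⟩, i⟩, ⟨a', ⟨k', σ'⟩, i'⟩⟩ hp ⟨⟨b, ⟨l, τ⟩, j⟩, ⟨b', ⟨l', τ'⟩, j'⟩⟩ hq h
      simp only [Finset.coe_filter, hAmem, Set.mem_ofPred_eq, Host, HAdj, F] at hp hq
      simp only [Prod.mk.injEq] at h
      obtain ⟨⟨e1, -⟩, h4⟩ := hp
      obtain ⟨⟨e2, -⟩, h5⟩ := hq
      have h6 := h4.trans h5.symm
      simp only [Prod.mk.injEq] at h6
      obtain ⟨g1, g2, g3, g4, g5⟩ := h6
      obtain ⟨g6, g7⟩ := h
      subst g1 g2 g3 g4 g5 g6 g7
      rw [← e1, ← e2]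
  rw [h1, Finset.sum_mul]
  calc _ ≤ ∑ b : Fin q × Fin r × Fin r × Fin K × Fin K, L ^ K * L ^ K :=
        Finset.sum_le_sum (fun b _ => h2 b)
    _ = _ := by
      simp only [Finset.sum_const, Finset.card_univ, Fintype.card_prod, Fintype.card_fin,
        smul_eq_mul]
      ring

/-- Extending a blue matching. -/
theorem extend {W : Type} (bl : W → W → Prop) (j : ℕ) (g : Fin j ⊕ Fin j → W)
    (hg : Function.Injective g) (hb : ∀ i, bl (g (Sum.inl i)) (g (Sum.inr i)))
    (x y : W) (hxy : x ≠ y) (hx : x ∉ Set.range g) (hy : y ∉ Set.range g) (hbl : bl x y) :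
    ∃ g' : Fin (j + 1) ⊕ Fin (j + 1) → W, Function.Injective g' ∧
      ∀ i, bl (g' (Sum.inl i)) (g' (Sum.inr i)) := by
  let gl : Fin (j + 1) → W := Fin.snoc (fun i => g (Sum.inl i)) x
  let gr : Fin (j + 1) → W := Fin.snoc (fun i => g (Sum.inr i)) y
  refine ⟨Sum.elim gl gr, ?_, ?_⟩
  · have hl : ∀ i : Fin j, gl i.castSucc = g (Sum.inl i) := fun i => Fin.snoc_castSucc ..
    have hl' : gl (Fin.last j) = x := Fin.snoc_last ..
    have hr : ∀ i : Fin j, gr i.castSucc = g (Sum.inr i) := fun i => Fin.snoc_castSucc ..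
    have hr' : gr (Fin.last j) = y := Fin.snoc_last ..
    have hxr : ∀ z, g z ≠ x := fun z h => hx ⟨z, h⟩
    have hyr : ∀ z, g z ≠ y := fun z h => hy ⟨z, h⟩
    rintro (a | a) (b | b) h
    · simp only [Sum.elim_inl] at h
      congr 1
      revert h
      refine Fin.lastCases ?_ (fun a => ?_) a <;> refine Fin.lastCases ?_ (fun b => ?_) b
      · intro _; rfl
      · rw [hl', hl]; intro h; exact absurd h.symm (hxr _)
      · rw [hl', hl]; intro h; exact absurd h (hxr _)
      · rw [hl, hl]; intro h; have := hg h; simp only [Sum.inl.injEq] at this; rw [this]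
    · exfalso
      simp only [Sum.elim_inl, Sum.elim_inr] at h
      revert h
      refine Fin.lastCases ?_ (fun a => ?_) a <;> refine Fin.lastCases ?_ (fun b => ?_) b
      · rw [hl', hr']; intro h; exact hxy h
      · rw [hl', hr]; intro h; exact absurd h.symm (hxr _)
      · rw [hr', hl]; intro h; exact absurd h (hyr _)
      · rw [hl, hr]; intro h; have := hg h; simp at this
    · exfalso
      simp only [Sum.elim_inl, Sum.elim_inr] at h
      revert h
      refine Fin.lastCases ?_ (fun a => ?_) a <;> refine Fin.lastCases ?_ (fun b => ?_) b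
      · rw [hl', hr']; intro h; exact hxy h.symm
      · rw [hr', hl]; intro h; exact absurd h.symm (hyr _)
      · rw [hl', hr]; intro h; exact absurd h (hxr _)
      · rw [hr, hl]; intro h; have := hg h; simp at this
    · simp only [Sum.elim_inr] at h
      congr 1
      revert h
      refine Fin.lastCases ?_ (fun a => ?_) a <;> refine Fin.lastCases ?_ (fun b => ?_) b
      · intro _; rfl
      · rw [hr', hr]; intro h; exact absurd h.symm (hyr _)
      · rw [hr', hr]; intro h; exact absurd h (hyr _)
      · rw [hr, hr]; intro h; have := hg h; simp only [Sum.inr.injEq] at this; rw [this]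
  · intro i
    simp only [Sum.elim_inl, Sum.elim_inr, gl, gr]
    refine Fin.lastCases ?_ (fun a => ?_) i
    · rw [Fin.snoc_last, Fin.snoc_last]; exact hbl
    · rw [Fin.snoc_castSucc, Fin.snoc_castSucc]; exact hb a

/-- The Ramsey property of the host. -/
theorem ramsey {V X : Type} [Fintype V] [DecidableEq V] [Fintype X] [DecidableEq X]
    (G : SimpleGraph V) (q m t : ℕ) (hqm : t ≤ q * m)
    (A : X → X → Prop) (F : SimpleGraph (Fin q × X))
    (hF : ∀ a x y, F.Adj (a, x) (a, y) ↔ A x y)
    (hemb : ∀ B : Finset X, B.card < 2 * m →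
      ∃ φ : V → X, Function.Injective φ ∧ (∀ v, φ v ∉ B) ∧ ∀ v w, G.Adj v w → A (φ v) (φ w))
    (R : SimpleGraph (Fin q × X)) :
    (∃ f : V → Fin q × X, Function.Injective f ∧ ∀ a b, G.Adj a b → R.Adj (f a) (f b)) ∨
    (∃ g : Fin t ⊕ Fin t → Fin q × X, Function.Injective g ∧
        ∀ i, F.Adj (g (Sum.inl i)) (g (Sum.inr i)) ∧
          ¬ R.Adj (g (Sum.inl i)) (g (Sum.inr i))) := by
  classical
  by_cases ht : ∃ g : Fin t ⊕ Fin t → Fin q × X, Function.Injective g ∧
        ∀ i, F.Adj (g (Sum.inl i)) (g (Sum.inr i)) ∧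
          ¬ R.Adj (g (Sum.inl i)) (g (Sum.inr i))
  · exact Or.inr ht
  · left
    let P : ℕ → Prop := fun j => ∃ g : Fin j ⊕ Fin j → Fin q × X, Function.Injective g ∧
        ∀ i, F.Adj (g (Sum.inl i)) (g (Sum.inr i)) ∧
          ¬ R.Adj (g (Sum.inl i)) (g (Sum.inr i))
    have hP0 : P 0 := ⟨fun z => (Sum.elim Fin.elim0 Fin.elim0 z), fun z => by
      rcases z with z | z <;> exact z.elim0, fun i => i.elim0⟩
    obtain ⟨j, hj, hPj, hPj'⟩ : ∃ j, j < t ∧ P j ∧ ¬ P (j + 1) := by
      by_contra hcon
      push Not at hcon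
      have : ∀ j, j ≤ t → P j := by
        intro j
        induction j with
        | zero => exact fun _ => hP0
        | succ j ih => exact fun h => hcon j (by omega) (ih (by omega))
      exact ht (this t (le_refl _))
    obtain ⟨g, hg, hgb⟩ := hPj
    have hcov : ∀ x y, F.Adj x y → x ∉ Set.range g → y ∉ Set.range g → R.Adj x y := by
      intro x y hxy hx hy
      by_contra hR
      exact hPj' (extend (fun x y => F.Adj x y ∧ ¬ R.Adj x y) j g hg hgb x y hxy.ne hx hy ⟨hxy, hR⟩)
    let Ball : Finset (Fin q × X) := univ.image g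
    have hBall : Ball.card ≤ 2 * j := by
      refine Finset.card_image_le.trans ?_
      simp
      omega
    let Ba : Fin q → Finset X := fun a => univ.filter (fun x => (a, x) ∈ Ball)
    obtain ⟨a, ha⟩ : ∃ a, (Ba a).card < 2 * m := by
      by_contra hcon
      push Not at hcon
      have h1 : ∑ a : Fin q, 2 * m ≤ ∑ a : Fin q, (Ball.filter (fun b => b.1 = a)).card := by
        apply Finset.sum_le_sum
        intro a _
        refine (hcon a).trans ?_
        apply Finset.card_le_card_of_injOn (fun x => (a, x))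
        · intro x hx
          simp only [Ba, Finset.coe_filter, Finset.mem_univ, true_and, Set.mem_ofPred_eq] at hx
          simp only [Finset.coe_filter, Set.mem_ofPred_eq]
          exact ⟨hx, trivial⟩
        · intro x _ y _ h
          exact congrArg Prod.snd h
      rw [← Finset.card_eq_sum_card_fiberwise (fun _ _ => Finset.mem_coe.mpr (mem_univ _))] at h1
      simp only [Finset.sum_const, Finset.card_univ, Fintype.card_fin, smul_eq_mul] at h1
      nlinarith
    obtain ⟨φ, hφ1, hφ2, hφ3⟩ := hemb (Ba a) ha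
    have hnot : ∀ v, (a, φ v) ∉ Set.range g := by
      rintro v ⟨z, hz⟩
      apply hφ2 v
      simp only [Ba, Ball, Finset.mem_filter, Finset.mem_univ, true_and, Finset.mem_image]
      exact ⟨z, hz⟩
    refine ⟨fun v => (a, φ v), ?_, ?_⟩
    · intro v w h
      exact hφ1 (congrArg Prod.snd h)
    · intro v w hvw
      exact hcov _ _ ((hF a _ _).mpr (hφ3 v w hvw)) (hnot v) (hnot w)

end Pool.Agent.H52.SR
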